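import Mathlib

open MeasureTheory

namespace Pool.Agent.Helper534.LS

/-! ## `H¹` loops on the five sphere -/

/-- complex three space; its points are written `(y₁, y₂, z)` -/
abbrev C3 : Type := ℂ × ℂ × ℂ

/-- square integrable functions on the unit interval with values in `C3` -/
abbrev L2C : Type := Lp C3 2 (volume : Measure unitInterval)

/-- the absolutely continuous path with starting point `p` and velocity `v` -/
noncomputable def pt5 (p : C3) (v : L2C) (t : unitInterval) : C3 := p + ∫ s in Set.Iic t, v s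

/-- the squared Euclidean norm on `C3` -/
noncomputable def nsq (p : C3) : ℝ := ‖p.1‖ ^ 2 + ‖p.2.1‖ ^ 2 + ‖p.2.2‖ ^ 2

/-- The space of `H¹` loops on the unit sphere `S⁵` of `ℂ³`: the starting point and the velocity of
the loop. -/
def Loop5 : Type := {x : C3 × L2C // (∀ t, nsq (pt5 x.1 x.2 t) = 1) ∧ pt5 x.1 x.2 1 = x.1}

/-- The `H¹` topology. -/
noncomputable instance : TopologicalSpace Loop5 :=
  (inferInstance : TopologicalSpace
    {x : C3 × L2C // (∀ t, nsq (pt5 x.1 x.2 t) = 1) ∧ pt5 x.1 x.2 1 = x.1})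

/-- `g` is a smooth field of inner products on `ℂ³ = ℝ⁶`; its restriction to the tangent spaces of
the sphere is a Riemannian metric on `S⁵`. -/
def IsMetric (g : C3 → C3 → C3 → ℝ) : Prop :=
  (∀ u v, ContDiff ℝ ((⊤ : ℕ∞) : WithTop ℕ∞) fun p => g p u v) ∧ (∀ p u v, g p u v = g p v u) ∧
  (∀ p u u' v, g p (u + u') v = g p u v + g p u' v) ∧
  (∀ (c : ℝ) p u v, g p (c • u) v = c * g p u v) ∧ ∀ p u, u ≠ 0 → 0 < g p u u

/-- The length of a loop for the metric `g`. -/
noncomputable def lenG (g : C3 → C3 → C3 → ℝ) (x : Loop5) : ℝ :=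
  ∫ t, Real.sqrt (g (pt5 x.1.1 x.1.2 t) ((x.1.2 : unitInterval → C3) t)
    ((x.1.2 : unitInterval → C3) t))

end Pool.Agent.Helper534.LS
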