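import Pool.Agent.Helper534.LS.Defs
import Pool.Agent.Helper534.L5.Core5

open MeasureTheory

namespace Pool.Agent.Helper534.LS

/-- the five sphere -/
abbrev S5 : Type := {p : C3 // nsq p = 1}
/-- the three sphere -/
abbrev S3 : Type := {y : ℂ × ℂ // ‖y.1‖ ^ 2 + ‖y.2‖ ^ 2 = 1}

/-- the space of `H¹` loops on the five sphere, with the `H¹` topology -/
abbrev HL5 : Type := {x : C3 × L2C // (∀ t, nsq (pt5 x.1 x.2 t) = 1) ∧ pt5 x.1 x.2 1 = x.1}

/-- the value of a loop at time `t` -/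
noncomputable def at5 (x : HL5) (t : unitInterval) : C3 := pt5 x.1.1 x.1.2 t

/-! ## The metric -/

/-- derivative of `|z|²` at `p` in direction `u` -/
noncomputable def d0 (p u : C3) : ℝ := 2 * (p.2.2 * star u.2.2).re
/-- derivative of `y₁² z̄` -/
noncomputable def d1 (p u : C3) : ℂ := 2 * p.1 * u.1 * star p.2.2 + p.1 ^ 2 * star u.2.2
/-- derivative of `y₁ y₂ z̄` -/
noncomputable def d2 (p u : C3) : ℂ :=
  (u.1 * p.2.1 + p.1 * u.2.1) * star p.2.2 + p.1 * p.2.1 * star u.2.2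
/-- derivative of `y₂² z̄` -/
noncomputable def d3 (p u : C3) : ℂ := 2 * p.2.1 * u.2.1 * star p.2.2 + p.2.1 ^ 2 * star u.2.2

/-- the metric: the Euclidean one plus `10⁶` times the pull back of the Euclidean metric under
`(|z|², y₁² z̄, y₁ y₂ z̄, y₂² z̄)` -/
noncomputable def gM (p u v : C3) : ℝ :=
  (u.1 * star v.1 + u.2.1 * star v.2.1 + u.2.2 * star v.2.2).re +
    1000000 * (d0 p u * d0 p v +
      (d1 p u * star (d1 p v) + d2 p u * star (d2 p v) + d3 p u * star (d3 p v)).re)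

/-- the speed -/
noncomputable def spd (p v : C3) : ℝ := Real.sqrt (gM p v v)

/-- the length of a loop for the metric -/
noncomputable def len5 (x : HL5) : ℝ := ∫ t, spd (at5 x t) ((x.1.2 : unitInterval → C3) t)

/-- the loops of length at most `a` -/
def sub5 (a : ℝ) : Set HL5 := {x | len5 x ≤ a}

/-! ## Quaternions and families of loops -/

/-- left multiplication by the quaternion `α + β j` on `ℂ² = ℍ`, `y = y₁ + y₂ j` -/
noncomputable def qm (α β : ℂ) (y : ℂ × ℂ) : ℂ × ℂ :=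
  (α * y.1 - β * star y.2, α * y.2 + β * star y.1)

/-- the point `(w, z)` of `C3` -/
def mk3 (w : ℂ × ℂ) (z : ℂ) : C3 := (w.1, w.2, z)

/-- base point of the three sphere -/
noncomputable def y0 : S3 := ⟨(1, 0), by simp⟩

/-- `y` if `θ` is in the upper half circle and `y0` otherwise -/
noncomputable def hy (θ : Circle) (y : S3) : S3 := if 0 ≤ (θ : ℂ).im then y else y0

/-- the circle as `exp (2 π i t)` -/
noncomputable def ci (t : ℝ) : Circle := Circle.exp (2 * Real.pi * t)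

/-- the small circles through `(0, 0, 1)` -/
noncomputable def fX (θ : Circle) (y : S3) (t : ℝ) : C3 :=
  mk3 (qm 0 ((Real.sin (Real.pi * t) * |(θ : ℂ).im| : ℝ) : ℂ) (hy θ y).1)
    (1 + ((1 - (θ : ℂ).re) / 2 : ℝ) * ((ci t : ℂ) - 1))

/-- `X` is the family of small circles -/
def IsX (F : C(Circle × S3, HL5)) : Prop :=
  ∀ p (t : unitInterval), at5 (F p) t = fX p.1 p.2 t

/-- the loops `t ↦ B_τ (cos τ p + sin τ q)`, `τ = 2 π t`, for `p = (sin u y, cos u)` and
`q = - cos φ i p + sin φ j y`, where `B_τ (y, z) = (y, exp (i τ) z)` -/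
noncomputable def fPsi (u φ : ℝ) (y : S3) (t : ℝ) : C3 :=
  mk3 (qm (Real.sin u * (Real.cos (2 * Real.pi * t) -
      Complex.I * Real.cos φ * Real.sin (2 * Real.pi * t)))
    (Real.sin (2 * Real.pi * t) * Real.sin φ) y.1)
    (Real.cos u * ((ci t : ℂ) * (Real.cos (2 * Real.pi * t) -
      Complex.I * Real.cos φ * Real.sin (2 * Real.pi * t))))

/-- the loops `(h_s (t) sin u y, cos u)`, where `h_s` is a small circle through `1` in the sphere of
unit quaternions -/
noncomputable def fOm (s u : ℝ) (y : S3) (t : ℝ) : C3 :=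
  mk3 (qm (Real.sin u * (1 + s * ((ci (-t) : ℂ) - 1)))
    (Real.sin u * (2 * Real.sqrt (s * (1 - s)) * Real.sin (Real.pi * t))) y.1) (Real.cos u)

/-- `Ψ` is the family `fPsi` -/
def IsPsi (F : C((ℝ × ℝ) × S3, HL5)) : Prop :=
  ∀ p (t : unitInterval), at5 (F p) t = fPsi p.1.1 p.1.2 p.2 t

/-- `Ω` is the family `fOm` -/
def IsOm (F : C((unitInterval × ℝ) × S3, HL5)) : Prop :=
  ∀ p (t : unitInterval), at5 (F p) t = fOm p.1.1 p.1.2 p.2 t

/-- `G` is obtained from the family `F` parametrised by `b ∈ [0, 1]`: upper half circle with `y`,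
lower half circle with `y0` -/
def IsHat {Z : Type} [TopologicalSpace Z] (F : C(unitInterval × S3, Z)) (G : C(Circle × S3, Z)) :
    Prop :=
  ∀ p : Circle × S3, G p = F (Set.projIcc 0 1 zero_le_one ((1 - (p.1 : ℂ).re) / 2), hy p.1 p.2)

/-- first parameter function of the low family -/
noncomputable def us (b : ℝ) : ℝ := Real.pi / 2 * (cl (4 * min b (1 - b)) : ℝ)
/-- second parameter function of the low family -/
noncomputable def ph (b : ℝ) : ℝ := Real.pi * (cl (4 * b - 2) : ℝ)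

/-- the doubled family of small circles -/
def IsDb (F : C(Circle × S3, HL5)) : Prop :=
  ∀ p (t : unitInterval), at5 (F p) t = fX p.1 p.2 (if (t : ℝ) ≤ 1 / 2 then 2 * t else 2 * t - 1)

/-- the low family: constant loops, loops in the three sphere, orbits -/
def IsLow (F : C(unitInterval × S3, HL5)) : Prop := ∀ p (t : unitInterval),
  at5 (F p) t = if (p.1 : ℝ) ≤ 1 / 2 then fOm (cl (4 * p.1 - 1)) (us p.1) p.2 t
    else fPsi (us p.1) (ph p.1) p.2 t

/-! ## Evaluation, covers -/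

/-- evaluation of loops at points of the circle -/
def IsEv (e : C(Circle × HL5, S5)) : Prop :=
  ∀ (x : HL5) (t : unitInterval), (e (ci t, x)).1 = at5 x t

/-- points with `y ≠ 0` -/
def UY : Set S5 := {p | (p.1.1, p.1.2.1) ≠ ((0, 0) : ℂ × ℂ)}
/-- points with `z ≠ 0` -/
def VZ : Set S5 := {p | p.1.2.2 ≠ 0}

/-- points different from `(0, 0, i)` -/
def UI : Set S5 := {p | p.1.2.2 ≠ Complex.I}
/-- points different from `(0, 0, -i)` -/
def VI : Set S5 := {p | p.1.2.2 ≠ -Complex.I}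

/-- the four sphere -/
abbrev S4 : Type := {p : (ℂ × ℂ) × ℝ // ‖p.1.1‖ ^ 2 + ‖p.1.2‖ ^ 2 + p.2 ^ 2 = 1}
/-- points different from the north pole -/
def UP : Set S4 := {p | p.1.2 ≠ 1}
/-- points different from the south pole -/
def VP : Set S4 := {p | p.1.2 ≠ -1}

/-- points of the three sphere with `y₁ ≠ 0` -/
def U1 : Set S3 := {y | y.1.1 ≠ 0}
/-- points of the three sphere with `y₂ ≠ 0` -/
def U2 : Set S3 := {y | y.1.2 ≠ 0}

/-- the torus in the three sphere -/
def IsTau (τ : C(T2, ↥(U1 ∩ U2))) : Prop :=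
  ∀ p, (τ p).1.1 = (((Real.sqrt 2)⁻¹ : ℝ) * (p.1 : ℂ), ((Real.sqrt 2)⁻¹ : ℝ) * (p.2.1 : ℂ))

/-- `z` is a fundamental class of the three sphere -/
def IsZeta (z : HH S3 3) : Prop :=
  ∀ τ, IsTau τ → delta U1 U2 2 z = hmap τ 2 tor2

/-- `E e x` is the class in the homology of the five sphere swept out by `x` -/
noncomputable def EE (e : C(Circle × HL5, S5)) (x : HH HL5 4) : HH S5 5 :=
  hmap e 5 (sig HL5 4 x)

/-- multiplication by `j` on the three sphere -/
def IsJ3 (f : C(S3, S3)) : Prop := ∀ y, (f y).1 = qm 0 1 y.1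

/-- the time `1/2` slice of the family of small circles -/
def IsPs (ψ : C(Circle × S3, ↥(UI ∩ VI))) : Prop :=
  ∀ p, (ψ p).1.1 = mk3 (qm 0 (|(p.1 : ℂ).im| : ℝ) (hy p.1 p.2).1) ((p.1 : ℂ).re : ℝ)

/-! ## Lower bound -/

/-- loops of length at most `a` which stay near the three sphere -/
def O1 (a : ℝ) : Set ↥(sub5 a) := {x | ∀ t, ‖(at5 x.1 t).2.2‖ < 1 / 2}
/-- loops of length at most `a` which stay away from the three sphere -/
def O2 (a : ℝ) : Set ↥(sub5 a) := {x | ∀ t, 1 / 4 < ‖(at5 x.1 t).2.2‖}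

/-- hermitian product of the first two components -/
noncomputable def cc (p q : C3) : ℂ := p.1 * star q.1 + p.2.1 * star q.2.1

/-- evaluation on `O1 ∩ O2` -/
def IsE12 (a : ℝ) (f : C(Circle × ↥(O1 a ∩ O2 a), ↥(UY ∩ VZ))) : Prop :=
  ∀ x (t : unitInterval), (f (ci t, x)).1.1 = at5 x.1.1 t

/-- the orbit map of the starting points -/
def IsM12 (a : ℝ) (f : C(Circle × ↥(O1 a ∩ O2 a), ↥(UY ∩ VZ))) : Prop :=
  ∀ s x, (f (s, x)).1.1 = mk3 (qm s 0 ((at5 x.1.1 0).1, (at5 x.1.1 0).2.1))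
    ((s : ℂ) ^ 2 * (at5 x.1.1 0).2.2)

/-- concatenations of two small circles -/
def IsH2 (F : C(Circle × (Circle × S3), HL5)) : Prop := ∀ p (t : unitInterval),
  at5 (F p) t = if (t : ℝ) ≤ 1 / 2 then fX p.1 p.2.2 (2 * t) else fX p.2.1 p.2.2 (2 * t - 1)

/-- a small circle followed by a constant loop -/
def IsG2 (F : C(Circle × S3, HL5)) : Prop := ∀ p (t : unitInterval),
  at5 (F p) t = if (t : ℝ) ≤ 1 / 2 then fX p.1 p.2 (2 * t) else (0, 0, 1)

/-- a constant loop followed by a small circle -/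
def IsG2' (F : C(Circle × S3, HL5)) : Prop := ∀ p (t : unitInterval),
  at5 (F p) t = if (t : ℝ) ≤ 1 / 2 then (0, 0, 1) else fX p.1 p.2 (2 * t - 1)

/-- the family `fPsi 0 φ` with `cos φ = re θ` -/
def IsD1 (F : C(Circle × S3, HL5)) : Prop := ∀ p (t : unitInterval),
  at5 (F p) t = fPsi 0 (Real.arccos (p.1 : ℂ).re) (hy p.1 p.2) t

end Pool.Agent.Helper534.LS
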