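import Pool.Agent.Helper534.L5.Defs5

open MeasureTheory

namespace Pool.Agent.Helper534.LS



theorem ci_facts : Continuous ci ∧ ci 0 = 1 ∧ ci 1 = 1 ∧ ((ci (1 / 2) : Circle) : ℂ) = -1 ∧
    (∀ s : Circle, ∃ t : unitInterval, ci t = s) ∧
    (∀ s t : unitInterval, ci s = ci t → s = t ∨ (s = 0 ∧ t = 1) ∨ (s = 1 ∧ t = 0)) ∧
    (∀ t, ((ci t : Circle) : ℂ) = Real.cos (2 * Real.pi * t) +
      Real.sin (2 * Real.pi * t) * Complex.I) ∧ (∀ s t, ci (s + t) = ci s * ci t) := by
  have hpi := Real.pi_pos
  refine ⟨?_, ?_, ?_, ?_, ?_, ?_, ?_, ?_⟩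
  · unfold ci
    exact Circle.exp.continuous.comp (continuous_const.mul continuous_id)
  · simp [ci]
  · simp [ci]
  · have h1 : (2 * Real.pi * (1 / 2) : ℝ) = Real.pi := by ring
    rw [ci, h1, Circle.coe_exp, Complex.exp_pi_mul_I]
  · intro s
    have h1 := Complex.neg_pi_lt_arg (s : ℂ)
    have h2 := Complex.arg_le_pi (s : ℂ)
    have h3 := Circle.exp_arg s
    rcases le_or_gt 0 (Complex.arg (s : ℂ)) with h | h
    · refine ⟨⟨Complex.arg (s : ℂ) / (2 * Real.pi), by positivity, ?_⟩, ?_⟩
      · rw [div_le_one (by positivity)]; linarith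
      · unfold ci
        simp only
        rw [mul_div_cancel₀ _ (by positivity : (2 * Real.pi) ≠ 0)]
        exact h3
    · refine ⟨⟨(Complex.arg (s : ℂ) + 2 * Real.pi) / (2 * Real.pi), ?_, ?_⟩, ?_⟩
      · apply div_nonneg <;> linarith
      · rw [div_le_one (by positivity)]; linarith
      · unfold ci
        simp only
        rw [mul_div_cancel₀ _ (by positivity : (2 * Real.pi) ≠ 0), Circle.exp_add_two_pi]
        exact h3
  · intro s t h
    unfold ci at h
    obtain ⟨m, hm⟩ := Circle.exp_eq_exp.1 h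
    have hst : (s : ℝ) = t + m := by
      have h4 : (2 * Real.pi) * (s : ℝ) = (2 * Real.pi) * (t + m) := by rw [hm]; ring
      exact mul_left_cancel₀ (by positivity) h4
    have hs0 := s.2.1
    have hs1 := s.2.2
    have ht0 := t.2.1
    have ht1 := t.2.2
    have hm1 : (m : ℝ) ≤ 1 := by linarith
    have hm2 : (-1 : ℝ) ≤ m := by linarith
    have hm1' : m ≤ 1 := by exact_mod_cast hm1
    have hm2' : -1 ≤ m := by exact_mod_cast hm2
    have hm3 : m = -1 ∨ m = 0 ∨ m = 1 := by omega
    rcases hm3 with rfl | rfl | rfl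
    · right; left
      push_cast at hst
      constructor
      · apply Subtype.ext; show (s : ℝ) = 0; linarith
      · apply Subtype.ext; show (t : ℝ) = 1; linarith
    · left
      push_cast at hst
      apply Subtype.ext; linarith
    · right; right
      push_cast at hst
      constructor
      · apply Subtype.ext; show (s : ℝ) = 1; linarith
      · apply Subtype.ext; show (t : ℝ) = 0; linarith
  · intro t
    rw [ci, Circle.coe_exp, Complex.exp_mul_I]
    push_cast
    rfl
  · intro s t
    unfold ci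
    rw [mul_add, Circle.exp_add]

end Pool.Agent.Helper534.LS
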