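import Pool.Agent.Helper534.L5.Defs5

open MeasureTheory

namespace Pool.Agent.Helper534.LS



theorem pt5_cont_intble (v : L2C) : Integrable (fun s : unitInterval => (v : unitInterval → C3) s) :=
  (Lp.memLp v).integrable one_le_two

theorem pt5_cont_norm (v : L2C) : ∫ s, ‖(v : unitInterval → C3) s‖ ≤ ‖v‖ := by
  rw [Lp.norm_def, integral_norm_eq_lintegral_enorm (Lp.aestronglyMeasurable v),
    ← eLpNorm_one_eq_lintegral_enorm]
  exact ENNReal.toReal_mono (Lp.eLpNorm_ne_top v)
    (eLpNorm_le_eLpNorm_of_exponent_le one_le_two (Lp.aestronglyMeasurable v))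

theorem pt5_cont_t (v : L2C) : Continuous fun t : unitInterval => ∫ s in Set.Iic t, v s := by
  have h : ∀ t : unitInterval, ∫ s in Set.Iic t, v s =
      ∫ s, (Set.Iic t).indicator (fun s => (v : unitInterval → C3) s) s := fun t =>
    (integral_indicator measurableSet_Iic).symm
  simp only [h]
  rw [continuous_iff_continuousAt]
  intro t0
  refine continuousAt_of_dominated (bound := fun s => ‖(v : unitInterval → C3) s‖) ?_ ?_
    (pt5_cont_intble v).norm ?_
  · exact Filter.Eventually.of_forall fun t =>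
      (Lp.aestronglyMeasurable v).indicator measurableSet_Iic
  · refine Filter.Eventually.of_forall fun t => Filter.Eventually.of_forall fun s => ?_
    exact norm_indicator_le_norm_self _ _
  · have h0 : ∀ᵐ s : unitInterval, s ≠ t0 := by
      rw [ae_iff]
      have : {a : unitInterval | ¬ a ≠ t0} = {t0} := by
        ext a; simp
      rw [this]
      exact measure_singleton t0
    filter_upwards [h0] with s hs
    rcases lt_or_gt_of_ne hs with h1 | h1
    · have h2 : ∀ᶠ t in nhds t0, (v : unitInterval → C3) s =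
          (Set.Iic t).indicator (fun s => (v : unitInterval → C3) s) s := by
        filter_upwards [lt_mem_nhds h1] with t ht
        rw [Set.indicator_of_mem (show s ∈ Set.Iic t from ht.le)]
      exact (continuousAt_const (y := (v : unitInterval → C3) s)).congr h2
    · have h2 : ∀ᶠ t in nhds t0, (0 : C3) =
          (Set.Iic t).indicator (fun s => (v : unitInterval → C3) s) s := by
        filter_upwards [gt_mem_nhds h1] with t ht
        rw [Set.indicator_of_notMem (show s ∉ Set.Iic t from not_le.mpr ht)]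
      exact (continuousAt_const (y := (0 : C3))).congr h2

theorem pt5_cont : Continuous fun q : (C3 × L2C) × unitInterval => pt5 q.1.1 q.1.2 q.2 := by
  refine continuous_prod_of_continuous_lipschitzWith
    (fun q : (C3 × L2C) × unitInterval => pt5 q.1.1 q.1.2 q.2) 2 ?_ ?_
  · intro a
    show Continuous fun t : unitInterval => a.1 + ∫ s in Set.Iic t, a.2 s
    have h0 := pt5_cont_t a.2
    exact Continuous.add continuous_const h0
  · intro t
    refine LipschitzWith.of_dist_le_mul fun a b => ?_
    rw [dist_eq_norm, dist_eq_norm]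
    show ‖(a.1 + ∫ s in Set.Iic t, a.2 s) - (b.1 + ∫ s in Set.Iic t, b.2 s)‖ ≤ _
    have h1 : (a.1 + ∫ s in Set.Iic t, a.2 s) - (b.1 + ∫ s in Set.Iic t, b.2 s)
        = (a.1 - b.1) + ∫ s in Set.Iic t, (a.2 - b.2 : L2C) s := by
      have h2 : ∫ s in Set.Iic t, (a.2 - b.2 : L2C) s
          = (∫ s in Set.Iic t, a.2 s) - ∫ s in Set.Iic t, b.2 s := by
        rw [← integral_sub (pt5_cont_intble a.2).integrableOn (pt5_cont_intble b.2).integrableOn]
        refine integral_congr_ae ?_
        exact ae_restrict_of_ae (Lp.coeFn_sub a.2 b.2)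
      rw [h2]
      abel
    rw [h1]
    have h3 : ‖∫ s in Set.Iic t, (a.2 - b.2 : L2C) s‖ ≤ ‖a.2 - b.2‖ := by
      refine (norm_integral_le_integral_norm _).trans ?_
      refine le_trans ?_ (pt5_cont_norm (a.2 - b.2))
      exact setIntegral_le_integral (pt5_cont_intble (a.2 - b.2)).norm
        (Filter.Eventually.of_forall fun s => norm_nonneg _)
    have h4 : ‖a.1 - b.1‖ ≤ ‖a - b‖ := norm_fst_le (a - b)
    have h5 : ‖a.2 - b.2‖ ≤ ‖a - b‖ := norm_snd_le (a - b)
    calc ‖(a.1 - b.1) + ∫ s in Set.Iic t, (a.2 - b.2 : L2C) s‖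
        ≤ ‖a.1 - b.1‖ + ‖∫ s in Set.Iic t, (a.2 - b.2 : L2C) s‖ := norm_add_le _ _
      _ ≤ ((2 : NNReal) : ℝ) * ‖a - b‖ := by
        have h6 : ((2 : NNReal) : ℝ) = 2 := rfl
        rw [h6]
        linarith

end Pool.Agent.Helper534.LS
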