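import Pool.Agent.Helper534.L5.Defs5
import Pool.Agent.Helper534.L5.P_ci_facts
import Pool.Agent.Helper534.L5.P_mk_hl5

open MeasureTheory

namespace Pool.Agent.Helper534.LS



theorem Psi_exists_nsq_qm (α β : ℂ) (y : ℂ × ℂ) :
    ‖(qm α β y).1‖ ^ 2 + ‖(qm α β y).2‖ ^ 2 =
      (‖α‖ ^ 2 + ‖β‖ ^ 2) * (‖y.1‖ ^ 2 + ‖y.2‖ ^ 2) := by
  simp only [Complex.sq_norm, Complex.normSq_apply, qm, Complex.sub_re, Complex.sub_im,
    Complex.add_re, Complex.add_im, Complex.mul_re, Complex.mul_im, Complex.star_def,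
    Complex.conj_re, Complex.conj_im]
  ring

theorem Psi_exists_A (c s f : ℝ) :
    ‖((c : ℂ) - Complex.I * (f : ℂ) * (s : ℂ))‖ ^ 2 = c ^ 2 + f ^ 2 * s ^ 2 := by
  simp only [Complex.sq_norm, Complex.normSq_apply, Complex.sub_re, Complex.sub_im,
    Complex.mul_re, Complex.mul_im, Complex.I_re, Complex.I_im, Complex.ofReal_re,
    Complex.ofReal_im]
  ring

theorem Psi_exists_nsq (u φ : ℝ) (y : S3) (t : ℝ) : nsq (fPsi u φ y t) = 1 := by
  unfold nsq fPsi mk3
  have h := Psi_exists_nsq_qm (Real.sin u * (Real.cos (2 * Real.pi * t) -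
      Complex.I * Real.cos φ * Real.sin (2 * Real.pi * t)))
    (Real.sin (2 * Real.pi * t) * Real.sin φ) y.1
  rw [y.2, mul_one] at h
  simp only
  rw [h]
  simp only [norm_mul, mul_pow, Circle.norm_coe, Psi_exists_A, Complex.norm_real,
    Real.norm_eq_abs, sq_abs, one_mul]
  have h1 := Real.sin_sq_add_cos_sq u
  have h2 := Real.sin_sq_add_cos_sq φ
  have h3 := Real.sin_sq_add_cos_sq (2 * Real.pi * t)
  generalize Real.sin u = a at *
  generalize Real.cos u = b at *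
  generalize Real.sin φ = c at *
  generalize Real.cos φ = d at *
  generalize Real.sin (2 * Real.pi * t) = e at *
  generalize Real.cos (2 * Real.pi * t) = f at *
  linear_combination (f ^ 2 + d ^ 2 * e ^ 2) * h1 + e ^ 2 * h2 + h3

/-- the velocity -/
noncomputable def PsiExistsV (u φ : ℝ) (y : S3) (t : ℝ) : C3 :=
  mk3 (qm (Real.sin u * (-(2 * Real.pi) * Real.sin (2 * Real.pi * t) -
      Complex.I * Real.cos φ * ((2 * Real.pi) * Real.cos (2 * Real.pi * t))))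
    ((2 * Real.pi) * Real.cos (2 * Real.pi * t) * Real.sin φ) y.1)
    (Real.cos u * ((-(2 * Real.pi) * Real.sin (2 * Real.pi * t) +
      (2 * Real.pi) * Real.cos (2 * Real.pi * t) * Complex.I) * (Real.cos (2 * Real.pi * t) -
      Complex.I * Real.cos φ * Real.sin (2 * Real.pi * t)) +
      (Real.cos (2 * Real.pi * t) + Real.sin (2 * Real.pi * t) * Complex.I) *
      (-(2 * Real.pi) * Real.sin (2 * Real.pi * t) -
      Complex.I * Real.cos φ * ((2 * Real.pi) * Real.cos (2 * Real.pi * t)))))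

theorem Psi_exists_deriv (u φ : ℝ) (y : S3) (t : ℝ) :
    HasDerivAt (fPsi u φ y) (PsiExistsV u φ y t) t := by
  have hlin : HasDerivAt (fun t : ℝ => 2 * Real.pi * t) (2 * Real.pi) t := by
    simpa using (hasDerivAt_id t).const_mul (2 * Real.pi)
  have hC : HasDerivAt (fun t : ℝ => ((Real.cos (2 * Real.pi * t) : ℝ) : ℂ))
      (-(2 * Real.pi) * Real.sin (2 * Real.pi * t)) t := by
    have h := (hlin.cos).ofReal_comp
    convert h using 1
    push_cast
    ring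
  have hS : HasDerivAt (fun t : ℝ => ((Real.sin (2 * Real.pi * t) : ℝ) : ℂ))
      ((2 * Real.pi) * Real.cos (2 * Real.pi * t)) t := by
    have h := (hlin.sin).ofReal_comp
    convert h using 1
    push_cast
    ring
  have hA : HasDerivAt (fun t : ℝ => ((Real.cos (2 * Real.pi * t) : ℝ) : ℂ) -
      Complex.I * Real.cos φ * Real.sin (2 * Real.pi * t))
      (-(2 * Real.pi) * Real.sin (2 * Real.pi * t) -
      Complex.I * Real.cos φ * ((2 * Real.pi) * Real.cos (2 * Real.pi * t))) t :=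
    hC.sub (hS.const_mul (Complex.I * Real.cos φ))
  have hci : HasDerivAt (fun t : ℝ => ((ci t : Circle) : ℂ))
      (-(2 * Real.pi) * Real.sin (2 * Real.pi * t) +
      (2 * Real.pi) * Real.cos (2 * Real.pi * t) * Complex.I) t := by
    have e : (fun t : ℝ => ((ci t : Circle) : ℂ)) = fun t : ℝ =>
        ((Real.cos (2 * Real.pi * t) : ℝ) : ℂ) +
        ((Real.sin (2 * Real.pi * t) : ℝ) : ℂ) * Complex.I := by
      funext s
      exact ci_facts.2.2.2.2.2.2.1 s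
    rw [e]
    exact hC.add (hS.mul_const Complex.I)
  have hα : HasDerivAt (fun t : ℝ => ((Real.sin u : ℝ) : ℂ) *
      (((Real.cos (2 * Real.pi * t) : ℝ) : ℂ) -
      Complex.I * Real.cos φ * Real.sin (2 * Real.pi * t)))
      (Real.sin u * (-(2 * Real.pi) * Real.sin (2 * Real.pi * t) -
      Complex.I * Real.cos φ * ((2 * Real.pi) * Real.cos (2 * Real.pi * t)))) t :=
    hA.const_mul _
  have hβ : HasDerivAt (fun t : ℝ => ((Real.sin (2 * Real.pi * t) : ℝ) : ℂ) *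
      ((Real.sin φ : ℝ) : ℂ)) ((2 * Real.pi) * Real.cos (2 * Real.pi * t) * Real.sin φ) t :=
    hS.mul_const _
  have hz := (hci.mul hA).const_mul ((Real.cos u : ℝ) : ℂ)
  have h1 := (hα.mul_const y.1.1).sub (hβ.mul_const (star y.1.2))
  have h2 := (hα.mul_const y.1.2).add (hβ.mul_const (star y.1.1))
  have h := h1.prodMk (h2.prodMk hz)
  have e : PsiExistsV u φ y t = (
      Real.sin u * (-(2 * Real.pi) * Real.sin (2 * Real.pi * t) -
      Complex.I * Real.cos φ * ((2 * Real.pi) * Real.cos (2 * Real.pi * t))) * y.1.1 -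
      (2 * Real.pi) * Real.cos (2 * Real.pi * t) * Real.sin φ * star y.1.2,
      Real.sin u * (-(2 * Real.pi) * Real.sin (2 * Real.pi * t) -
      Complex.I * Real.cos φ * ((2 * Real.pi) * Real.cos (2 * Real.pi * t))) * y.1.2 +
      (2 * Real.pi) * Real.cos (2 * Real.pi * t) * Real.sin φ * star y.1.1,
      Real.cos u * ((-(2 * Real.pi) * Real.sin (2 * Real.pi * t) +
      (2 * Real.pi) * Real.cos (2 * Real.pi * t) * Complex.I) * (Real.cos (2 * Real.pi * t) -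
      Complex.I * Real.cos φ * Real.sin (2 * Real.pi * t)) +
      ((ci t : Circle) : ℂ) *
      (-(2 * Real.pi) * Real.sin (2 * Real.pi * t) -
      Complex.I * Real.cos φ * ((2 * Real.pi) * Real.cos (2 * Real.pi * t))))) := by
    rw [ci_facts.2.2.2.2.2.2.1 t]
    rfl
  rw [e]
  exact h

theorem Psi_exists_cont : Continuous fun q : ((ℝ × ℝ) × S3) × ℝ =>
    fPsi q.1.1.1 q.1.1.2 q.1.2 q.2 := by
  have h := ci_facts.1
  unfold fPsi mk3 qm
  fun_prop

theorem Psi_exists_contV : Continuous fun q : ((ℝ × ℝ) × S3) × ℝ =>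
    PsiExistsV q.1.1.1 q.1.1.2 q.1.2 q.2 := by
  unfold PsiExistsV mk3 qm
  fun_prop

theorem Psi_exists_locbd {A : Type} [TopologicalSpace A] (V : A → ℝ → C3)
    (hV : Continuous fun q : A × ℝ => V q.1 q.2) (a : A) :
    ∃ C, ∃ U ∈ nhds a, ∀ b ∈ U, ∀ t ∈ Set.Icc (0 : ℝ) 1, ‖V b t‖ ≤ C := by
  have hi : Continuous fun t : ℝ => (a, t) := by fun_prop
  have hc : Continuous fun t : ℝ => V a t := hV.comp hi
  obtain ⟨C0, hC0⟩ := (isCompact_Icc (a := (0 : ℝ)) (b := 1)).exists_bound_of_continuousOn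
    hc.continuousOn
  have hopen : IsOpen {q : A × ℝ | ‖V q.1 q.2‖ < C0 + 1} :=
    isOpen_lt hV.norm continuous_const
  obtain ⟨U, W, hU, hW, haU, hIW, hUW⟩ := generalized_tube_lemma
    (isCompact_singleton (x := a)) (isCompact_Icc (a := (0 : ℝ)) (b := 1)) hopen (by
      rintro ⟨b, t⟩ ⟨hb, ht⟩
      have hb' : b = a := hb
      subst hb'
      exact lt_of_le_of_lt (hC0 t ht) (lt_add_one _))
  refine ⟨C0 + 1, U, hU.mem_nhds (haU rfl), ?_⟩
  intro b hb t ht
  have h : ‖V b t‖ < C0 + 1 := hUW (Set.mk_mem_prod hb (hIW ht))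
  exact h.le

theorem Psi_exists_ends (u φ : ℝ) (y : S3) : fPsi u φ y 0 = fPsi u φ y 1 := by
  have h0 := ci_facts.2.1
  have h1 := ci_facts.2.2.1
  unfold fPsi
  rw [h0, h1, show Real.cos (2 * Real.pi * 0) = 1 by simp, show Real.sin (2 * Real.pi * 0) = 0 by simp,
    show Real.cos (2 * Real.pi * 1) = 1 by simp, show Real.sin (2 * Real.pi * 1) = 0 by simp]

theorem Psi_exists : ∃ F, IsPsi F := by
  have hloc : ∀ a : (ℝ × ℝ) × S3, ∃ C : ℝ, ∃ U ∈ nhds a, ∀ b ∈ U, ∀ t ∈ Set.Icc (0 : ℝ) 1,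
      ‖PsiExistsV b.1.1 b.1.2 b.2 t‖ ≤ C := by
    intro a
    obtain ⟨C, U, hU, h⟩ := Psi_exists_locbd
      (fun (p : (ℝ × ℝ) × S3) (t : ℝ) => PsiExistsV p.1.1 p.1.2 p.2 t) Psi_exists_contV a
    exact ⟨C, U, hU, h⟩
  have hder : ∀ a : (ℝ × ℝ) × S3, ∀ t ∈ Set.Ioo (0 : ℝ) 1, t ∉ (∅ : Finset ℝ) →
      HasDerivAt (fPsi a.1.1 a.1.2 a.2) (PsiExistsV a.1.1 a.1.2 a.2 t) t :=
    fun a t _ _ => Psi_exists_deriv a.1.1 a.1.2 a.2 t
  obtain ⟨f, hf, -⟩ := mk_hl5 (A := (ℝ × ℝ) × S3) (fun p => fPsi p.1.1 p.1.2 p.2)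
    (fun p => PsiExistsV p.1.1 p.1.2 p.2) Psi_exists_cont ∅
    Psi_exists_contV.continuousOn hloc hder
    (fun a t _ => Psi_exists_nsq a.1.1 a.1.2 a.2 t)
    (fun a => Psi_exists_ends a.1.1 a.1.2 a.2)
  exact ⟨f, hf⟩

end Pool.Agent.Helper534.LS
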