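import Pool.Agent.Helper534.L5.Defs5

open MeasureTheory

namespace Pool.Agent.Helper534.LS



theorem pt5_inj (p p' : C3) (v v' : L2C) (h : ∀ t, pt5 p v t = pt5 p' v' t) : p = p' ∧ v = v' := by
  have hIic0 : (Set.Iic (0 : unitInterval)) = {0} := by
    ext x
    simp only [Set.mem_Iic, Set.mem_singleton_iff]
    constructor
    · intro hx
      exact le_antisymm hx (unitInterval.nonneg x : (0 : unitInterval) ≤ x)
    · rintro rfl
      exact le_rfl
  have hz : (volume : Measure unitInterval) (Set.Iic 0) = 0 := by
    rw [hIic0]
    exact measure_singleton 0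
  have hp : p = p' := by
    have h0 := h 0
    unfold pt5 at h0
    rw [setIntegral_measure_zero _ hz, setIntegral_measure_zero _ hz] at h0
    simpa using h0
  subst hp
  refine ⟨rfl, ?_⟩
  have hi : Integrable (fun s => (v : unitInterval → C3) s) volume :=
    (Lp.memLp v).integrable (by norm_num)
  have hi' : Integrable (fun s => (v' : unitInterval → C3) s) volume :=
    (Lp.memLp v').integrable (by norm_num)
  have hd : Integrable (fun s => (v : unitInterval → C3) s - (v' : unitInterval → C3) s) volume :=
    hi.sub hi'
  have hI : ∀ t : unitInterval, ∫ s in Set.Iic t, ((v : unitInterval → C3) s -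
      (v' : unitInterval → C3) s) = 0 := by
    intro t
    rw [integral_sub hi.integrableOn hi'.integrableOn, sub_eq_zero]
    have := h t
    unfold pt5 at this
    exact add_left_cancel this
  have huniv : (Set.Iic (1 : unitInterval)) = Set.univ := by
    ext x
    simp only [Set.mem_Iic, Set.mem_univ, iff_true]
    exact unitInterval.le_one x
  have hall : ∀ s : Set unitInterval, MeasurableSet s → ∫ x in s, ((v : unitInterval → C3) x -
      (v' : unitInterval → C3) x) = 0 := by
    intro s hs
    induction s, hs using MeasurableSpace.induction_on_inter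
      (borel_eq_generateFrom_Iic unitInterval ▸ (BorelSpace.measurable_eq (α := unitInterval))) isPiSystem_Iic with
    | empty => simp
    | basic t ht =>
      obtain ⟨x, rfl⟩ := ht
      exact hI x
    | compl t ht ih =>
      have h1 := integral_add_compl ht hd
      rw [ih, zero_add] at h1
      rw [h1, ← setIntegral_univ, ← huniv]
      exact hI 1
    | iUnion f hdj hf ih =>
      rw [integral_iUnion hf hdj hd.integrableOn]
      simp [ih]
  have hae := hd.ae_eq_zero_of_forall_setIntegral_eq_zero (fun s hs _ => hall s hs)
  apply Lp.ext
  filter_upwards [hae] with x hx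
  exact sub_eq_zero.1 hx

end Pool.Agent.Helper534.LS
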