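import Pool.Agent.Helper534.L5.Defs5
import Pool.Agent.Helper534.L5.P_pt5_inj

open MeasureTheory

namespace Pool.Agent.Helper534.LS



theorem at5_facts_zero (p : C3) (v : L2C) : pt5 p v 0 = p := by
  unfold pt5
  have h : (volume : Measure unitInterval) (Set.Iic (0 : unitInterval)) = 0 := by
    rw [unitInterval.volume_Iic]
    simp
  rw [setIntegral_measure_zero _ h, add_zero]

theorem at5_facts (x : HL5) : (∀ t, nsq (at5 x t) = 1) ∧ at5 x 0 = at5 x 1 ∧ at5 x 0 = x.1.1 ∧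
    (∀ x' : HL5, (∀ t, at5 x t = at5 x' t) → x = x') := by
  have h0 : at5 x 0 = x.1.1 := at5_facts_zero _ _
  refine ⟨x.2.1, ?_, h0, ?_⟩
  · rw [h0]
    exact x.2.2.symm
  · intro x' h
    obtain ⟨h1, h2⟩ := pt5_inj x.1.1 x'.1.1 x.1.2 x'.1.2 h
    exact Subtype.ext (Prod.ext h1 h2)

end Pool.Agent.Helper534.LS
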