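import Pool.Agent.Helper534.L5.Defs5

open MeasureTheory

namespace Pool.Agent.Helper534.LS



theorem hy_cont2 {P Z : Type} [TopologicalSpace P] [TopologicalSpace Z]
    (F : C(P × (ℝ × S3), Z)) (h1 : ∀ p y, F (p, (1, y)) = F (p, (1, y0)))
    (h2 : ∀ p y, F (p, (-1, y)) = F (p, (-1, y0))) :
    Continuous fun q : P × (Circle × S3) => F (q.1, ((q.2.1 : ℂ).re, hy q.2.1 q.2.2)) := by
  have hc : Continuous fun q : P × (Circle × S3) => if (0 : ℝ) ≤ (q.2.1 : ℂ).im then
      F (q.1, ((q.2.1 : ℂ).re, q.2.2)) else F (q.1, ((q.2.1 : ℂ).re, y0)) := by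
    have hcirc : Continuous fun q : P × (Circle × S3) => (q.2.1 : ℂ) :=
      continuous_subtype_val.comp (continuous_fst.comp continuous_snd)
    have hre : Continuous fun q : P × (Circle × S3) => (q.2.1 : ℂ).re :=
      Complex.continuous_re.comp hcirc
    have him : Continuous fun q : P × (Circle × S3) => (q.2.1 : ℂ).im :=
      Complex.continuous_im.comp hcirc
    refine Continuous.if_le ?_ ?_ continuous_const him ?_
    · exact F.continuous.comp (continuous_fst.prodMk
        (hre.prodMk (continuous_snd.comp continuous_snd)))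
    · exact F.continuous.comp (continuous_fst.prodMk (hre.prodMk continuous_const))
    · rintro ⟨p, θ, y⟩ h0
      have him0 : (θ : ℂ).im = 0 := h0.symm
      have hn : Complex.normSq (θ : ℂ) = 1 := Circle.normSq_coe θ
      rw [Complex.normSq_apply, him0] at hn
      have hre1 : (θ : ℂ).re = 1 ∨ (θ : ℂ).re = -1 := by
        have h3 : ((θ : ℂ).re - 1) * ((θ : ℂ).re + 1) = 0 := by linarith
        rcases mul_eq_zero.1 h3 with h | h
        · left; linarith
        · right; linarith
      show F (p, ((θ : ℂ).re, y)) = F (p, ((θ : ℂ).re, y0))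
      rcases hre1 with h | h
      · rw [h]; exact h1 p y
      · rw [h]; exact h2 p y
  refine hc.congr fun q => ?_
  unfold hy
  split_ifs <;> rfl

end Pool.Agent.Helper534.LS
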