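import Pool.Agent.Helper534.L5.Defs5
import Pool.Agent.Helper534.L5.P_at5_facts
import Pool.Agent.Helper534.L5.P_hy_cont2
import Pool.Agent.Helper534.L5.P_Psi_exists

open MeasureTheory

namespace Pool.Agent.Helper534.LS



theorem D1_aux (φ t : ℝ) (y y' : S3) (h : Real.sin φ = 0) : fPsi 0 φ y t = fPsi 0 φ y' t := by
  unfold fPsi
  have e : ∀ z : S3, qm (Real.sin 0 * (Real.cos (2 * Real.pi * t) -
      Complex.I * Real.cos φ * Real.sin (2 * Real.pi * t)))
    (Real.sin (2 * Real.pi * t) * Real.sin φ) z.1 = (0, 0) := by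
    intro z
    rw [h]
    simp [qm]
  rw [e y, e y']

theorem D1_exists : ∃ D1, IsD1 D1 := by
  obtain ⟨Ψ, hΨ⟩ := Psi_exists
  obtain ⟨F, hF⟩ : ∃ F : C(Unit × (ℝ × S3), HL5),
      ∀ q, F q = Ψ ((0, Real.arccos q.2.1), q.2.2) := by
    refine ⟨⟨fun q => Ψ ((0, Real.arccos q.2.1), q.2.2), ?_⟩, fun q => rfl⟩
    refine Ψ.continuous.comp ?_
    refine Continuous.prodMk ?_ (by fun_prop)
    exact Continuous.prodMk continuous_const (Real.continuous_arccos.comp (by fun_prop))
  have hat : ∀ (q : Unit × (ℝ × S3)) (t : unitInterval),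
      at5 (F q) t = fPsi 0 (Real.arccos q.2.1) q.2.2 t := by
    intro q t
    rw [hF]
    exact hΨ ((0, Real.arccos q.2.1), q.2.2) t
  have key : ∀ (r : ℝ) (y y' : S3), Real.sin (Real.arccos r) = 0 →
      F ((), (r, y)) = F ((), (r, y')) := by
    intro r y y' h
    apply (at5_facts (F ((), (r, y)))).2.2.2
    intro t
    rw [hat, hat]
    exact D1_aux _ _ _ _ h
  have hc := hy_cont2 F (fun p y => key 1 y y0 (by rw [Real.arccos_one, Real.sin_zero]))
    (fun p y => key (-1) y y0 (by rw [Real.arccos_neg_one, Real.sin_pi]))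
  have h3 : Continuous fun p : Circle × S3 => (((), p) : Unit × (Circle × S3)) := by fun_prop
  have hc2 := hc.comp h3
  refine ⟨⟨_, hc2⟩, ?_⟩
  intro p t
  exact hat ((), ((p.1 : ℂ).re, hy p.1 p.2)) t

end Pool.Agent.Helper534.LS
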