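import Pool.Agent.Helper534.L5.Defs5
import Pool.Agent.Helper534.L5.P_ci_facts

open MeasureTheory

namespace Pool.Agent.Helper534.LS



theorem fX_facts_ci (t : ℝ) : ((ci t : Circle) : ℂ).re = Real.cos (2 * Real.pi * t) ∧
    ((ci t : Circle) : ℂ).im = Real.sin (2 * Real.pi * t) := by
  have h := ci_facts.2.2.2.2.2.2.1 t
  constructor
  · rw [h]; simp [-Complex.ofReal_cos, -Complex.ofReal_sin]
  · rw [h]; simp [-Complex.ofReal_cos, -Complex.ofReal_sin]

theorem fX_facts_circle (θ : Circle) : (θ : ℂ).re ^ 2 + (θ : ℂ).im ^ 2 = 1 := by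
  have h := Circle.norm_coe θ
  have h2 : Complex.normSq (θ : ℂ) = 1 := by rw [Complex.normSq_eq_norm_sq, h]; norm_num
  rw [Complex.normSq_apply] at h2
  nlinarith

theorem fX_facts_z (θ : Circle) (y : S3) (t : ℝ) :
    (fX θ y t).2.2.re = 1 + (1 - (θ : ℂ).re) / 2 * (Real.cos (2 * Real.pi * t) - 1) ∧
    (fX θ y t).2.2.im = (1 - (θ : ℂ).re) / 2 * Real.sin (2 * Real.pi * t) := by
  have h := fX_facts_ci t
  constructor
  · simp only [fX, mk3, Complex.add_re, Complex.one_re, Complex.re_ofReal_mul, Complex.sub_re]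
    rw [h.1]
  · simp only [fX, mk3, Complex.add_im, Complex.one_im, Complex.im_ofReal_mul, Complex.sub_im]
    rw [h.2]
    ring

theorem fX_facts_w (b : ℝ) (y : S3) :
    ‖(qm 0 (b : ℂ) y.1).1‖ ^ 2 + ‖(qm 0 (b : ℂ) y.1).2‖ ^ 2 = b ^ 2 := by
  have hy := y.2
  have e1 : ‖(qm 0 (b : ℂ) y.1).1‖ = |b| * ‖y.1.2‖ := by
    simp [qm, norm_mul]
  have e2 : ‖(qm 0 (b : ℂ) y.1).2‖ = |b| * ‖y.1.1‖ := by
    simp [qm, norm_mul]
  rw [e1, e2]
  have e3 : (|b| * ‖y.1.2‖) ^ 2 + (|b| * ‖y.1.1‖) ^ 2 = |b| ^ 2 * (‖y.1.1‖ ^ 2 + ‖y.1.2‖ ^ 2) := by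
    ring
  rw [e3, hy, sq_abs, mul_one]

theorem fX_facts_nsq (θ : Circle) (y : S3) (t : ℝ) : nsq (fX θ y t) = 1 := by
  have hz := fX_facts_z θ y t
  have hw := fX_facts_w (Real.sin (Real.pi * t) * |(θ : ℂ).im|) (hy θ y)
  have hc := fX_facts_circle θ
  have e1 : nsq (fX θ y t) = ‖(qm 0 ((Real.sin (Real.pi * t) * |(θ : ℂ).im| : ℝ) : ℂ)
      (hy θ y).1).1‖ ^ 2 + ‖(qm 0 ((Real.sin (Real.pi * t) * |(θ : ℂ).im| : ℝ) : ℂ)
      (hy θ y).1).2‖ ^ 2 + ‖(fX θ y t).2.2‖ ^ 2 := rfl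
  have e2 : ‖(fX θ y t).2.2‖ ^ 2 = (fX θ y t).2.2.re ^ 2 + (fX θ y t).2.2.im ^ 2 := by
    rw [← Complex.normSq_eq_norm_sq, Complex.normSq_apply]; ring
  rw [e1, hw, e2, hz.1, hz.2]
  have hcos : Real.cos (2 * Real.pi * t) = 1 - 2 * Real.sin (Real.pi * t) ^ 2 := by
    have : 2 * Real.pi * t = 2 * (Real.pi * t) := by ring
    rw [this, Real.cos_two_mul]
    have := Real.sin_sq_add_cos_sq (Real.pi * t)
    nlinarith
  have hsin : Real.sin (2 * Real.pi * t) ^ 2 = 1 - Real.cos (2 * Real.pi * t) ^ 2 := by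
    have := Real.sin_sq_add_cos_sq (2 * Real.pi * t)
    linarith
  rw [mul_pow, mul_pow, hsin, sq_abs, hcos]
  have him : (θ : ℂ).im ^ 2 = 1 - (θ : ℂ).re ^ 2 := by linarith
  rw [him]
  ring

theorem fX_facts : (∀ θ y t, nsq (fX θ y t) = 1) ∧ (∀ θ y, fX θ y 0 = (0, 0, 1)) ∧
    (∀ θ y, fX θ y 1 = (0, 0, 1)) ∧ (∀ y t, fX 1 y t = (0, 0, 1)) ∧
    (∀ θ y, fX θ y (1 / 2) = mk3 (qm 0 (|(θ : ℂ).im| : ℝ) (hy θ y).1) ((θ : ℂ).re : ℝ)) ∧
    (∀ θ y t, (fX θ y t).2.2 = Complex.I → ((ci t : Circle) : ℂ) = Complex.I) ∧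
    (∀ θ y t, (fX θ y t).2.2 = -Complex.I → ((ci t : Circle) : ℂ) = -Complex.I) := by
  have hS : Real.sin (Real.pi * (1 / 2)) = 1 := by
    rw [show Real.pi * (1 / 2) = Real.pi / 2 by ring, Real.sin_pi_div_two]
  refine ⟨fX_facts_nsq, ?_, ?_, ?_, ?_, ?_, ?_⟩
  · intro θ y
    simp [fX, mk3, qm, ci_facts.2.1]
  · intro θ y
    simp [fX, mk3, qm, ci_facts.2.2.1]
  · intro y t
    simp [fX, mk3, qm]
  · intro θ y
    have h := ci_facts.2.2.2.1
    unfold fX
    rw [hS, one_mul, h]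
    congr 1
    push_cast
    ring
  · intro θ y t h
    have hz := fX_facts_z θ y t
    rw [h] at hz
    simp only [Complex.I_re, Complex.I_im] at hz
    obtain ⟨h1, h2⟩ := hz
    have hsc := Real.sin_sq_add_cos_sq (2 * Real.pi * t)
    have h3 := fX_facts_ci t
    set C := Real.cos (2 * Real.pi * t)
    set S := Real.sin (2 * Real.pi * t)
    set a := (1 - (θ : ℂ).re) / 2
    have ha : a ≠ 0 := by rintro h0; rw [h0] at h2; norm_num at h2
    have h4 : 1 - C = S := by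
      apply mul_left_cancel₀ ha
      linarith
    have hS0 : S ≠ 0 := by rintro h0; rw [h0] at h2; norm_num at h2
    have h5 : S * (S - 1) = 0 := by
      have : C = 1 - S := by linarith
      rw [this] at hsc
      nlinarith
    have h6 : S = 1 := by
      rcases mul_eq_zero.1 h5 with h | h
      · exact absurd h hS0
      · linarith
    apply Complex.ext
    · rw [h3.1, Complex.I_re]; linarith
    · rw [h3.2, Complex.I_im]; exact h6
  · intro θ y t h
    have hz := fX_facts_z θ y t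
    rw [h] at hz
    simp only [Complex.neg_re, Complex.neg_im, Complex.I_re, Complex.I_im] at hz
    obtain ⟨h1, h2⟩ := hz
    have hsc := Real.sin_sq_add_cos_sq (2 * Real.pi * t)
    have h3 := fX_facts_ci t
    set C := Real.cos (2 * Real.pi * t)
    set S := Real.sin (2 * Real.pi * t)
    set a := (1 - (θ : ℂ).re) / 2
    have ha : a ≠ 0 := by rintro h0; rw [h0] at h2; norm_num at h2
    have h4 : 1 - C = -S := by
      apply mul_left_cancel₀ ha
      linarith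
    have hS0 : S ≠ 0 := by rintro h0; rw [h0] at h2; norm_num at h2
    have h5 : S * (S + 1) = 0 := by
      have : C = 1 + S := by linarith
      rw [this] at hsc
      nlinarith
    have h6 : S = -1 := by
      rcases mul_eq_zero.1 h5 with h | h
      · exact absurd h hS0
      · linarith
    apply Complex.ext
    · rw [h3.1, Complex.neg_re, Complex.I_re]; linarith
    · rw [h3.2, Complex.neg_im, Complex.I_im]; exact h6

end Pool.Agent.Helper534.LS
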