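import Pool.Agent.Helper534.L5.Defs5
import Pool.Agent.Helper534.L5.P_ci_facts
import Pool.Agent.Helper534.L5.P_fX_facts
import Pool.Agent.Helper534.L5.P_at5_facts
import Pool.Agent.Helper534.L5.P_mk_hl5
import Pool.Agent.Helper534.L5.P_hy_cont2

open MeasureTheory

namespace Pool.Agent.Helper534.LS



/-- clamping to `[-1, 1]` -/
noncomputable def D1_homotopic_cl (c : ℝ) : ℝ := max (-1) (min 1 c)

/-- `√(1 - c²)` -/
noncomputable def D1_homotopic_s (c : ℝ) : ℝ := Real.sqrt (1 - D1_homotopic_cl c ^ 2)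

/-- the phase -/
noncomputable def D1_homotopic_rho (r t : ℝ) : ℂ :=
  if t ≤ 1 / 2 then 1 else -Complex.exp ((Real.pi * r : ℝ) * Complex.I)

/-- the homotopy -/
noncomputable def D1_homotopic_F (a : unitInterval × (ℝ × S3)) (t : ℝ) : C3 :=
  mk3 (qm 0 (D1_homotopic_rho a.1 t * ((Real.sin (2 * Real.pi * t) : ℝ) : ℂ) *
      ((D1_homotopic_s a.2.1 : ℝ) : ℂ)) a.2.2.1)
    (1 + ((1 - D1_homotopic_cl a.2.1) / 2 : ℝ) * ((ci (2 * t) : ℂ) - 1))

/-- its velocity -/
noncomputable def D1_homotopic_V (a : unitInterval × (ℝ × S3)) (t : ℝ) : C3 :=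
  mk3 (qm 0 (D1_homotopic_rho a.1 t * ((2 * Real.pi * Real.cos (2 * Real.pi * t) : ℝ) : ℂ) *
      ((D1_homotopic_s a.2.1 : ℝ) : ℂ)) a.2.2.1)
    (((1 - D1_homotopic_cl a.2.1) / 2 : ℝ) * ((ci (2 * t) : ℂ) *
      ((4 * Real.pi : ℝ) * Complex.I)))

theorem D1_homotopic_cl_mem (c : ℝ) : -1 ≤ D1_homotopic_cl c ∧ D1_homotopic_cl c ≤ 1 := by
  unfold D1_homotopic_cl
  constructor
  · exact le_max_left _ _
  · exact max_le (by norm_num) (min_le_left _ _)

theorem D1_homotopic_cl_eq (c : ℝ) (h1 : -1 ≤ c) (h2 : c ≤ 1) : D1_homotopic_cl c = c := by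
  unfold D1_homotopic_cl
  rw [min_eq_right h2, max_eq_right h1]

theorem D1_homotopic_cl_cont : Continuous D1_homotopic_cl := by
  unfold D1_homotopic_cl
  fun_prop

theorem D1_homotopic_s_cont : Continuous D1_homotopic_s := by
  unfold D1_homotopic_s
  have := D1_homotopic_cl_cont
  fun_prop

theorem D1_homotopic_s_sq (c : ℝ) : D1_homotopic_s c ^ 2 = 1 - D1_homotopic_cl c ^ 2 := by
  unfold D1_homotopic_s
  have := D1_homotopic_cl_mem c
  rw [Real.sq_sqrt]
  nlinarith [this.1, this.2]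

theorem D1_homotopic_s_nonneg (c : ℝ) : 0 ≤ D1_homotopic_s c := Real.sqrt_nonneg _

theorem D1_homotopic_s_le (c : ℝ) : D1_homotopic_s c ≤ 1 := by
  have h1 := D1_homotopic_s_sq c
  have h2 := D1_homotopic_s_nonneg c
  nlinarith [sq_nonneg (D1_homotopic_cl c)]

theorem D1_homotopic_rho_norm (r t : ℝ) : ‖D1_homotopic_rho r t‖ = 1 := by
  unfold D1_homotopic_rho
  split_ifs with h
  · simp
  · rw [norm_neg, Complex.norm_exp_ofReal_mul_I]

theorem D1_homotopic_ci (t : ℝ) : (ci t : ℂ) = Complex.exp ((2 * Real.pi * t : ℝ) * Complex.I) := by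
  unfold ci
  rw [Circle.coe_exp]

theorem D1_homotopic_nsq (a : unitInterval × (ℝ × S3)) (t : ℝ) : nsq (D1_homotopic_F a t) = 1 := by
  obtain ⟨r, c, y, hy⟩ := a
  have hs := D1_homotopic_s_sq c
  have hρ := D1_homotopic_rho_norm r t
  have hci : (ci (2 * t) : ℂ) = ((1 - 2 * Real.sin (2 * Real.pi * t) ^ 2 : ℝ) : ℂ) +
      ((2 * Real.sin (2 * Real.pi * t) * Real.cos (2 * Real.pi * t) : ℝ) : ℂ) * Complex.I := by
    rw [D1_homotopic_ci, Complex.exp_mul_I, ← Complex.ofReal_cos, ← Complex.ofReal_sin,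
      show 2 * Real.pi * (2 * t) = 2 * (2 * Real.pi * t) by ring, Real.cos_two_mul,
      Real.sin_two_mul]
    congr 2
    have := Real.sin_sq_add_cos_sq (2 * Real.pi * t)
    linarith
  have hsc := Real.sin_sq_add_cos_sq (2 * Real.pi * t)
  unfold D1_homotopic_F mk3 qm nsq
  simp only
  set S := Real.sin (2 * Real.pi * t)
  set C := Real.cos (2 * Real.pi * t)
  set s := D1_homotopic_s c
  set k := D1_homotopic_cl c
  have h3 : ‖(1 : ℂ) + ((1 - k) / 2 : ℝ) * ((ci (2 * t) : ℂ) - 1)‖ ^ 2 =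
      1 - S ^ 2 * s ^ 2 := by
    have hn : ∀ a P Q : ℝ, ‖(1 : ℂ) + (a : ℂ) * ((P : ℂ) + (Q : ℂ) * Complex.I - 1)‖ ^ 2 =
        (1 + a * (P - 1)) ^ 2 + (a * Q) ^ 2 := by
      intro a P Q
      rw [← Complex.normSq_eq_norm_sq, Complex.normSq_apply]
      simp
      ring
    rw [hci, hn, hs]
    have hC : C ^ 2 = 1 - S ^ 2 := by linarith
    ring_nf
    rw [hC]
    ring
  rw [h3]
  simp only [zero_mul, zero_sub, zero_add, norm_neg, norm_mul, hρ, norm_star, one_mul,
    Complex.norm_real, Real.norm_eq_abs]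
  have : (|S| * |s| * ‖y.2‖) ^ 2 + (|S| * |s| * ‖y.1‖) ^ 2 = S ^ 2 * s ^ 2 * (‖y.1‖ ^ 2 + ‖y.2‖ ^ 2) := by
    rw [mul_pow, mul_pow, mul_pow, mul_pow, sq_abs, sq_abs]
    ring
  rw [this, hy]
  ring

theorem D1_homotopic_beta_cont : Continuous fun q : (unitInterval × (ℝ × S3)) × ℝ =>
    D1_homotopic_rho q.1.1 q.2 * ((Real.sin (2 * Real.pi * q.2) : ℝ) : ℂ) := by
  have h : (fun q : (unitInterval × (ℝ × S3)) × ℝ =>
    D1_homotopic_rho q.1.1 q.2 * ((Real.sin (2 * Real.pi * q.2) : ℝ) : ℂ)) =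
    fun q : (unitInterval × (ℝ × S3)) × ℝ => if q.2 ≤ 1 / 2 then
      ((Real.sin (2 * Real.pi * q.2) : ℝ) : ℂ) else
      -Complex.exp ((Real.pi * q.1.1 : ℝ) * Complex.I) *
        ((Real.sin (2 * Real.pi * q.2) : ℝ) : ℂ) := by
    funext q
    unfold D1_homotopic_rho
    split_ifs <;> simp
  rw [h]
  apply Continuous.if_le
  · fun_prop
  · fun_prop
  · fun_prop
  · fun_prop
  · intro x hx
    rw [hx, show 2 * Real.pi * (1 / 2) = Real.pi by ring, Real.sin_pi]
    simp

theorem D1_homotopic_ci_cont : Continuous fun t : ℝ => (ci (2 * t) : ℂ) := by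
  have : (fun t : ℝ => (ci (2 * t) : ℂ)) = fun t : ℝ =>
      Complex.exp ((2 * Real.pi * (2 * t) : ℝ) * Complex.I) := by
    funext t
    exact D1_homotopic_ci _
  rw [this]
  fun_prop

theorem D1_homotopic_F_cont : Continuous fun q : (unitInterval × (ℝ × S3)) × ℝ =>
    D1_homotopic_F q.1 q.2 := by
  have h1 := D1_homotopic_beta_cont
  have h2 := D1_homotopic_ci_cont
  have h3 := D1_homotopic_s_cont
  have h4 := D1_homotopic_cl_cont
  have h2' : Continuous fun q : (unitInterval × (ℝ × S3)) × ℝ => (ci (2 * q.2) : ℂ) :=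
    h2.comp continuous_snd
  have h3' : Continuous fun q : (unitInterval × (ℝ × S3)) × ℝ => ((D1_homotopic_s q.1.2.1 : ℝ) : ℂ) :=
    Complex.continuous_ofReal.comp (h3.comp (by fun_prop))
  have h4' : Continuous fun q : (unitInterval × (ℝ × S3)) × ℝ => D1_homotopic_cl q.1.2.1 :=
    h4.comp (by fun_prop)
  unfold D1_homotopic_F mk3 qm
  simp only [zero_mul, zero_sub, zero_add]
  refine Continuous.prodMk ?_ (Continuous.prodMk ?_ ?_)
  · exact ((h1.mul h3').mul (by fun_prop)).neg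
  · exact (h1.mul h3').mul (by fun_prop)
  · refine continuous_const.add (Continuous.mul ?_ (h2'.sub continuous_const))
    exact Complex.continuous_ofReal.comp (by fun_prop)

theorem D1_homotopic_rho_ev (q : (unitInterval × (ℝ × S3)) × ℝ) (hq : q.2 ≠ 1 / 2) :
    ContinuousAt (fun q : (unitInterval × (ℝ × S3)) × ℝ => D1_homotopic_rho q.1.1 q.2) q := by
  rcases lt_or_gt_of_ne hq with h | h
  · have hev : ∀ᶠ q' : (unitInterval × (ℝ × S3)) × ℝ in nhds q, q'.2 < 1 / 2 :=
      continuous_snd.continuousAt.eventually (gt_mem_nhds h)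
    have : (fun q : (unitInterval × (ℝ × S3)) × ℝ => D1_homotopic_rho q.1.1 q.2) =ᶠ[nhds q]
        fun _ => 1 := by
      filter_upwards [hev] with q' hq'
      unfold D1_homotopic_rho
      rw [if_pos hq'.le]
    exact (continuousAt_const (y := (1 : ℂ))).congr this.symm
  · have hev : ∀ᶠ q' : (unitInterval × (ℝ × S3)) × ℝ in nhds q, 1 / 2 < q'.2 :=
      continuous_snd.continuousAt.eventually (lt_mem_nhds h)
    have : (fun q : (unitInterval × (ℝ × S3)) × ℝ => D1_homotopic_rho q.1.1 q.2) =ᶠ[nhds q]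
        fun q => -Complex.exp ((Real.pi * q.1.1 : ℝ) * Complex.I) := by
      filter_upwards [hev] with q' hq'
      unfold D1_homotopic_rho
      rw [if_neg (not_le.mpr hq')]
    refine ContinuousAt.congr ?_ this.symm
    apply Continuous.continuousAt
    fun_prop

theorem D1_homotopic_V_cont : ContinuousOn (fun q : (unitInterval × (ℝ × S3)) × ℝ =>
    D1_homotopic_V q.1 q.2) {q | q.2 ∉ ({1 / 2} : Finset ℝ)} := by
  intro q hq
  have hq' : q.2 ≠ 1 / 2 := by
    simpa using hq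
  apply ContinuousAt.continuousWithinAt
  have h1 := D1_homotopic_rho_ev q hq'
  have h2 := D1_homotopic_ci_cont
  have h3 := D1_homotopic_s_cont
  have h4 := D1_homotopic_cl_cont
  have h2' : Continuous fun q : (unitInterval × (ℝ × S3)) × ℝ => (ci (2 * q.2) : ℂ) :=
    h2.comp continuous_snd
  have h3' : Continuous fun q : (unitInterval × (ℝ × S3)) × ℝ => ((D1_homotopic_s q.1.2.1 : ℝ) : ℂ) :=
    Complex.continuous_ofReal.comp (h3.comp (by fun_prop))
  have h4' : Continuous fun q : (unitInterval × (ℝ × S3)) × ℝ => D1_homotopic_cl q.1.2.1 :=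
    h4.comp (by fun_prop)
  have h5 : Continuous fun q : (unitInterval × (ℝ × S3)) × ℝ =>
      ((2 * Real.pi * Real.cos (2 * Real.pi * q.2) : ℝ) : ℂ) := by fun_prop
  unfold D1_homotopic_V mk3 qm
  simp only [zero_mul, zero_sub, zero_add]
  refine ContinuousAt.prodMk ?_ (ContinuousAt.prodMk ?_ ?_)
  · exact (((h1.mul h5.continuousAt).mul h3'.continuousAt).mul
      (Continuous.continuousAt (by fun_prop))).neg
  · exact ((h1.mul h5.continuousAt).mul h3'.continuousAt).mul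
      (Continuous.continuousAt (by fun_prop))
  · apply Continuous.continuousAt
    refine Continuous.mul ?_ (h2'.mul continuous_const)
    exact Complex.continuous_ofReal.comp (by fun_prop)

theorem D1_homotopic_V_bd (a : unitInterval × (ℝ × S3)) (t : ℝ) :
    ‖D1_homotopic_V a t‖ ≤ 4 * Real.pi := by
  obtain ⟨r, c, y, hy⟩ := a
  have hρ := D1_homotopic_rho_norm r t
  have hs0 := D1_homotopic_s_nonneg c
  have hs1 := D1_homotopic_s_le c
  have hk := D1_homotopic_cl_mem c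
  have hpi := Real.pi_pos
  have hy1 : ‖y.1‖ ≤ 1 := by nlinarith [norm_nonneg y.1, sq_nonneg ‖y.2‖]
  have hy2 : ‖y.2‖ ≤ 1 := by nlinarith [norm_nonneg y.2, sq_nonneg ‖y.1‖]
  have hcos : |Real.cos (2 * Real.pi * t)| ≤ 1 := Real.abs_cos_le_one _
  have key : ∀ z : ℂ, ‖z‖ ≤ 1 → ‖D1_homotopic_rho r t *
      ((2 * Real.pi * Real.cos (2 * Real.pi * t) : ℝ) : ℂ) *
      ((D1_homotopic_s c : ℝ) : ℂ) * star z‖ ≤ 4 * Real.pi := by
    intro z hz
    rw [norm_mul, norm_mul, norm_mul, hρ, norm_star, Complex.norm_real, Complex.norm_real,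
      Real.norm_eq_abs, Real.norm_eq_abs, abs_of_nonneg hs0, abs_mul, abs_of_pos (by positivity :
        (0 : ℝ) < 2 * Real.pi), one_mul]
    calc 2 * Real.pi * |Real.cos (2 * Real.pi * t)| * D1_homotopic_s c * ‖z‖
        ≤ 2 * Real.pi * 1 * 1 * 1 := by gcongr
      _ ≤ 4 * Real.pi := by linarith
  unfold D1_homotopic_V mk3 qm
  simp only [zero_mul, zero_sub, zero_add]
  refine norm_prod_le_iff.mpr ⟨?_, norm_prod_le_iff.mpr ⟨?_, ?_⟩⟩
  · simp only
    rw [norm_neg]
    exact key y.2 hy2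
  · exact key y.1 hy1
  · simp only
    rw [norm_mul, norm_mul, norm_mul, Complex.norm_real, Complex.norm_real, Circle.norm_coe,
      Complex.norm_I, Real.norm_eq_abs, Real.norm_eq_abs, abs_of_pos (by positivity :
        (0 : ℝ) < 4 * Real.pi), abs_of_nonneg (by linarith)]
    nlinarith

theorem D1_homotopic_deriv (a : unitInterval × (ℝ × S3)) (t : ℝ) (ht : t ≠ 1 / 2) :
    HasDerivAt (D1_homotopic_F a) (D1_homotopic_V a t) t := by
  obtain ⟨r, c, y, hy⟩ := a
  have hev : ∀ᶠ t' in nhds t, D1_homotopic_rho r t' = D1_homotopic_rho r t := by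
    rcases lt_or_gt_of_ne ht with h | h
    · filter_upwards [gt_mem_nhds h] with t' ht'
      unfold D1_homotopic_rho
      rw [if_pos ht'.le, if_pos h.le]
    · filter_upwards [lt_mem_nhds h] with t' ht'
      unfold D1_homotopic_rho
      rw [if_neg (not_le.mpr ht'), if_neg (not_le.mpr h)]
  obtain ⟨ρ, hρ⟩ : ∃ ρ, ρ = D1_homotopic_rho r t := ⟨_, rfl⟩
  have hF : D1_homotopic_F (r, c, ⟨y, hy⟩) =ᶠ[nhds t] fun t' =>
      mk3 (qm 0 (ρ * ((Real.sin (2 * Real.pi * t') : ℝ) : ℂ) *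
      ((D1_homotopic_s c : ℝ) : ℂ)) y)
      (1 + ((1 - D1_homotopic_cl c) / 2 : ℝ) * ((ci (2 * t') : ℂ) - 1)) := by
    filter_upwards [hev] with t' ht'
    unfold D1_homotopic_F
    simp only
    rw [ht', hρ]
  refine HasDerivAt.congr_of_eventuallyEq ?_ hF
  unfold D1_homotopic_V mk3 qm
  simp only [zero_mul, zero_sub, zero_add]
  rw [← hρ]
  have hsin : HasDerivAt (fun t' : ℝ => ((Real.sin (2 * Real.pi * t') : ℝ) : ℂ))
      ((2 * Real.pi * Real.cos (2 * Real.pi * t) : ℝ) : ℂ) t := by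
    have h1 : HasDerivAt (fun t' : ℝ => 2 * Real.pi * t') (2 * Real.pi) t := by
      simpa using (hasDerivAt_id t).const_mul (2 * Real.pi)
    have h2 := h1.sin.ofReal_comp
    refine h2.congr_deriv ?_
    push_cast
    ring
  have hci : HasDerivAt (fun t' : ℝ => (ci (2 * t') : ℂ)) ((ci (2 * t) : ℂ) *
      ((4 * Real.pi : ℝ) * Complex.I)) t := by
    have h0 : (fun t' : ℝ => (ci (2 * t') : ℂ)) = fun t' : ℝ =>
        Complex.exp ((2 * Real.pi * (2 * t') : ℝ) * Complex.I) := by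
      funext t
      exact D1_homotopic_ci _
    rw [h0, D1_homotopic_ci]
    have h1 : HasDerivAt (fun t' : ℝ => 2 * Real.pi * (2 * t')) (4 * Real.pi) t := by
      refine (((hasDerivAt_id t).const_mul 2).const_mul (2 * Real.pi)).congr_deriv ?_
      ring
    have h2 := (h1.ofReal_comp.mul_const Complex.I).cexp
    exact h2
  refine HasDerivAt.prodMk ?_ (HasDerivAt.prodMk ?_ ?_)
  · exact ((((hsin.const_mul ρ).mul_const _)).mul_const _).neg
  · exact ((((hsin.const_mul ρ).mul_const _)).mul_const _)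
  · exact ((hci.sub_const 1).const_mul _).const_add 1

theorem D1_homotopic_loop (a : unitInterval × (ℝ × S3)) :
    D1_homotopic_F a 0 = D1_homotopic_F a 1 := by
  unfold D1_homotopic_F
  have h1 : (ci (2 * 0) : ℂ) = 1 := by
    rw [D1_homotopic_ci]
    simp
  have h2 : (ci (2 * 1) : ℂ) = 1 := by
    rw [D1_homotopic_ci]
    rw [show ((2 * Real.pi * (2 * 1) : ℝ) : ℂ) * Complex.I = (2 : ℤ) * (2 * Real.pi * Complex.I) by
      push_cast
      ring]
    exact Complex.exp_int_mul_two_pi_mul_I 2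
  rw [h1, h2]
  have h3 : Real.sin (2 * Real.pi * 1) = 0 := by
    rw [mul_one]
    exact Real.sin_two_pi
  rw [h3]
  simp

theorem D1_homotopic (D) (hD : IsDb D) (D1) (hD1 : IsD1 D1) : D.Homotopic D1 := by
  obtain ⟨f, hf, -⟩ := mk_hl5 D1_homotopic_F D1_homotopic_V D1_homotopic_F_cont {1 / 2}
    D1_homotopic_V_cont
    (fun a => ⟨4 * Real.pi, Set.univ, Filter.univ_mem, fun b _ t _ => D1_homotopic_V_bd b t⟩)
    (fun a t _ ht => D1_homotopic_deriv a t (by simpa using ht))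
    (fun a t _ => D1_homotopic_nsq a t) D1_homotopic_loop
  have hs1 : D1_homotopic_s 1 = 0 := by
    unfold D1_homotopic_s
    rw [D1_homotopic_cl_eq 1 (by norm_num) le_rfl]
    norm_num
  have hs2 : D1_homotopic_s (-1) = 0 := by
    unfold D1_homotopic_s
    rw [D1_homotopic_cl_eq (-1) le_rfl (by norm_num)]
    norm_num
  have hcont := hy_cont2 f (by
    intro p y
    apply (at5_facts _).2.2.2
    intro t
    rw [hf, hf]
    unfold D1_homotopic_F
    simp only
    rw [hs1]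
    simp [qm]) (by
    intro p y
    apply (at5_facts _).2.2.2
    intro t
    rw [hf, hf]
    unfold D1_homotopic_F
    simp only
    rw [hs2]
    simp [qm])
  have hre : ∀ θ : Circle, -1 ≤ (θ : ℂ).re ∧ (θ : ℂ).re ≤ 1 := by
    intro θ
    have h1 := Complex.abs_re_le_norm (θ : ℂ)
    rw [Circle.norm_coe] at h1
    exact abs_le.mp h1
  have him : ∀ θ : Circle, D1_homotopic_s (θ : ℂ).re = |(θ : ℂ).im| := by
    intro θ
    unfold D1_homotopic_s
    rw [D1_homotopic_cl_eq _ (hre θ).1 (hre θ).2]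
    have h1 := Circle.normSq_coe θ
    rw [Complex.normSq_apply] at h1
    rw [show 1 - (θ : ℂ).re ^ 2 = (θ : ℂ).im ^ 2 by linarith [sq ((θ : ℂ).re), sq ((θ : ℂ).im)]]
    exact Real.sqrt_sq_eq_abs _
  refine ⟨⟨⟨_, hcont⟩, ?_, ?_⟩⟩
  · rintro ⟨θ, y⟩
    apply (at5_facts _).2.2.2
    intro t
    change at5 (f (0, ((θ : ℂ).re, hy θ y))) t = _
    rw [hf, hD]
    unfold D1_homotopic_F fX
    simp only
    rw [him, D1_homotopic_cl_eq _ (hre θ).1 (hre θ).2]
    unfold D1_homotopic_rho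
    split_ifs with ht
    · rw [one_mul]
      rw [show Real.pi * (2 * (t : ℝ)) = 2 * Real.pi * t by ring]
      push_cast
      rfl
    · have h1 : Real.sin (Real.pi * (2 * (t : ℝ) - 1)) = - Real.sin (2 * Real.pi * t) := by
        rw [show Real.pi * (2 * (t : ℝ) - 1) = 2 * Real.pi * t - Real.pi by ring, Real.sin_sub_pi]
      have h2 : (ci (2 * (t : ℝ) - 1) : ℂ) = ci (2 * (t : ℝ)) := by
        rw [D1_homotopic_ci, D1_homotopic_ci]
        rw [show ((2 * Real.pi * (2 * (t : ℝ) - 1) : ℝ) : ℂ) * Complex.I =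
          ((2 * Real.pi * (2 * (t : ℝ)) : ℝ) : ℂ) * Complex.I - 2 * Real.pi * Complex.I by
          push_cast
          ring]
        rw [Complex.exp_sub, Complex.exp_two_pi_mul_I, div_one]
      rw [h1, h2]
      simp
  · rintro ⟨θ, y⟩
    apply (at5_facts _).2.2.2
    intro t
    change at5 (f (1, ((θ : ℂ).re, hy θ y))) t = _
    rw [hf, hD1]
    unfold D1_homotopic_F fPsi
    simp only
    rw [Real.sin_arccos, Real.cos_arccos (hre θ).1 (hre θ).2, Real.sin_zero, Real.cos_zero]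
    have hρ : D1_homotopic_rho ((1 : unitInterval) : ℝ) t = 1 := by
      unfold D1_homotopic_rho
      split_ifs with h
      · rfl
      · simp
    rw [hρ]
    unfold D1_homotopic_s
    rw [D1_homotopic_cl_eq _ (hre θ).1 (hre θ).2]
    have hci : (ci (2 * (t : ℝ)) : ℂ) = (ci (t : ℝ) : ℂ) ^ 2 := by
      rw [D1_homotopic_ci, D1_homotopic_ci, ← Complex.exp_nat_mul]
      congr 1
      push_cast
      ring
    have hci2 := (ci_facts).2.2.2.2.2.2.1 (t : ℝ)
    rw [hci, hci2]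
    have hsc : (Real.sin (2 * Real.pi * t) : ℂ) ^ 2 + (Real.cos (2 * Real.pi * t) : ℂ) ^ 2 = 1 := by
      exact_mod_cast Real.sin_sq_add_cos_sq (2 * Real.pi * t)
    have hI := Complex.I_sq
    congr 1
    · congr 1
      · simp
      · simp
    · push_cast at hsc ⊢
      linear_combination (-(((θ : ℂ).re : ℂ) + 1) / 2) * hsc + (((θ : ℂ).re : ℂ) + 1) / 2 *
        Complex.sin (2 * ↑Real.pi * ↑↑t) ^ 2 * hI

end Pool.Agent.Helper534.LS
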