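import Pool.Agent.Helper534.L5.Defs5
import Pool.Agent.Helper534.L5.P_ci_facts
import Pool.Agent.Helper534.L5.P_fX_facts
import Pool.Agent.Helper534.L5.P_at5_facts
import Pool.Agent.Helper534.L5.P_mk_hl5
import Pool.Agent.Helper534.L5.P_hy_cont2

open MeasureTheory

namespace Pool.Agent.Helper534.LS



noncomputable def G3_homotopic_g (q : Circle × S3) : ℂ × ℂ :=
  (((|(q.1 : ℂ).im| : ℝ) : ℂ) * (hy q.1 q.2).1.1, ((|(q.1 : ℂ).im| : ℝ) : ℂ) * (hy q.1 q.2).1.2)

noncomputable def G3_homotopic_c (q : Circle × S3) : ℝ := (1 - (q.1 : ℂ).re) / 2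

noncomputable def G3_homotopic_P (w : ℂ × ℂ) (c t : ℝ) : C3 :=
  (-(((Real.sin (Real.pi * t) : ℝ) : ℂ) * star w.2), ((Real.sin (Real.pi * t) : ℝ) : ℂ) * star w.1,
    1 + (c : ℂ) * (Complex.exp (((2 * Real.pi * t : ℝ) : ℂ) * Complex.I) - 1))

noncomputable def G3_homotopic_D (w : ℂ × ℂ) (c t : ℝ) : C3 :=
  (-(((Real.cos (Real.pi * t) * Real.pi : ℝ) : ℂ) * star w.2),
    ((Real.cos (Real.pi * t) * Real.pi : ℝ) : ℂ) * star w.1,
    (c : ℂ) * (Complex.exp (((2 * Real.pi * t : ℝ) : ℂ) * Complex.I) *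
      (((2 * Real.pi : ℝ) : ℂ) * Complex.I)))

noncomputable def G3_homotopic_f (r t : ℝ) : ℝ := (1 - r) * max 0 (2 * t - 1) + r * t

open Classical in
noncomputable def G3_homotopic_h (t : ℝ) : ℝ := if t < 1 / 2 then 0 else 1

theorem G3_homotopic_fX (θ : Circle) (y : S3) (t : ℝ) :
    fX θ y t = G3_homotopic_P (G3_homotopic_g (θ, y)) (G3_homotopic_c (θ, y)) t := by
  unfold fX mk3 qm G3_homotopic_P G3_homotopic_g G3_homotopic_c ci
  refine Prod.ext ?_ (Prod.ext ?_ ?_)
  · show (0 : ℂ) * (hy θ y).1.1 - ((Real.sin (Real.pi * t) * |(θ : ℂ).im| : ℝ) : ℂ) *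
        star (hy θ y).1.2
      = -(((Real.sin (Real.pi * t) : ℝ) : ℂ) * star (((|(θ : ℂ).im| : ℝ) : ℂ) * (hy θ y).1.2))
    rw [star_mul', Complex.star_def, Complex.conj_ofReal, Complex.ofReal_mul]
    ring
  · show (0 : ℂ) * (hy θ y).1.2 + ((Real.sin (Real.pi * t) * |(θ : ℂ).im| : ℝ) : ℂ) *
        star (hy θ y).1.1
      = ((Real.sin (Real.pi * t) : ℝ) : ℂ) * star (((|(θ : ℂ).im| : ℝ) : ℂ) * (hy θ y).1.1)
    rw [star_mul', Complex.star_def, Complex.conj_ofReal, Complex.ofReal_mul]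
    ring
  · rfl

theorem G3_homotopic_im (q : Circle) : |(q : ℂ).im| ≤ 1 := by
  have h := Complex.abs_im_le_norm (q : ℂ)
  rwa [Circle.norm_coe] at h

theorem G3_homotopic_re (q : Circle) : |(q : ℂ).re| ≤ 1 := by
  have h := Complex.abs_re_le_norm (q : ℂ)
  rwa [Circle.norm_coe] at h

theorem G3_homotopic_s3 (y : S3) : ‖y.1.1‖ ≤ 1 ∧ ‖y.1.2‖ ≤ 1 := by
  have h := y.2
  constructor
  · nlinarith [sq_nonneg ‖y.1.2‖, norm_nonneg y.1.1]
  · nlinarith [sq_nonneg ‖y.1.1‖, norm_nonneg y.1.2]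

theorem G3_homotopic_gb (q : Circle × S3) :
    ‖(G3_homotopic_g q).1‖ ≤ 1 ∧ ‖(G3_homotopic_g q).2‖ ≤ 1 := by
  have h1 := G3_homotopic_im q.1
  obtain ⟨h2, h3⟩ := G3_homotopic_s3 (hy q.1 q.2)
  constructor
  · show ‖((|(q.1 : ℂ).im| : ℝ) : ℂ) * (hy q.1 q.2).1.1‖ ≤ 1
    rw [norm_mul, Complex.norm_real, Real.norm_eq_abs, abs_abs]
    exact mul_le_one₀ h1 (norm_nonneg _) h2
  · show ‖((|(q.1 : ℂ).im| : ℝ) : ℂ) * (hy q.1 q.2).1.2‖ ≤ 1
    rw [norm_mul, Complex.norm_real, Real.norm_eq_abs, abs_abs]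
    exact mul_le_one₀ h1 (norm_nonneg _) h3

theorem G3_homotopic_gcont : Continuous G3_homotopic_g := by
  have him : Continuous (fun q : Circle × S3 => (q.1 : ℂ).im) :=
    Complex.continuous_im.comp (continuous_subtype_val.comp continuous_fst)
  have h1 : Continuous (fun q : Circle × S3 =>
      ((((q.1 : ℂ).im : ℝ) : ℂ) * q.2.1.1, (((q.1 : ℂ).im : ℝ) : ℂ) * q.2.1.2)) := by
    have h2 : Continuous (fun q : Circle × S3 => q.2.1) :=
      continuous_subtype_val.comp continuous_snd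
    exact ((Complex.continuous_ofReal.comp him).mul (continuous_fst.comp h2)).prodMk
      ((Complex.continuous_ofReal.comp him).mul (continuous_snd.comp h2))
  have h3 : Continuous (fun q : Circle × S3 =>
      ((((-(q.1 : ℂ).im) : ℝ) : ℂ) * y0.1.1, (((-(q.1 : ℂ).im) : ℝ) : ℂ) * y0.1.2)) :=
    ((Complex.continuous_ofReal.comp him.neg).mul continuous_const).prodMk
      ((Complex.continuous_ofReal.comp him.neg).mul continuous_const)
  have h4 : G3_homotopic_g = fun q : Circle × S3 => if 0 ≤ (q.1 : ℂ).im then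
      ((((q.1 : ℂ).im : ℝ) : ℂ) * q.2.1.1, (((q.1 : ℂ).im : ℝ) : ℂ) * q.2.1.2)
      else ((((-(q.1 : ℂ).im) : ℝ) : ℂ) * y0.1.1, (((-(q.1 : ℂ).im) : ℝ) : ℂ) * y0.1.2) := by
    funext q
    unfold G3_homotopic_g hy
    by_cases h : 0 ≤ (q.1 : ℂ).im
    · rw [if_pos h, if_pos h, abs_of_nonneg h]
    · rw [if_neg h, if_neg h, abs_of_neg (not_le.1 h)]
  rw [h4]
  apply Continuous.if_le h1 h3 continuous_const him
  intro q hq
  rw [← hq]
  simp

theorem G3_homotopic_ccont : Continuous G3_homotopic_c := by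
  unfold G3_homotopic_c
  have hre : Continuous (fun q : Circle × S3 => (q.1 : ℂ).re) :=
    Complex.continuous_re.comp (continuous_subtype_val.comp continuous_fst)
  exact (continuous_const.sub hre).div_const 2

theorem G3_homotopic_cb (q : Circle × S3) : |G3_homotopic_c q| ≤ 1 := by
  have h := abs_le.1 (G3_homotopic_re q.1)
  unfold G3_homotopic_c
  rw [abs_le]
  constructor <;> linarith [h.1, h.2]

theorem G3_homotopic_Pcont : Continuous (fun z : (ℂ × ℂ) × ℝ × ℝ =>
    G3_homotopic_P z.1 z.2.1 z.2.2) := by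
  unfold G3_homotopic_P
  fun_prop

theorem G3_homotopic_Dcont : Continuous (fun z : (ℂ × ℂ) × ℝ × ℝ =>
    G3_homotopic_D z.1 z.2.1 z.2.2) := by
  unfold G3_homotopic_D
  fun_prop

theorem G3_homotopic_fcont : Continuous (fun z : ℝ × ℝ => G3_homotopic_f z.1 z.2) := by
  unfold G3_homotopic_f
  fun_prop

theorem G3_homotopic_hcont : ContinuousOn G3_homotopic_h {t | t ≠ 1 / 2} := by
  intro t ht
  apply ContinuousAt.continuousWithinAt
  rcases lt_or_gt_of_ne ht with h | h
  · have h1 : G3_homotopic_h =ᶠ[nhds t] fun _ => 0 := by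
      filter_upwards [Iio_mem_nhds h] with s hs
      have hs' : s < 1 / 2 := hs
      unfold G3_homotopic_h
      rw [if_pos hs']
    exact continuousAt_const.congr h1.symm
  · have h1 : G3_homotopic_h =ᶠ[nhds t] fun _ => 1 := by
      filter_upwards [Ioi_mem_nhds h] with s hs
      unfold G3_homotopic_h
      rw [if_neg (not_lt.2 (le_of_lt hs))]
    exact continuousAt_const.congr h1.symm

theorem G3_homotopic_fder (r t : ℝ) (ht : t ≠ 1 / 2) :
    HasDerivAt (G3_homotopic_f r) (2 * (1 - r) * G3_homotopic_h t + r) t := by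
  rcases lt_or_gt_of_ne ht with h | h
  · have h1 : G3_homotopic_f r =ᶠ[nhds t] fun s => (1 - r) * 0 + r * s := by
      filter_upwards [Iio_mem_nhds h] with s hs
      unfold G3_homotopic_f
      have hs' : s < 1 / 2 := hs
      rw [max_eq_left (by linarith)]
    have h2 : G3_homotopic_h t = 0 := by unfold G3_homotopic_h; rw [if_pos h]
    refine HasDerivAt.congr_of_eventuallyEq ?_ h1
    rw [h2]
    have h3 := (hasDerivAt_const t ((1 - r) * 0)).add ((hasDerivAt_id t).const_mul r)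
    refine h3.congr_deriv ?_
    ring
  · have h1 : G3_homotopic_f r =ᶠ[nhds t] fun s => (1 - r) * (2 * s - 1) + r * s := by
      filter_upwards [Ioi_mem_nhds h] with s hs
      unfold G3_homotopic_f
      have hs' : 1 / 2 < s := hs
      rw [max_eq_right (by linarith)]
    have h2 : G3_homotopic_h t = 1 := by
      unfold G3_homotopic_h; rw [if_neg (not_lt.2 (le_of_lt h))]
    refine HasDerivAt.congr_of_eventuallyEq ?_ h1
    rw [h2]
    have h3 := ((((hasDerivAt_id t).const_mul (2 : ℝ)).sub_const 1).const_mul (1 - r)).add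
      ((hasDerivAt_id t).const_mul r)
    refine h3.congr_deriv ?_
    ring

theorem G3_homotopic_Pder (w : ℂ × ℂ) (c t : ℝ) :
    HasDerivAt (G3_homotopic_P w c) (G3_homotopic_D w c t) t := by
  have hs : HasDerivAt (fun t : ℝ => ((Real.sin (Real.pi * t) : ℝ) : ℂ))
      ((Real.cos (Real.pi * t) * Real.pi : ℝ) : ℂ) t := by
    apply HasDerivAt.ofReal_comp
    have h1 : HasDerivAt (fun t : ℝ => Real.pi * t) Real.pi t := by
      simpa using (hasDerivAt_id t).const_mul Real.pi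
    exact h1.sin
  have he : HasDerivAt (fun t : ℝ => Complex.exp (((2 * Real.pi * t : ℝ) : ℂ) * Complex.I))
      (Complex.exp (((2 * Real.pi * t : ℝ) : ℂ) * Complex.I) *
        (((2 * Real.pi : ℝ) : ℂ) * Complex.I)) t := by
    have h1 : HasDerivAt (fun t : ℝ => 2 * Real.pi * t) (2 * Real.pi) t := by
      simpa using (hasDerivAt_id t).const_mul (2 * Real.pi)
    exact (h1.ofReal_comp.mul_const Complex.I).cexp
  exact ((hs.mul_const (star w.2)).neg).prodMk ((hs.mul_const (star w.1)).prodMk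
    (((he.sub_const 1).const_mul (c : ℂ)).const_add 1))

theorem G3_homotopic_Db (w : ℂ × ℂ) (c t : ℝ) (h1 : ‖w.1‖ ≤ 1) (h2 : ‖w.2‖ ≤ 1) (hc : |c| ≤ 1) :
    ‖G3_homotopic_D w c t‖ ≤ 2 * Real.pi := by
  have hpi := Real.pi_pos
  have hcos : ‖((Real.cos (Real.pi * t) * Real.pi : ℝ) : ℂ)‖ ≤ Real.pi := by
    rw [Complex.norm_real, Real.norm_eq_abs, abs_mul, abs_of_pos hpi]
    have := Real.abs_cos_le_one (Real.pi * t)
    nlinarith
  unfold G3_homotopic_D
  rw [Prod.norm_def, Prod.norm_def]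
  refine max_le ?_ (max_le ?_ ?_)
  · rw [norm_neg, norm_mul, norm_star]
    calc _ ≤ Real.pi * 1 := mul_le_mul hcos h2 (norm_nonneg _) hpi.le
      _ ≤ 2 * Real.pi := by linarith
  · rw [norm_mul, norm_star]
    calc _ ≤ Real.pi * 1 := mul_le_mul hcos h1 (norm_nonneg _) hpi.le
      _ ≤ 2 * Real.pi := by linarith
  · rw [norm_mul, norm_mul, norm_mul, Complex.norm_exp_ofReal_mul_I, Complex.norm_I,
      Complex.norm_real, Complex.norm_real, Real.norm_eq_abs, Real.norm_eq_abs, one_mul, mul_one,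
      abs_of_pos (by positivity : (0 : ℝ) < 2 * Real.pi)]
    nlinarith [abs_nonneg c]

noncomputable def G3_homotopic_F (a : unitInterval × (Circle × S3)) (t : ℝ) : C3 :=
  G3_homotopic_P (G3_homotopic_g a.2) (G3_homotopic_c a.2) (G3_homotopic_f (a.1 : ℝ) t)

noncomputable def G3_homotopic_V (a : unitInterval × (Circle × S3)) (t : ℝ) : C3 :=
  (2 * (1 - (a.1 : ℝ)) * G3_homotopic_h t + (a.1 : ℝ)) •
      G3_homotopic_D (G3_homotopic_g a.2) (G3_homotopic_c a.2) (G3_homotopic_f (a.1 : ℝ) t)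

theorem G3_homotopic_args : Continuous (fun q : (unitInterval × (Circle × S3)) × ℝ =>
    (G3_homotopic_g q.1.2, G3_homotopic_c q.1.2, G3_homotopic_f (q.1.1 : ℝ) q.2)) := by
  have h1 : Continuous (fun q : (unitInterval × (Circle × S3)) × ℝ => G3_homotopic_g q.1.2) :=
    G3_homotopic_gcont.comp (continuous_snd.comp continuous_fst)
  have h2 : Continuous (fun q : (unitInterval × (Circle × S3)) × ℝ => G3_homotopic_c q.1.2) :=
    G3_homotopic_ccont.comp (continuous_snd.comp continuous_fst)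
  have h3 : Continuous (fun q : (unitInterval × (Circle × S3)) × ℝ => ((q.1.1 : ℝ), q.2)) :=
    (continuous_subtype_val.comp (continuous_fst.comp continuous_fst)).prodMk continuous_snd
  have h4 : Continuous (fun q : (unitInterval × (Circle × S3)) × ℝ =>
      G3_homotopic_f (q.1.1 : ℝ) q.2) :=
    G3_homotopic_fcont.comp h3
  exact h1.prodMk (h2.prodMk h4)

theorem G3_homotopic_Fcont : Continuous (fun q : (unitInterval × (Circle × S3)) × ℝ =>
    G3_homotopic_F q.1 q.2) := by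
  have h := G3_homotopic_Pcont.comp G3_homotopic_args
  exact h

theorem G3_homotopic_Dcont2 : Continuous (fun q : (unitInterval × (Circle × S3)) × ℝ =>
    G3_homotopic_D (G3_homotopic_g q.1.2) (G3_homotopic_c q.1.2)
      (G3_homotopic_f (q.1.1 : ℝ) q.2)) := by
  have h := G3_homotopic_Dcont.comp G3_homotopic_args
  exact h

theorem G3_homotopic_Vcont : ContinuousOn (fun q : (unitInterval × (Circle × S3)) × ℝ =>
    G3_homotopic_V q.1 q.2) {q | q.2 ∉ ({1 / 2} : Finset ℝ)} := by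
  have hr : ContinuousOn (fun q : (unitInterval × (Circle × S3)) × ℝ => (q.1.1 : ℝ))
      {q | q.2 ∉ ({1 / 2} : Finset ℝ)} :=
    (continuous_subtype_val.comp (continuous_fst.comp continuous_fst)).continuousOn
  have hh : ContinuousOn (fun q : (unitInterval × (Circle × S3)) × ℝ => G3_homotopic_h q.2)
      {q | q.2 ∉ ({1 / 2} : Finset ℝ)} := by
    refine G3_homotopic_hcont.comp continuous_snd.continuousOn ?_
    intro q hq h
    exact hq (Finset.mem_singleton.2 h)
  exact (((continuousOn_const.mul (continuousOn_const.sub hr)).mul hh).add hr).smul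
    G3_homotopic_Dcont2.continuousOn

theorem G3_homotopic_Vb (b : unitInterval × (Circle × S3)) (t : ℝ) :
    ‖G3_homotopic_V b t‖ ≤ 3 * (2 * Real.pi) := by
  unfold G3_homotopic_V
  rw [norm_smul, Real.norm_eq_abs]
  have hb0 : (0 : ℝ) ≤ (b.1 : ℝ) := b.1.2.1
  have hb1 : (b.1 : ℝ) ≤ 1 := b.1.2.2
  have hh : 0 ≤ G3_homotopic_h t ∧ G3_homotopic_h t ≤ 1 := by
    unfold G3_homotopic_h
    split_ifs <;> norm_num
  have h1 : |2 * (1 - (b.1 : ℝ)) * G3_homotopic_h t + (b.1 : ℝ)| ≤ 3 := by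
    rw [abs_le]
    constructor <;> nlinarith [hh.1, hh.2]
  exact mul_le_mul h1 (G3_homotopic_Db _ _ _ (G3_homotopic_gb b.2).1 (G3_homotopic_gb b.2).2
    (G3_homotopic_cb b.2)) (norm_nonneg _) (by norm_num)

theorem G3_homotopic_Fder (a : unitInterval × (Circle × S3)) (t : ℝ) (ht : t ≠ 1 / 2) :
    HasDerivAt (G3_homotopic_F a) (G3_homotopic_V a t) t :=
  HasDerivAt.scomp t (G3_homotopic_Pder _ _ _) (G3_homotopic_fder _ _ ht)

theorem G3_homotopic_Fnsq (a : unitInterval × (Circle × S3)) (t : ℝ) :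
    nsq (G3_homotopic_F a t) = 1 := by
  have h := fX_facts.1 a.2.1 a.2.2 (G3_homotopic_f (a.1 : ℝ) t)
  rw [G3_homotopic_fX] at h
  exact h

theorem G3_homotopic_F01 (a : unitInterval × (Circle × S3)) :
    G3_homotopic_F a 0 = G3_homotopic_F a 1 := by
  have h0 : G3_homotopic_f (a.1 : ℝ) 0 = 0 := by
    unfold G3_homotopic_f
    norm_num
  have h1 : G3_homotopic_f (a.1 : ℝ) 1 = 1 := by
    unfold G3_homotopic_f
    norm_num
  have h2 := G3_homotopic_fX a.2.1 a.2.2 0
  have h3 := G3_homotopic_fX a.2.1 a.2.2 1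
  rw [fX_facts.2.1] at h2
  rw [fX_facts.2.2.1] at h3
  unfold G3_homotopic_F
  rw [h0, h1]
  exact h2.symm.trans h3

theorem G3_homotopic (F) (hF : IsX F) (G) (hG : IsG2' G) : G.Homotopic F := by
  obtain ⟨f, hf, hlen⟩ := mk_hl5 (A := unitInterval × (Circle × S3)) G3_homotopic_F
    G3_homotopic_V G3_homotopic_Fcont {1 / 2} G3_homotopic_Vcont
    (fun a => ⟨3 * (2 * Real.pi), Set.univ, Filter.univ_mem, fun b _ t _ => G3_homotopic_Vb b t⟩)
    (fun a t _ ht => G3_homotopic_Fder a t (fun h => ht (Finset.mem_singleton.2 h)))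
    (fun a t _ => G3_homotopic_Fnsq a t) G3_homotopic_F01
  have hkey : ∀ (r : unitInterval) (p : Circle × S3) (t : unitInterval),
      at5 (f (r, p)) t = fX p.1 p.2 (G3_homotopic_f (r : ℝ) (t : ℝ)) := by
    intro r p t
    rw [hf, G3_homotopic_fX]
    rfl
  refine ⟨{ toFun := f
            continuous_toFun := f.continuous
            map_zero_left := ?_
            map_one_left := ?_ }⟩
  · intro p
    apply (at5_facts (f (0, p))).2.2.2
    intro t
    rw [hkey, hG]
    unfold G3_homotopic_f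
    rw [Set.Icc.coe_zero, sub_zero, one_mul, zero_mul, add_zero]
    by_cases h : (t : ℝ) ≤ 1 / 2
    · rw [if_pos h, max_eq_left (by linarith), fX_facts.2.1]
    · rw [if_neg h, max_eq_right (by linarith)]
  · intro p
    apply (at5_facts (f (1, p))).2.2.2
    intro t
    rw [hkey, hF]
    unfold G3_homotopic_f
    rw [Set.Icc.coe_one, sub_self, zero_mul, one_mul, zero_add]

end Pool.Agent.Helper534.LS
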