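import Pool.Agent.Helper534.L5.Defs5
import Pool.Agent.Helper534.L5.P_ci_facts
import Pool.Agent.Helper534.L5.P_fX_facts
import Pool.Agent.Helper534.L5.P_mk_hl5
import Pool.Agent.Helper534.L5.P_hy_cont2

open MeasureTheory

namespace Pool.Agent.Helper534.LS



/-- auxiliary -/
private noncomputable def H2_exists_F : C(ℝ × (ℝ × S3), C3) :=
  ⟨fun q => mk3 (qm 0 ((Real.sin (Real.pi * q.1) * Real.sqrt (1 - q.2.1 ^ 2) : ℝ) : ℂ) q.2.2.1)
    (1 + ((1 - q.2.1) / 2 : ℝ) * ((ci q.1 : ℂ) - 1)), by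
    have := ci_facts.1
    unfold mk3 qm
    fun_prop⟩

/-- auxiliary -/
private noncomputable def H2_exists_D : C(ℝ × (ℝ × S3), C3) :=
  ⟨fun q => mk3 (qm 0 ((Real.pi * Real.cos (Real.pi * q.1) * Real.sqrt (1 - q.2.1 ^ 2) : ℝ) : ℂ) q.2.2.1)
    (((1 - q.2.1) / 2 : ℝ) * (2 * Real.pi * Complex.I * (ci q.1 : ℂ))), by
    have := ci_facts.1
    unfold mk3 qm
    fun_prop⟩

/-- auxiliary -/
private noncomputable def H2_exists_fd (θ : Circle) (y : S3) (t : ℝ) : C3 :=
  mk3 (qm 0 ((Real.pi * Real.cos (Real.pi * t) * |(θ : ℂ).im| : ℝ) : ℂ) (hy θ y).1)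
    (((1 - (θ : ℂ).re) / 2 : ℝ) * (2 * Real.pi * Complex.I * (ci t : ℂ)))

private lemma H2_exists_abs (θ : Circle) : Real.sqrt (1 - (θ : ℂ).re ^ 2) = |(θ : ℂ).im| := by
  have h : (θ : ℂ).re ^ 2 + (θ : ℂ).im ^ 2 = 1 := by
    have := Circle.normSq_coe θ
    rw [Complex.normSq_apply] at this
    nlinarith
  rw [show 1 - (θ : ℂ).re ^ 2 = (θ : ℂ).im ^ 2 by linarith, Real.sqrt_sq_eq_abs]

private lemma H2_exists_cF : Continuous fun q : ℝ × (Circle × S3) => fX q.2.1 q.2.2 q.1 := by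
  have h := hy_cont2 H2_exists_F (fun p y => by simp [H2_exists_F, mk3, qm]) (fun p y => by simp [H2_exists_F, mk3, qm])
  refine h.congr fun q => ?_
  simp only [H2_exists_F, ContinuousMap.coe_mk, fX, H2_exists_abs]

private lemma H2_exists_cD : Continuous fun q : ℝ × (Circle × S3) => H2_exists_fd q.2.1 q.2.2 q.1 := by
  have h := hy_cont2 H2_exists_D (fun p y => by simp [H2_exists_D, mk3, qm]) (fun p y => by simp [H2_exists_D, mk3, qm])
  refine h.congr fun q => ?_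
  simp only [H2_exists_D, ContinuousMap.coe_mk, H2_exists_fd, H2_exists_abs]

private lemma H2_exists_dc (t : ℝ) : HasDerivAt (fun t : ℝ => (ci t : ℂ)) (2 * Real.pi * Complex.I * (ci t : ℂ)) t := by
  have h1 : ∀ t : ℝ, (ci t : ℂ) = Complex.exp ((2 * Real.pi * Complex.I) * (t : ℂ)) := by
    intro t
    rw [ci, Circle.coe_exp]
    congr 1
    push_cast
    ring
  simp only [h1]
  have h2 : HasDerivAt (fun t : ℝ => (2 * Real.pi * Complex.I) * (t : ℂ)) ((2 * Real.pi * Complex.I) * 1) t :=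
    (Complex.ofRealCLM.hasDerivAt (x := t)).const_mul _
  have h3 := h2.cexp
  convert h3 using 1
  ring

private lemma H2_exists_dX (θ : Circle) (y : S3) (t : ℝ) : HasDerivAt (fX θ y) (H2_exists_fd θ y t) t := by
  have h1 : HasDerivAt (fun t : ℝ => ((Real.sin (Real.pi * t) * |(θ : ℂ).im| : ℝ) : ℂ))
      ((Real.pi * Real.cos (Real.pi * t) * |(θ : ℂ).im| : ℝ) : ℂ) t := by
    have h : HasDerivAt (fun t : ℝ => Real.pi * t) (Real.pi * 1) t := (hasDerivAt_id t).const_mul _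
    have h2 := (h.sin.mul_const |(θ : ℂ).im|).ofReal_comp
    convert h2 using 2
    ring
  have h2 := ((h1.mul_const (star (hy θ y).1.2)).const_sub (0 * (hy θ y).1.1)).prodMk
    (((h1.mul_const (star (hy θ y).1.1)).const_add (0 * (hy θ y).1.2)).prodMk
      ((((H2_exists_dc t).sub_const 1).const_mul (((1 - (θ : ℂ).re) / 2 : ℝ) : ℂ)).const_add 1))
  have e : H2_exists_fd θ y t = (-(((Real.pi * Real.cos (Real.pi * t) * |(θ : ℂ).im| : ℝ) : ℂ) * star (hy θ y).1.2),
      ((Real.pi * Real.cos (Real.pi * t) * |(θ : ℂ).im| : ℝ) : ℂ) * star (hy θ y).1.1,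
      (((1 - (θ : ℂ).re) / 2 : ℝ) : ℂ) * (2 * (Real.pi : ℂ) * Complex.I * (ci t : ℂ))) := by
    simp [H2_exists_fd, mk3, qm]
  rw [e]
  exact h2

private lemma H2_exists_bd (θ : Circle) (y : S3) (t : ℝ) : ‖H2_exists_fd θ y t‖ ≤ 2 * Real.pi := by
  have hp := Real.pi_pos
  have hyn : ‖(hy θ y).1.1‖ ^ 2 + ‖(hy θ y).1.2‖ ^ 2 = 1 := (hy θ y).2
  have hy1 : ‖(hy θ y).1.1‖ ≤ 1 := by nlinarith [norm_nonneg (hy θ y).1.1, sq_nonneg ‖(hy θ y).1.2‖]
  have hy2 : ‖(hy θ y).1.2‖ ≤ 1 := by nlinarith [norm_nonneg (hy θ y).1.2, sq_nonneg ‖(hy θ y).1.1‖]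
  have him : |(θ : ℂ).im| ≤ 1 := by
    have := Complex.abs_im_le_norm (θ : ℂ)
    rwa [Circle.norm_coe] at this
  have hre : |(θ : ℂ).re| ≤ 1 := by
    have := Complex.abs_re_le_norm (θ : ℂ)
    rwa [Circle.norm_coe] at this
  have hb : ‖((Real.pi * Real.cos (Real.pi * t) * |(θ : ℂ).im| : ℝ) : ℂ)‖ ≤ Real.pi := by
    rw [Complex.norm_real, Real.norm_eq_abs, abs_mul, abs_mul, abs_abs, abs_of_pos hp]
    have h1 := Real.abs_cos_le_one (Real.pi * t)
    calc Real.pi * |Real.cos (Real.pi * t)| * |(θ : ℂ).im| ≤ Real.pi * 1 * 1 := by gcongr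
      _ = Real.pi := by ring
  have hd : ‖(((1 - (θ : ℂ).re) / 2 : ℝ) : ℂ)‖ ≤ 1 := by
    rw [Complex.norm_real, Real.norm_eq_abs, abs_le]
    have := abs_le.mp hre
    constructor <;> linarith
  unfold H2_exists_fd mk3 qm
  rw [Prod.norm_def, Prod.norm_def]
  simp only [zero_mul, zero_sub, zero_add, norm_neg]
  refine max_le ?_ (max_le ?_ ?_)
  · rw [norm_mul]
    have h : ‖star (hy θ y).1.2‖ ≤ 1 := by rw [norm_star]; exact hy2
    calc _ ≤ Real.pi * 1 := by gcongr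
      _ ≤ 2 * Real.pi := by linarith
  · rw [norm_mul]
    have h : ‖star (hy θ y).1.1‖ ≤ 1 := by rw [norm_star]; exact hy1
    calc _ ≤ Real.pi * 1 := by gcongr
      _ ≤ 2 * Real.pi := by linarith
  · rw [norm_mul]
    have h : ‖2 * (Real.pi : ℂ) * Complex.I * (ci t : ℂ)‖ = 2 * Real.pi := by
      rw [norm_mul, Circle.norm_coe, norm_mul, Complex.norm_I, norm_mul, Complex.norm_real, Real.norm_eq_abs, abs_of_pos hp]
      simp
    rw [h]
    calc _ ≤ 1 * (2 * Real.pi) := by gcongr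
      _ = 2 * Real.pi := by ring

theorem H2_exists : ∃ H, IsH2 H := by
  refine Exists.elim (mk_hl5 (A := Circle × (Circle × S3))
    (fun q t => if t ≤ 1 / 2 then fX q.1 q.2.2 (2 * t) else fX q.2.1 q.2.2 (2 * t - 1))
    (fun q t => if t ≤ 1 / 2 then (2 : ℝ) • H2_exists_fd q.1 q.2.2 (2 * t)
      else (2 : ℝ) • H2_exists_fd q.2.1 q.2.2 (2 * t - 1)) ?_ {1 / 2} ?_ ?_ ?_ ?_ ?_)
      (fun f hf => ⟨f, fun p t => hf.1 p t⟩)
  · refine Continuous.if_le ?_ ?_ continuous_snd continuous_const ?_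
    · exact H2_exists_cF.comp (f := fun q : (Circle × (Circle × S3)) × ℝ => (2 * q.2, (q.1.1, q.1.2.2))) (by fun_prop)
    · exact H2_exists_cF.comp (f := fun q : (Circle × (Circle × S3)) × ℝ => (2 * q.2 - 1, (q.1.2.1, q.1.2.2))) (by fun_prop)
    · intro q hq
      rw [hq]
      norm_num
      rw [fX_facts.2.2.1, fX_facts.2.1]
  · have c1' : Continuous fun q : (Circle × (Circle × S3)) × ℝ => H2_exists_fd q.1.1 q.1.2.2 (2 * q.2) :=
      H2_exists_cD.comp (f := fun q : (Circle × (Circle × S3)) × ℝ => (2 * q.2, (q.1.1, q.1.2.2))) (by fun_prop)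
    have c1 : Continuous fun q : (Circle × (Circle × S3)) × ℝ => (2 : ℝ) • H2_exists_fd q.1.1 q.1.2.2 (2 * q.2) :=
      c1'.const_smul (2 : ℝ)
    have c2' : Continuous fun q : (Circle × (Circle × S3)) × ℝ => H2_exists_fd q.1.2.1 q.1.2.2 (2 * q.2 - 1) :=
      H2_exists_cD.comp (f := fun q : (Circle × (Circle × S3)) × ℝ => (2 * q.2 - 1, (q.1.2.1, q.1.2.2))) (by fun_prop)
    have c2 : Continuous fun q : (Circle × (Circle × S3)) × ℝ => (2 : ℝ) • H2_exists_fd q.1.2.1 q.1.2.2 (2 * q.2 - 1) :=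
      c2'.const_smul (2 : ℝ)
    intro q hq
    apply ContinuousAt.continuousWithinAt
    have hq' : q.2 ≠ 1 / 2 := by simpa using hq
    rcases lt_or_gt_of_ne hq' with h | h
    · refine c1.continuousAt.congr ?_
      have ho : IsOpen {q : (Circle × (Circle × S3)) × ℝ | q.2 < 1 / 2} := isOpen_lt continuous_snd continuous_const
      filter_upwards [ho.mem_nhds h] with r hr
      rw [if_pos (le_of_lt hr)]
    · refine c2.continuousAt.congr ?_
      have ho : IsOpen {q : (Circle × (Circle × S3)) × ℝ | 1 / 2 < q.2} := isOpen_lt continuous_const continuous_snd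
      filter_upwards [ho.mem_nhds h] with r hr
      rw [if_neg (not_le.mpr hr)]
  · intro a
    refine ⟨2 * (2 * Real.pi), Set.univ, Filter.univ_mem, fun b _ t _ => ?_⟩
    show ‖if t ≤ 1 / 2 then (2 : ℝ) • H2_exists_fd b.1 b.2.2 (2 * t)
      else (2 : ℝ) • H2_exists_fd b.2.1 b.2.2 (2 * t - 1)‖ ≤ _
    split_ifs
    · rw [norm_smul, Real.norm_ofNat]
      exact mul_le_mul_of_nonneg_left (H2_exists_bd _ _ _) (by norm_num)
    · rw [norm_smul, Real.norm_ofNat]
      exact mul_le_mul_of_nonneg_left (H2_exists_bd _ _ _) (by norm_num)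
  · intro a t _ hS
    have hq' : t ≠ 1 / 2 := by simpa using hS
    rcases lt_or_gt_of_ne hq' with h | h
    · have h1 : HasDerivAt (fun t : ℝ => 2 * t) 2 t := by
        simpa using (hasDerivAt_id t).const_mul (2 : ℝ)
      have h2 := HasDerivAt.scomp t (H2_exists_dX a.1 a.2.2 (2 * t)) h1
      simp only [if_pos (le_of_lt h)]
      refine h2.congr_of_eventuallyEq ?_
      filter_upwards [isOpen_Iio.mem_nhds h] with r hr
      have hr' : r < 1 / 2 := hr
      simp only [if_pos (le_of_lt hr'), Function.comp]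
    · have h1 : HasDerivAt (fun t : ℝ => 2 * t - 1) 2 t := by
        simpa using ((hasDerivAt_id t).const_mul (2 : ℝ)).sub_const 1
      have h2 := HasDerivAt.scomp t (H2_exists_dX a.2.1 a.2.2 (2 * t - 1)) h1
      simp only [if_neg (not_le.mpr h)]
      refine h2.congr_of_eventuallyEq ?_
      filter_upwards [isOpen_Ioi.mem_nhds h] with r hr
      have hr' : 1 / 2 < r := hr
      simp only [if_neg (not_le.mpr hr'), Function.comp]
  · intro a t _
    show nsq (if t ≤ 1 / 2 then fX a.1 a.2.2 (2 * t) else fX a.2.1 a.2.2 (2 * t - 1)) = 1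
    split_ifs
    · exact fX_facts.1 _ _ _
    · exact fX_facts.1 _ _ _
  · intro a
    norm_num
    rw [fX_facts.2.2.1, fX_facts.2.1]

end Pool.Agent.Helper534.LS
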