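import Pool.Agent.Helper534.L5.Defs5
import Pool.Agent.Helper534.LS.P_hmap_homotopic
import Pool.Agent.Helper534.LS.P_sig_add
import Pool.Agent.Helper534.L5.P_fX_facts
import Pool.Agent.Helper534.L5.P_at5_facts
import Pool.Agent.Helper534.L5.P_H2_exists
import Pool.Agent.Helper534.L5.P_G2_homotopic
import Pool.Agent.Helper534.L5.P_G3_homotopic

open MeasureTheory

namespace Pool.Agent.Helper534.LS



theorem Db_double (F) (hF : IsX F) (D) (hD : IsDb D) (z : HH S3 3) :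
    hmap D 4 (sig S3 3 z) = (2 : ℤ) • hmap F 4 (sig S3 3 z) := by
  obtain ⟨H, hH⟩ := H2_exists
  obtain ⟨G, hGd⟩ : ∃ G : C(Circle × S3, HL5), ∀ p, G p = H (p.1, (1, p.2)) :=
    ⟨H.comp ⟨fun p => (p.1, (1, p.2)), by fun_prop⟩, fun p => rfl⟩
  obtain ⟨G', hGd'⟩ : ∃ G' : C(Circle × S3, HL5), ∀ p, G' p = H (1, (p.1, p.2)) :=
    ⟨H.comp ⟨fun p => (1, (p.1, p.2)), by fun_prop⟩, fun p => rfl⟩
  have hD' : ∀ p, D p = H (p.1, (p.1, p.2)) := by
    intro p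
    apply (at5_facts (D p)).2.2.2
    intro t
    rw [hD p t, hH (p.1, (p.1, p.2)) t]
    split_ifs <;> rfl
  have hfX := fX_facts.2.2.2.1
  have hG : IsG2 G := by
    intro p t
    rw [hGd p, hH (p.1, (1, p.2)) t]
    show (if (t : ℝ) ≤ 1 / 2 then fX p.1 p.2 (2 * t) else fX 1 p.2 (2 * t - 1)) = _
    rw [hfX]
  have hG' : IsG2' G' := by
    intro p t
    rw [hGd' p, hH (1, (p.1, p.2)) t]
    show (if (t : ℝ) ≤ 1 / 2 then fX 1 p.2 (2 * t) else fX p.1 p.2 (2 * t - 1)) = _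
    rw [hfX]
  rw [sig_add H D G G' hD' hGd hGd' 3 z, hmap_homotopic G F (G2_homotopic F hF G hG) 4,
    hmap_homotopic G' F (G3_homotopic F hF G' hG') 4, two_smul]

end Pool.Agent.Helper534.LS
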