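import Pool.Agent.Helper534.L5.Defs5

open MeasureTheory

namespace Pool.Agent.Helper534.LS



theorem spd_facts_re (z : ℂ) : (z * star z).re = ‖z‖ ^ 2 := by
  rw [show star z = (starRingEnd ℂ) z from rfl, Complex.mul_conj, Complex.ofReal_re,
    Complex.normSq_eq_norm_sq]

theorem spd_facts_eq (p v : C3) : gM p v v = nsq v + 1000000 * (d0 p v ^ 2 + ‖d1 p v‖ ^ 2 +
      ‖d2 p v‖ ^ 2 + ‖d3 p v‖ ^ 2) := by
  unfold gM nsq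
  rw [Complex.add_re, Complex.add_re, Complex.add_re, Complex.add_re, spd_facts_re, spd_facts_re,
    spd_facts_re, spd_facts_re, spd_facts_re, spd_facts_re]
  ring

theorem spd_facts_up (p v : C3) (hp : nsq p = 1) : gM p v v ≤ (100000 * ‖v‖) ^ 2 := by
  rw [spd_facts_eq]
  have h1 : ‖v.1‖ ≤ ‖v‖ := norm_fst_le v
  have h2' : ‖v.2‖ ≤ ‖v‖ := norm_snd_le v
  have h2 : ‖v.2.1‖ ≤ ‖v‖ := (norm_fst_le v.2).trans h2'
  have h3 : ‖v.2.2‖ ≤ ‖v‖ := (norm_snd_le v.2).trans h2'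
  have h0 : 0 ≤ ‖v‖ := norm_nonneg v
  unfold nsq at hp
  have hn1 := norm_nonneg p.1
  have hn2 := norm_nonneg p.2.1
  have hn3 := norm_nonneg p.2.2
  have p1 : ‖p.1‖ ≤ 1 := by nlinarith [sq_nonneg ‖p.2.1‖, sq_nonneg ‖p.2.2‖]
  have p2 : ‖p.2.1‖ ≤ 1 := by nlinarith [sq_nonneg ‖p.1‖, sq_nonneg ‖p.2.2‖]
  have p3 : ‖p.2.2‖ ≤ 1 := by nlinarith [sq_nonneg ‖p.1‖, sq_nonneg ‖p.2.1‖]
  have hm : ∀ a b c : ℂ, ‖a‖ ≤ 1 → ‖b‖ ≤ 1 → ‖c‖ ≤ ‖v‖ → ‖a * c * b‖ ≤ ‖v‖ := by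
    intro a b c ha hb hc
    rw [norm_mul, norm_mul]
    calc ‖a‖ * ‖c‖ * ‖b‖ ≤ 1 * ‖v‖ * 1 := by
          gcongr
      _ = ‖v‖ := by ring
  have hs : ∀ z : ℂ, ‖star z‖ = ‖z‖ := fun z => norm_star z
  have e0 : |d0 p v| ≤ 3 * ‖v‖ := by
    unfold d0
    rw [abs_mul, abs_two]
    have h4 : |(p.2.2 * star v.2.2).re| ≤ ‖p.2.2 * star v.2.2‖ := Complex.abs_re_le_norm _
    have h5 : ‖p.2.2 * star v.2.2‖ ≤ ‖v‖ := by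
      rw [norm_mul, hs]
      nlinarith [norm_nonneg v.2.2]
    linarith
  have e1 : ‖d1 p v‖ ≤ 3 * ‖v‖ := by
    unfold d1
    have h4 := hm p.1 (star p.2.2) v.1 p1 (by rw [hs]; exact p3) h1
    have h5 := hm p.1 p.1 (star v.2.2) p1 p1 (by rw [hs]; exact h3)
    have e : 2 * p.1 * v.1 * star p.2.2 + p.1 ^ 2 * star v.2.2 =
      p.1 * v.1 * star p.2.2 + p.1 * v.1 * star p.2.2 + p.1 * star v.2.2 * p.1 := by ring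
    rw [e]
    refine (norm_add₃_le).trans ?_
    linarith
  have e2 : ‖d2 p v‖ ≤ 3 * ‖v‖ := by
    unfold d2
    have h4 := hm p.2.1 (star p.2.2) v.1 p2 (by rw [hs]; exact p3) h1
    have h5 := hm p.1 (star p.2.2) v.2.1 p1 (by rw [hs]; exact p3) h2
    have h6 := hm p.1 p.2.1 (star v.2.2) p1 p2 (by rw [hs]; exact h3)
    have e : (v.1 * p.2.1 + p.1 * v.2.1) * star p.2.2 + p.1 * p.2.1 * star v.2.2 =
      p.2.1 * v.1 * star p.2.2 + p.1 * v.2.1 * star p.2.2 + p.1 * star v.2.2 * p.2.1 := by ring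
    rw [e]
    refine (norm_add₃_le).trans ?_
    linarith
  have e3 : ‖d3 p v‖ ≤ 3 * ‖v‖ := by
    unfold d3
    have h4 := hm p.2.1 (star p.2.2) v.2.1 p2 (by rw [hs]; exact p3) h2
    have h5 := hm p.2.1 p.2.1 (star v.2.2) p2 p2 (by rw [hs]; exact h3)
    have e : 2 * p.2.1 * v.2.1 * star p.2.2 + p.2.1 ^ 2 * star v.2.2 =
      p.2.1 * v.2.1 * star p.2.2 + p.2.1 * v.2.1 * star p.2.2 + p.2.1 * star v.2.2 * p.2.1 := by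
      ring
    rw [e]
    refine (norm_add₃_le).trans ?_
    linarith
  have q0 : d0 p v ^ 2 ≤ (3 * ‖v‖) ^ 2 := by
    rw [← sq_abs (d0 p v)]
    exact pow_le_pow_left₀ (abs_nonneg _) e0 2
  have q1 : ‖d1 p v‖ ^ 2 ≤ (3 * ‖v‖) ^ 2 := pow_le_pow_left₀ (norm_nonneg _) e1 2
  have q2 : ‖d2 p v‖ ^ 2 ≤ (3 * ‖v‖) ^ 2 := pow_le_pow_left₀ (norm_nonneg _) e2 2
  have q3 : ‖d3 p v‖ ^ 2 ≤ (3 * ‖v‖) ^ 2 := pow_le_pow_left₀ (norm_nonneg _) e3 2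
  have r1 : ‖v.1‖ ^ 2 ≤ ‖v‖ ^ 2 := pow_le_pow_left₀ (norm_nonneg _) h1 2
  have r2 : ‖v.2.1‖ ^ 2 ≤ ‖v‖ ^ 2 := pow_le_pow_left₀ (norm_nonneg _) h2 2
  have r3 : ‖v.2.2‖ ^ 2 ≤ ‖v‖ ^ 2 := pow_le_pow_left₀ (norm_nonneg _) h3 2
  unfold nsq
  nlinarith [sq_nonneg ‖v‖]

theorem spd_facts (p v : C3) : gM p v v = nsq v + 1000000 * (d0 p v ^ 2 + ‖d1 p v‖ ^ 2 +
      ‖d2 p v‖ ^ 2 + ‖d3 p v‖ ^ 2) ∧ 0 ≤ spd p v ∧ Real.sqrt (nsq v) ≤ spd p v ∧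
    1000 * |d0 p v| ≤ spd p v ∧ 1000 * ‖d1 p v‖ ≤ spd p v ∧ 1000 * ‖d2 p v‖ ≤ spd p v ∧
    1000 * ‖d3 p v‖ ≤ spd p v ∧ (nsq p = 1 → spd p v ≤ 100000 * ‖v‖) := by
  have h := spd_facts_eq p v
  have hn : 0 ≤ nsq v := by unfold nsq; positivity
  have h0 := sq_nonneg (d0 p v)
  have h1 := sq_nonneg ‖d1 p v‖
  have h2 := sq_nonneg ‖d2 p v‖
  have h3 := sq_nonneg ‖d3 p v‖
  refine ⟨h, Real.sqrt_nonneg _, ?_, ?_, ?_, ?_, ?_, ?_⟩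
  · apply Real.sqrt_le_sqrt
    rw [h]
    nlinarith
  · apply Real.le_sqrt_of_sq_le
    rw [h, mul_pow, sq_abs]
    nlinarith
  · apply Real.le_sqrt_of_sq_le
    rw [h, mul_pow]
    nlinarith
  · apply Real.le_sqrt_of_sq_le
    rw [h, mul_pow]
    nlinarith
  · apply Real.le_sqrt_of_sq_le
    rw [h, mul_pow]
    nlinarith
  · intro hp
    unfold spd
    rw [Real.sqrt_le_left (by positivity)]
    exact spd_facts_up p v hp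

end Pool.Agent.Helper534.LS
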