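import Pool.Agent.Helper534.L5.Defs5
import Pool.Agent.Helper534.L5.P_ci_facts
import Pool.Agent.Helper534.L5.P_fX_facts
import Pool.Agent.Helper534.L5.P_spd_facts
import Pool.Agent.Helper534.L5.P_mk_hl5
import Pool.Agent.Helper534.L5.P_hy_cont2

open MeasureTheory

namespace Pool.Agent.Helper534.LS



theorem X_exists_im (θ : Circle) : Real.sqrt (1 - (θ : ℂ).re ^ 2) = |(θ : ℂ).im| := by
  have h : (θ : ℂ).re ^ 2 + (θ : ℂ).im ^ 2 = 1 := by
    have h1 : Complex.normSq (θ : ℂ) = 1 := Circle.normSq_coe θ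
    rw [Complex.normSq_apply] at h1
    nlinarith
  have h2 : 1 - (θ : ℂ).re ^ 2 = (θ : ℂ).im ^ 2 := by linarith
  rw [h2, Real.sqrt_sq_eq_abs]

theorem X_exists_imle (θ : Circle) : |(θ : ℂ).im| ≤ 1 := by
  have h : (θ : ℂ).re ^ 2 + (θ : ℂ).im ^ 2 = 1 := by
    have h1 : Complex.normSq (θ : ℂ) = 1 := Circle.normSq_coe θ
    rw [Complex.normSq_apply] at h1
    nlinarith
  rw [← sq_le_one_iff_abs_le_one]
  nlinarith [sq_nonneg (θ : ℂ).re]

theorem X_exists_rele (θ : Circle) : |(θ : ℂ).re| ≤ 1 := by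
  have h : (θ : ℂ).re ^ 2 + (θ : ℂ).im ^ 2 = 1 := by
    have h1 : Complex.normSq (θ : ℂ) = 1 := Circle.normSq_coe θ
    rw [Complex.normSq_apply] at h1
    nlinarith
  rw [← sq_le_one_iff_abs_le_one]
  nlinarith [sq_nonneg (θ : ℂ).im]

noncomputable def X_exists_g (p : Circle × S3) : ℂ × ℂ :=
  ((|(p.1 : ℂ).im| : ℝ) * star (hy p.1 p.2).1.1, (|(p.1 : ℂ).im| : ℝ) * star (hy p.1 p.2).1.2)

theorem X_exists_gcont : Continuous X_exists_g := by
  let G : C(Unit × (ℝ × S3), ℂ × ℂ) :=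
    ⟨fun q => (((Real.sqrt (1 - q.2.1 ^ 2) : ℝ) : ℂ) * star q.2.2.1.1,
      ((Real.sqrt (1 - q.2.1 ^ 2) : ℝ) : ℂ) * star q.2.2.1.2), by fun_prop⟩
  have h1 : ∀ p y, G (p, (1, y)) = G (p, (1, y0)) := by
    intro p y
    show (((Real.sqrt (1 - (1:ℝ) ^ 2) : ℝ) : ℂ) * star y.1.1,
      ((Real.sqrt (1 - (1:ℝ) ^ 2) : ℝ) : ℂ) * star y.1.2) =
      (((Real.sqrt (1 - (1:ℝ) ^ 2) : ℝ) : ℂ) * star y0.1.1,
      ((Real.sqrt (1 - (1:ℝ) ^ 2) : ℝ) : ℂ) * star y0.1.2)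
    simp
  have h2 : ∀ p y, G (p, (-1, y)) = G (p, (-1, y0)) := by
    intro p y
    show (((Real.sqrt (1 - (-1:ℝ) ^ 2) : ℝ) : ℂ) * star y.1.1,
      ((Real.sqrt (1 - (-1:ℝ) ^ 2) : ℝ) : ℂ) * star y.1.2) =
      (((Real.sqrt (1 - (-1:ℝ) ^ 2) : ℝ) : ℂ) * star y0.1.1,
      ((Real.sqrt (1 - (-1:ℝ) ^ 2) : ℝ) : ℂ) * star y0.1.2)
    simp
  have h3 := hy_cont2 G h1 h2
  have h4 : Continuous (fun p : Circle × S3 => ((), p)) := by fun_prop
  have h5 := h3.comp h4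
  refine h5.congr fun p => ?_
  show (((Real.sqrt (1 - (p.1 : ℂ).re ^ 2) : ℝ) : ℂ) * star (hy p.1 p.2).1.1,
    ((Real.sqrt (1 - (p.1 : ℂ).re ^ 2) : ℝ) : ℂ) * star (hy p.1 p.2).1.2) = _
  rw [X_exists_im]
  rfl

theorem X_exists_gnorm (p : Circle × S3) : ‖(X_exists_g p).1‖ ≤ 1 ∧ ‖(X_exists_g p).2‖ ≤ 1 := by
  have h1 := X_exists_imle p.1
  have h2 := (hy p.1 p.2).2
  have h3 : ‖(hy p.1 p.2).1.1‖ ≤ 1 := by
    nlinarith [norm_nonneg (hy p.1 p.2).1.1, norm_nonneg (hy p.1 p.2).1.2]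
  have h4 : ‖(hy p.1 p.2).1.2‖ ≤ 1 := by
    nlinarith [norm_nonneg (hy p.1 p.2).1.1, norm_nonneg (hy p.1 p.2).1.2]
  constructor
  · show ‖((|(p.1 : ℂ).im| : ℝ) : ℂ) * star (hy p.1 p.2).1.1‖ ≤ 1
    rw [norm_mul, norm_star, Complex.norm_real, Real.norm_eq_abs, abs_abs]
    exact mul_le_one₀ h1 (norm_nonneg _) h3
  · show ‖((|(p.1 : ℂ).im| : ℝ) : ℂ) * star (hy p.1 p.2).1.2‖ ≤ 1
    rw [norm_mul, norm_star, Complex.norm_real, Real.norm_eq_abs, abs_abs]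
    exact mul_le_one₀ h1 (norm_nonneg _) h4

theorem X_exists_eq (p : Circle × S3) (t : ℝ) : fX p.1 p.2 t =
    (-(((Real.sin (Real.pi * t) : ℝ) : ℂ) * (X_exists_g p).2),
      ((Real.sin (Real.pi * t) : ℝ) : ℂ) * (X_exists_g p).1,
      1 + (((1 - (p.1 : ℂ).re) / 2 : ℝ) : ℂ) * ((ci t : ℂ) - 1)) := by
  unfold fX mk3 qm X_exists_g
  refine Prod.ext ?_ (Prod.ext ?_ ?_)
  · simp only
    push_cast
    ring
  · simp only
    push_cast
    ring
  · rfl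

noncomputable def X_exists_V (p : Circle × S3) (t : ℝ) : C3 :=
    (-(((Real.cos (Real.pi * t) * Real.pi : ℝ) : ℂ) * (X_exists_g p).2),
      ((Real.cos (Real.pi * t) * Real.pi : ℝ) : ℂ) * (X_exists_g p).1,
      (((1 - (p.1 : ℂ).re) / 2 : ℝ) : ℂ) * ((ci t : ℂ) * (2 * Real.pi * Complex.I)))

theorem X_exists_Vnorm (p : Circle × S3) (t : ℝ) : ‖X_exists_V p t‖ ≤ 20 := by
  have hg := X_exists_gnorm p
  have hpi : Real.pi ≤ 4 := Real.pi_le_four
  have hpi0 := Real.pi_pos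
  have h1 : ‖((Real.cos (Real.pi * t) * Real.pi : ℝ) : ℂ)‖ ≤ 4 := by
    rw [Complex.norm_real, norm_mul, Real.norm_eq_abs, Real.norm_eq_abs, abs_of_pos hpi0]
    have := Real.abs_cos_le_one (Real.pi * t)
    nlinarith [abs_nonneg (Real.cos (Real.pi * t))]
  have h2 : ‖(X_exists_V p t).1‖ ≤ 20 := by
    show ‖-(((Real.cos (Real.pi * t) * Real.pi : ℝ) : ℂ) * (X_exists_g p).2)‖ ≤ 20
    rw [norm_neg, norm_mul]
    nlinarith [norm_nonneg ((Real.cos (Real.pi * t) * Real.pi : ℝ) : ℂ),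
      norm_nonneg (X_exists_g p).2, hg.2]
  have h3 : ‖(X_exists_V p t).2.1‖ ≤ 20 := by
    show ‖((Real.cos (Real.pi * t) * Real.pi : ℝ) : ℂ) * (X_exists_g p).1‖ ≤ 20
    rw [norm_mul]
    nlinarith [norm_nonneg ((Real.cos (Real.pi * t) * Real.pi : ℝ) : ℂ),
      norm_nonneg (X_exists_g p).1, hg.1]
  have h4 : ‖(X_exists_V p t).2.2‖ ≤ 20 := by
    show ‖(((1 - (p.1 : ℂ).re) / 2 : ℝ) : ℂ) * ((ci t : ℂ) * (2 * Real.pi * Complex.I))‖ ≤ 20
    rw [norm_mul, norm_mul, Circle.norm_coe, norm_mul, norm_mul, Complex.norm_I,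
      Complex.norm_real, Complex.norm_real, Real.norm_eq_abs, Real.norm_eq_abs, abs_of_pos hpi0]
    have h5 := abs_le.mp (X_exists_rele p.1)
    have h6 : |(1 - (p.1 : ℂ).re) / 2| ≤ 1 := by
      rw [abs_le]; constructor <;> linarith
    have h7 : ‖(2 : ℂ)‖ = 2 := by simp
    rw [h7]
    nlinarith [abs_nonneg ((1 - (p.1 : ℂ).re) / 2)]
  rw [Prod.norm_def, Prod.norm_def]
  exact max_le h2 (max_le h3 h4)

theorem X_exists_ci (t : ℝ) : HasDerivAt (fun t : ℝ => (ci t : ℂ))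
    ((ci t : ℂ) * (2 * Real.pi * Complex.I)) t := by
  have h : (fun t : ℝ => (ci t : ℂ)) = fun t : ℝ => Complex.exp ((t : ℂ) * (2 * Real.pi * Complex.I)) := by
    funext t
    rw [ci, Circle.coe_exp]
    congr 1
    push_cast
    ring
  have h1 : HasDerivAt (fun t : ℝ => ((t : ℂ) * (2 * Real.pi * Complex.I)))
      (1 * (2 * Real.pi * Complex.I)) t := (HasDerivAt.ofReal_comp (hasDerivAt_id t)).mul_const _
  have h2 := h1.cexp
  rw [h]
  have h3 : (ci t : ℂ) = Complex.exp ((t : ℂ) * (2 * Real.pi * Complex.I)) := congrFun h t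
  rw [h3]
  convert h2 using 2
  ring

theorem X_exists_deriv (p : Circle × S3) (t : ℝ) :
    HasDerivAt (fX p.1 p.2) (X_exists_V p t) t := by
  have h0 : fX p.1 p.2 = fun t => (-(((Real.sin (Real.pi * t) : ℝ) : ℂ) * (X_exists_g p).2),
      ((Real.sin (Real.pi * t) : ℝ) : ℂ) * (X_exists_g p).1,
      1 + (((1 - (p.1 : ℂ).re) / 2 : ℝ) : ℂ) * ((ci t : ℂ) - 1)) := by
    funext t
    exact X_exists_eq p t
  rw [h0]
  have h1 : HasDerivAt (fun t : ℝ => Real.sin (Real.pi * t)) (Real.cos (Real.pi * t) * Real.pi) t := by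
    have := ((hasDerivAt_id t).const_mul Real.pi).sin
    simpa using this
  have h2 := h1.ofReal_comp
  have h3 : HasDerivAt (fun t : ℝ => (1 : ℂ) + (((1 - (p.1 : ℂ).re) / 2 : ℝ) : ℂ) * ((ci t : ℂ) - 1))
      ((((1 - (p.1 : ℂ).re) / 2 : ℝ) : ℂ) * ((ci t : ℂ) * (2 * Real.pi * Complex.I))) t :=
    (((X_exists_ci t).sub_const 1).const_mul _).const_add _
  exact ((h2.mul_const _).neg).prodMk ((h2.mul_const _).prodMk h3)

theorem X_exists_cA (g : Circle × S3 → ℂ × ℂ) (hg : Continuous g) :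
    Continuous fun q : (Circle × S3) × ℝ =>
      ((-(((Real.sin (Real.pi * q.2) : ℝ) : ℂ) * (g q.1).2),
      ((Real.sin (Real.pi * q.2) : ℝ) : ℂ) * (g q.1).1,
      1 + (((1 - (q.1.1 : ℂ).re) / 2 : ℝ) : ℂ) * ((ci q.2 : ℂ) - 1)) : C3) := by
  have hci : Continuous (fun t : ℝ => (ci t : ℂ)) :=
    continuous_subtype_val.comp ci_facts.1
  have hci' : Continuous (fun q : (Circle × S3) × ℝ => (ci q.2 : ℂ)) := hci.comp continuous_snd
  fun_prop

theorem X_exists_cB (g : Circle × S3 → ℂ × ℂ) (hg : Continuous g) :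
    Continuous fun q : (Circle × S3) × ℝ =>
      ((-(((Real.cos (Real.pi * q.2) * Real.pi : ℝ) : ℂ) * (g q.1).2),
      ((Real.cos (Real.pi * q.2) * Real.pi : ℝ) : ℂ) * (g q.1).1,
      (((1 - (q.1.1 : ℂ).re) / 2 : ℝ) : ℂ) * ((ci q.2 : ℂ) * (2 * Real.pi * Complex.I))) : C3) := by
  have hci : Continuous (fun t : ℝ => (ci t : ℂ)) :=
    continuous_subtype_val.comp ci_facts.1
  have hci' : Continuous (fun q : (Circle × S3) × ℝ => (ci q.2 : ℂ)) := hci.comp continuous_snd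
  fun_prop

theorem X_exists : ∃ F, IsX F ∧ ∃ b, ∀ p, len5 (F p) ≤ b := by
  have hgc := X_exists_gcont
  have hg1 : Continuous (fun p => (X_exists_g p).1) := continuous_fst.comp hgc
  have hg2 : Continuous (fun p => (X_exists_g p).2) := continuous_snd.comp hgc
  have hci : Continuous (fun t : ℝ => (ci t : ℂ)) :=
    continuous_subtype_val.comp ci_facts.1
  have hF1 : Continuous fun q : (Circle × S3) × ℝ => fX q.1.1 q.1.2 q.2 := by
    have : (fun q : (Circle × S3) × ℝ => fX q.1.1 q.1.2 q.2) = fun q =>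
        (-(((Real.sin (Real.pi * q.2) : ℝ) : ℂ) * (X_exists_g q.1).2),
      ((Real.sin (Real.pi * q.2) : ℝ) : ℂ) * (X_exists_g q.1).1,
      1 + (((1 - (q.1.1 : ℂ).re) / 2 : ℝ) : ℂ) * ((ci q.2 : ℂ) - 1)) := by
      funext q
      exact X_exists_eq q.1 q.2
    rw [this]
    exact X_exists_cA X_exists_g hgc
  have hV1 : Continuous fun q : (Circle × S3) × ℝ => X_exists_V q.1 q.2 := by
    exact X_exists_cB X_exists_g hgc
  obtain ⟨f, hf, hl⟩ := mk_hl5 (A := Circle × S3) (fun p t => fX p.1 p.2 t) X_exists_V hF1 ∅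
    hV1.continuousOn
    (fun a => ⟨20, Set.univ, Filter.univ_mem, fun b _ t _ => X_exists_Vnorm b t⟩)
    (fun a t _ _ => X_exists_deriv a t)
    (fun a t _ => fX_facts.1 _ _ _)
    (fun a => by
      show fX a.1 a.2 0 = fX a.1 a.2 1
      rw [fX_facts.2.1, fX_facts.2.2.1])
  refine ⟨f, fun p t => hf p t, 100000 * 20, fun p => ?_⟩
  rw [hl]
  have h1 : ‖∫ t in (0 : ℝ)..1, spd (fX p.1 p.2 t) (X_exists_V p t)‖ ≤
      (100000 * 20) * |(1 : ℝ) - 0| := by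
    refine intervalIntegral.norm_integral_le_of_norm_le_const fun t _ => ?_
    obtain ⟨_, h0, _, _, _, _, _, h8⟩ := spd_facts (fX p.1 p.2 t) (X_exists_V p t)
    rw [Real.norm_eq_abs, abs_of_nonneg h0]
    refine (h8 (fX_facts.1 _ _ _)).trans ?_
    have := X_exists_Vnorm p t
    linarith
  have h2 := (le_abs_self _).trans h1
  simpa using h2

end Pool.Agent.Helper534.LS
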