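import Pool.Agent.Helper534.L5.Defs5
import Pool.Agent.Helper534.LS.P_hmap_homotopic

open MeasureTheory

namespace Pool.Agent.Helper534.LS



theorem rot_invar {Q Z : Type} [TopologicalSpace Q] [TopologicalSpace Z] (F G : C(Circle × Q, Z))
    (c : Circle) (hG : ∀ p, G p = F (c * p.1, p.2)) (n : ℕ) : hmap G n = hmap F n := by
  have h : F.Homotopic G := by
    refine ⟨{ toFun := fun q => F (Circle.exp ((q.1 : ℝ) * Complex.arg (c : ℂ)) * q.2.1, q.2.2)
              continuous_toFun := ?_
              map_zero_left := ?_
              map_one_left := ?_ }⟩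
    · have h1 : Continuous fun q : unitInterval × (Circle × Q) =>
          Circle.exp ((q.1 : ℝ) * Complex.arg (c : ℂ)) :=
        Circle.exp.continuous.comp
          ((continuous_subtype_val.comp continuous_fst).mul continuous_const)
      exact F.continuous.comp
        ((h1.mul (continuous_fst.comp continuous_snd)).prodMk
          (continuous_snd.comp continuous_snd))
    · intro p
      show F (Circle.exp (((0 : unitInterval) : ℝ) * Complex.arg (c : ℂ)) * p.1, p.2) = F p
      rw [Set.Icc.coe_zero, zero_mul, Circle.exp_zero, one_mul]
    · intro p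
      show F (Circle.exp (((1 : unitInterval) : ℝ) * Complex.arg (c : ℂ)) * p.1, p.2) = G p
      rw [Set.Icc.coe_one, one_mul, Circle.exp_arg, hG]
  exact (hmap_homotopic F G h n).symm

end Pool.Agent.Helper534.LS
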