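import Pool.Agent.Helper534.L5.Defs5

open MeasureTheory

namespace Pool.Agent.Helper534.LS



theorem s5_cov : (IsOpen UY ∧ IsOpen VZ ∧ ∀ p, p ∈ UY ∨ p ∈ VZ) ∧
    (IsOpen UI ∧ IsOpen VI ∧ ∀ p, p ∈ UI ∨ p ∈ VI) ∧
    (IsOpen UP ∧ IsOpen VP ∧ ∀ p, p ∈ UP ∨ p ∈ VP) := by
  refine ⟨⟨?_, ?_, ?_⟩, ⟨?_, ?_, ?_⟩, ⟨?_, ?_, ?_⟩⟩
  · exact isOpen_ne_fun (by fun_prop) continuous_const
  · exact isOpen_ne_fun (by fun_prop) continuous_const
  · intro p
    by_contra h
    rw [not_or] at h
    obtain ⟨h1, h2⟩ := h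
    have h1' : (p.1.1, p.1.2.1) = ((0, 0) : ℂ × ℂ) := by
      by_contra h3
      exact h1 h3
    have h2' : p.1.2.2 = 0 := by
      by_contra h3
      exact h2 h3
    have h4 := p.2
    rw [Prod.mk.injEq] at h1'
    simp only [nsq, h1'.1, h1'.2, h2'] at h4
    norm_num at h4
  · exact isOpen_ne_fun (by fun_prop) continuous_const
  · exact isOpen_ne_fun (by fun_prop) continuous_const
  · intro p
    by_contra h
    rw [not_or] at h
    obtain ⟨h1, h2⟩ := h
    have h1' : p.1.2.2 = Complex.I := by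
      by_contra h3
      exact h1 h3
    have h2' : p.1.2.2 = -Complex.I := by
      by_contra h3
      exact h2 h3
    rw [h1'] at h2'
    have := congrArg Complex.im h2'
    norm_num at this
  · exact isOpen_ne_fun (by fun_prop) continuous_const
  · exact isOpen_ne_fun (by fun_prop) continuous_const
  · intro p
    by_contra h
    rw [not_or] at h
    obtain ⟨h1, h2⟩ := h
    have h1' : p.1.2 = 1 := by
      by_contra h3
      exact h1 h3
    have h2' : p.1.2 = -1 := by
      by_contra h3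
      exact h2 h3
    rw [h1'] at h2'
    norm_num at h2'

end Pool.Agent.Helper534.LS
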