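import Pool.Agent.Helper534.L5.Defs5
import Pool.Agent.Helper534.LS.P_hmap_comp
import Pool.Agent.Helper534.LS.P_mv_nat
import Pool.Agent.Helper534.LS.P_hh_contr
import Pool.Agent.Helper534.LS.P_circ_cov
import Pool.Agent.Helper534.LS.P_sig_spec
import Pool.Agent.Helper534.LS.P_sig_nat
import Pool.Agent.Helper534.L5.P_s5_cov
import Pool.Agent.Helper534.L5.P_rot_invar
import Pool.Agent.Helper534.L5.P_ci_facts
import Pool.Agent.Helper534.L5.P_fX_facts

open MeasureTheory

namespace Pool.Agent.Helper534.LS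



/-- the rotated family -/
noncomputable def det_one_Phi (e : C(Circle × HL5, S5)) (F : C(Circle × S3, HL5)) :
    C(Circle × (Circle × S3), S5) := e.comp (idx F)

noncomputable def det_one_Phir (e : C(Circle × HL5, S5)) (F : C(Circle × S3, HL5)) :
    C(Circle × (Circle × S3), S5) :=
  ⟨fun p => det_one_Phi e F (cI * p.1, p.2), by fun_prop⟩

theorem det_one_val (e) (he : IsEv e) (F) (hF : IsX F) (p : Circle × S3) (t : unitInterval) :
    (det_one_Phi e F (ci t, p)).1 = fX p.1 p.2 t := by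
  have h1 : det_one_Phi e F (ci t, p) = e (ci t, F p) := rfl
  rw [h1, he (F p) t, hF p t]

theorem det_one_cI_val : ((cI : Circle) : ℂ) = Complex.I := rfl
theorem det_one_cJ_val : ((cJ : Circle) : ℂ) = -Complex.I := rfl

theorem det_one_hU (e) (he : IsEv e) (F) (hF : IsX F) :
    ∀ x ∈ cU (Circle × S3), det_one_Phir e F x ∈ UI := by
  intro x hx hc
  apply hx
  obtain ⟨t, ht⟩ := ci_facts.2.2.2.2.1 (cI * x.1)
  have h1 : (det_one_Phir e F x) = det_one_Phi e F (ci t, x.2) := by
    rw [ht]; rfl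
  rw [h1, det_one_val e he F hF] at hc
  have h2 := fX_facts.2.2.2.2.2.1 _ _ _ hc
  rw [ht, Circle.coe_mul, det_one_cI_val] at h2
  have h4 : Complex.I * ((x.1 : ℂ) - 1) = 0 := by rw [mul_sub, h2]; ring
  rcases mul_eq_zero.mp h4 with h5 | h5
  · exact absurd h5 Complex.I_ne_zero
  · linear_combination h5

theorem det_one_hV (e) (he : IsEv e) (F) (hF : IsX F) :
    ∀ x ∈ cV (Circle × S3), det_one_Phir e F x ∈ VI := by
  intro x hx hc
  apply hx
  obtain ⟨t, ht⟩ := ci_facts.2.2.2.2.1 (cI * x.1)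
  have h1 : (det_one_Phir e F x) = det_one_Phi e F (ci t, x.2) := by
    rw [ht]; rfl
  rw [h1, det_one_val e he F hF] at hc
  have h2 := fX_facts.2.2.2.2.2.2 _ _ _ hc
  rw [ht, Circle.coe_mul, det_one_cI_val] at h2
  have h4 : Complex.I * ((x.1 : ℂ) + 1) = 0 := by rw [mul_add, h2]; ring
  rcases mul_eq_zero.mp h4 with h5 | h5
  · exact absurd h5 Complex.I_ne_zero
  · linear_combination h5

/-- restriction to the intersections -/
noncomputable def det_one_f (e) (he : IsEv e) (F) (hF : IsX F) :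
    C(↥(cU (Circle × S3) ∩ cV (Circle × S3)), ↥(UI ∩ VI)) :=
  ⟨fun x => ⟨det_one_Phir e F x.1, det_one_hU e he F hF _ x.2.1, det_one_hV e he F hF _ x.2.2⟩,
    Continuous.subtype_mk ((det_one_Phir e F).continuous.comp continuous_subtype_val) _⟩

theorem det_one_kP (e) (he : IsEv e) (F) (hF : IsX F) (ψ) (hψ : IsPs ψ) :
    (det_one_f e he F hF).comp (kP (Circle × S3)) = ψ := by
  apply ContinuousMap.ext
  intro p
  apply Subtype.ext
  apply Subtype.ext
  rw [hψ p]
  have h0 : (((det_one_f e he F hF).comp (kP (Circle × S3))) p).1.1 =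
      (det_one_Phi e F (cI * cI, p)).1 := rfl
  rw [h0]
  have h1 : cI * cI = ci (1 / 2) := by
    apply Circle.ext
    rw [ci_facts.2.2.2.1, Circle.coe_mul, det_one_cI_val, Complex.I_mul_I]
  have hh : (1 / 2 : ℝ) ∈ Set.Icc (0 : ℝ) 1 := by constructor <;> norm_num
  have h2 := det_one_val e he F hF p ⟨1 / 2, hh⟩
  have h3 : (((⟨1 / 2, hh⟩ : unitInterval)) : ℝ) = 1 / 2 := rfl
  rw [h3] at h2
  rw [h1, h2]
  exact fX_facts.2.2.2.2.1 _ _

theorem det_one_kM (e) (he : IsEv e) (F) (hF : IsX F) (w : HH (Circle × S3) 4) :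
    hmap ((det_one_f e he F hF).comp (kM (Circle × S3))) 4 w = 0 := by
  have h1 : cI * cJ = ci ((0 : unitInterval) : ℝ) := by
    apply Circle.ext
    have : (((0 : unitInterval)) : ℝ) = 0 := rfl
    rw [this, ci_facts.2.1, Circle.coe_mul, det_one_cI_val, det_one_cJ_val]
    simp
  have hval : ∀ p : Circle × S3, ((((det_one_f e he F hF).comp (kM (Circle × S3))) p).1.1 : C3) =
      (0, 0, 1) := by
    intro p
    have h0 : (((det_one_f e he F hF).comp (kM (Circle × S3))) p).1.1 =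
        (det_one_Phi e F (cI * cJ, p)).1 := rfl
    rw [h0, h1, det_one_val e he F hF p 0]
    exact fX_facts.2.1 _ _
  have hval2 : ∀ p q : Circle × S3, (((det_one_f e he F hF).comp (kM (Circle × S3))) p) =
      (((det_one_f e he F hF).comp (kM (Circle × S3))) q) := by
    intro p q
    apply Subtype.ext
    apply Subtype.ext
    rw [hval, hval]
  have hfac : (det_one_f e he F hF).comp (kM (Circle × S3)) =
      (ContinuousMap.const Unit
        (((det_one_f e he F hF).comp (kM (Circle × S3))) ((1 : Circle), y0))).comp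
        (ContinuousMap.const (Circle × S3) ()) := by
    apply ContinuousMap.ext
    intro p
    exact hval2 p _
  rw [hfac, hmap_comp]
  rw [hh_contr (X := Unit) 3 (hmap (ContinuousMap.const (Circle × S3) ()) 4 w)]
  exact map_zero _

theorem det_one (e) (he : IsEv e) (F) (hF : IsX F) (ψ) (hψ : IsPs ψ) (z : HH S3 3) :
    delta UI VI 4 (EE e (hmap F 4 (sig S3 3 z))) = hmap ψ 4 (sig S3 3 z) := by
  have hEE : EE e (hmap F 4 (sig S3 3 z)) =
      hmap (det_one_Phir e F) 5 (sig (Circle × S3) 4 (sig S3 3 z)) := by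
    have h1 : EE e (hmap F 4 (sig S3 3 z)) = hmap e 5 (sig HL5 4 (hmap F 4 (sig S3 3 z))) := rfl
    rw [h1, ← sig_nat F 4 (sig S3 3 z), ← hmap_comp]
    rw [rot_invar (det_one_Phi e F) (det_one_Phir e F) cI (fun p => rfl) 5]
    rfl
  rw [hEE]
  obtain ⟨hcU, hcV, hcov⟩ := circ_cov (Circle × S3)
  obtain ⟨hUI, hVI, hcov'⟩ := s5_cov.2.1
  rw [mv_nat (cU (Circle × S3)) (cV (Circle × S3)) hcU hcV hcov UI VI hUI hVI hcov'
    (det_one_Phir e F) (det_one_hU e he F hF) (det_one_hV e he F hF) (det_one_f e he F hF)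
    (fun x => rfl) 4]
  rw [(sig_spec (Circle × S3) 4 (sig S3 3 z)).2, map_sub, ← hmap_comp, ← hmap_comp,
    det_one_kM e he F hF, det_one_kP e he F hF ψ hψ, sub_zero]

end Pool.Agent.Helper534.LS
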