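import Pool.Agent.Helper534.L5.Defs5
import Pool.Agent.Helper534.LS.P_hmap_comp
import Pool.Agent.Helper534.LS.P_mv_nat
import Pool.Agent.Helper534.LS.P_hh_contr
import Pool.Agent.Helper534.LS.P_circ_cov
import Pool.Agent.Helper534.LS.P_sig_spec
import Pool.Agent.Helper534.L5.P_s5_cov

open MeasureTheory

namespace Pool.Agent.Helper534.LS



theorem det_two_pos (x : ↥(UP ∩ VP)) : 0 < ‖x.1.1.1.1‖ ^ 2 + ‖x.1.1.1.2‖ ^ 2 := by
  have h1 := x.1.2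
  have h2 : x.1.1.2 ≠ 1 := x.2.1
  have h3 : x.1.1.2 ≠ -1 := x.2.2
  have h4 : x.1.1.2 ^ 2 ≠ 1 := by
    intro h
    have h' : (x.1.1.2 - 1) * (x.1.1.2 + 1) = 0 := by linear_combination h
    rcases mul_eq_zero.1 h' with h | h
    · exact h2 (by linarith)
    · exact h3 (by linarith)
  have h5 : 0 ≤ ‖x.1.1.1.1‖ ^ 2 + ‖x.1.1.1.2‖ ^ 2 := by positivity
  rcases eq_or_lt_of_le h5 with h6 | h6
  · exfalso
    apply h4
    linarith
  · exact h6

/-- the retraction onto the three sphere -/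
noncomputable def det_two_r : C(↥(UP ∩ VP), S3) :=
  ⟨fun x => ⟨((((Real.sqrt (‖x.1.1.1.1‖ ^ 2 + ‖x.1.1.1.2‖ ^ 2))⁻¹ : ℝ) : ℂ) * x.1.1.1.1,
      (((Real.sqrt (‖x.1.1.1.1‖ ^ 2 + ‖x.1.1.1.2‖ ^ 2))⁻¹ : ℝ) : ℂ) * x.1.1.1.2), by
    have h := det_two_pos x
    simp only [norm_mul, Complex.norm_real, mul_pow, norm_inv, inv_pow, Real.norm_eq_abs, sq_abs]
    rw [Real.sq_sqrt h.le]
    field_simp⟩, by
    have hc : Continuous fun x : ↥(UP ∩ VP) => (Real.sqrt (‖x.1.1.1.1‖ ^ 2 + ‖x.1.1.1.2‖ ^ 2))⁻¹ := by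
      refine Continuous.inv₀ (by fun_prop) fun x => ?_
      exact (Real.sqrt_pos.2 (det_two_pos x)).ne'
    have hc2 : Continuous fun x : ↥(UP ∩ VP) =>
        (((Real.sqrt (‖x.1.1.1.1‖ ^ 2 + ‖x.1.1.1.2‖ ^ 2))⁻¹ : ℝ) : ℂ) :=
      Complex.continuous_ofReal.comp hc
    refine Continuous.subtype_mk ?_ _
    exact (hc2.mul (by fun_prop)).prodMk (hc2.mul (by fun_prop))⟩

theorem det_two_re {θ : Circle} (h : (θ : ℂ).re = 1) : (θ : ℂ) = 1 := by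
  have h1 : ‖(θ : ℂ)‖ = 1 := Circle.norm_coe θ
  have h2 : (θ : ℂ).re ^ 2 + (θ : ℂ).im ^ 2 = 1 := by
    have h3 : ‖(θ : ℂ)‖ ^ 2 = 1 := by rw [h1]; norm_num
    rw [← Complex.normSq_eq_norm_sq, Complex.normSq_apply] at h3
    linarith
  have h4 : (θ : ℂ).im = 0 := by
    rw [h] at h2
    have : (θ : ℂ).im ^ 2 = 0 := by linarith
    exact pow_eq_zero_iff (two_ne_zero) |>.1 this
  exact Complex.ext (by rw [h]; simp) (by rw [h4]; simp)

theorem det_two_re' {θ : Circle} (h : (θ : ℂ).re = -1) : (θ : ℂ) = -1 := by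
  have h1 : ‖(θ : ℂ)‖ = 1 := Circle.norm_coe θ
  have h2 : (θ : ℂ).re ^ 2 + (θ : ℂ).im ^ 2 = 1 := by
    have h3 : ‖(θ : ℂ)‖ ^ 2 = 1 := by rw [h1]; norm_num
    rw [← Complex.normSq_eq_norm_sq, Complex.normSq_apply] at h3
    linarith
  have h4 : (θ : ℂ).im = 0 := by
    rw [h] at h2
    have : (θ : ℂ).im ^ 2 = 0 := by linarith
    exact pow_eq_zero_iff (two_ne_zero) |>.1 this
  exact Complex.ext (by rw [h]; simp) (by rw [h4]; simp)

theorem det_two_const {X Y : Type} [TopologicalSpace X] [TopologicalSpace Y] (y : Y) (n : ℕ)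
    (z : HH X (n + 1)) : hmap (ContinuousMap.const X y) (n + 1) z = 0 := by
  have h1 : (ContinuousMap.const X y : C(X, Y)) =
      (ContinuousMap.const Unit y).comp (ContinuousMap.const X ()) := by
    ext x; rfl
  rw [h1, hmap_comp, hh_contr n (hmap (ContinuousMap.const X ()) (n + 1) z), map_zero]

theorem det_two_qm (y : S3) : ‖(qm 0 1 y.1).1‖ ^ 2 + ‖(qm 0 1 y.1).2‖ ^ 2 = 1 := by
  have h := y.2
  simp only [qm, zero_mul, one_mul, zero_sub, zero_add, norm_neg, norm_star]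
  linarith

theorem det_two (f : C(Circle × S3, S4))
    (hf : ∀ p : Circle × S3, (f p).1 = (qm 0 (|(p.1 : ℂ).im| : ℝ) (hy p.1 p.2).1, (p.1 : ℂ).re))
    (j3) (hj : IsJ3 j3) : ∃ T : HH S4 4 →ₗ[ℤ] HH S3 3, ∀ z : HH S3 3,
      T (hmap f 4 (sig S3 3 z)) = hmap j3 3 z := by
  obtain ⟨-, -, hUP, hVP, hcov⟩ := s5_cov
  obtain ⟨hcU, hcV, hccov⟩ := circ_cov S3
  have hfU : ∀ x ∈ cU S3, f x ∈ UP := by
    intro x hx h
    rw [hf x] at h
    exact hx (det_two_re h)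
  have hfV : ∀ x ∈ cV S3, f x ∈ VP := by
    intro x hx h
    rw [hf x] at h
    exact hx (det_two_re' h)
  let f' : C(↥(cU S3 ∩ cV S3), ↥(UP ∩ VP)) :=
    ⟨fun x => ⟨f x.1, hfU _ x.2.1, hfV _ x.2.2⟩, by
      refine Continuous.subtype_mk ?_ _
      exact f.continuous.comp continuous_subtype_val⟩
  refine ⟨(hmap det_two_r 3) ∘ₗ (delta UP VP 3), fun z => ?_⟩
  rw [LinearMap.comp_apply]
  have e1 : delta UP VP 3 (hmap f 4 (sig S3 3 z)) =
      hmap f' 3 (delta (cU S3) (cV S3) 3 (sig S3 3 z)) :=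
    mv_nat (cU S3) (cV S3) hcU hcV hccov UP VP hUP hVP hcov f hfU hfV f' (fun x => rfl) 3
      (sig S3 3 z)
  rw [e1, (sig_spec S3 3 z).2, map_sub, map_sub, ← hmap_comp, ← hmap_comp, ← hmap_comp,
    ← hmap_comp]
  have hr : ∀ (x : ↥(UP ∩ VP)) (y : S3), x.1.1.1 = qm 0 1 y.1 → (det_two_r x).1 = qm 0 1 y.1 := by
    intro x y hx
    have h1 : ‖x.1.1.1.1‖ ^ 2 + ‖x.1.1.1.2‖ ^ 2 = 1 := by
      rw [hx]; exact det_two_qm y
    change (((((Real.sqrt (‖x.1.1.1.1‖ ^ 2 + ‖x.1.1.1.2‖ ^ 2))⁻¹ : ℝ) : ℂ) * x.1.1.1.1,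
      (((Real.sqrt (‖x.1.1.1.1‖ ^ 2 + ‖x.1.1.1.2‖ ^ 2))⁻¹ : ℝ) : ℂ) * x.1.1.1.2) : ℂ × ℂ) = _
    rw [h1, Real.sqrt_one, inv_one, Complex.ofReal_one, one_mul, one_mul]
    exact hx
  have e2 : (det_two_r.comp f').comp (kP S3) = j3 := by
    ext1 y
    apply Subtype.ext
    rw [hj y]
    refine hr _ y ?_
    change (f (cI, y)).1.1 = _
    rw [hf]
    have h1 : ((cI : Circle) : ℂ) = Complex.I := rfl
    simp only [h1, hy, Complex.I_im]
    norm_num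
  have e3 : (det_two_r.comp f').comp (kM S3) =
      ContinuousMap.const S3 (det_two_r (f' (kM S3 y0))) := by
    ext1 y
    apply Subtype.ext
    have h0 : ∀ y : S3, (det_two_r (f' (kM S3 y))).1 = qm 0 1 y0.1 := by
      intro y
      refine hr _ y0 ?_
      change (f (cJ, y)).1.1 = _
      rw [hf]
      have h1 : ((cJ : Circle) : ℂ) = -Complex.I := rfl
      simp only [h1, hy, Complex.neg_im, Complex.I_im]
      norm_num
    change (det_two_r (f' (kM S3 y))).1 = (det_two_r (f' (kM S3 y0))).1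
    rw [h0, h0]
  rw [e2, e3, det_two_const _ 2 z, sub_zero]

end Pool.Agent.Helper534.LS
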