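import Pool.Agent.Helper534.L5.Defs5

open MeasureTheory

namespace Pool.Agent.Helper534.LS



theorem j3_exists : ∃ f, IsJ3 f ∧ ∃ g : C(S3, S3), ∀ y, g (f y) = y := by
  have hf : ∀ y : S3, ‖(qm 0 1 y.1).1‖ ^ 2 + ‖(qm 0 1 y.1).2‖ ^ 2 = 1 := by
    intro y
    have h := y.2
    simp only [qm, zero_mul, one_mul, zero_sub, zero_add, norm_neg, norm_star]
    linarith
  have hg : ∀ y : S3, ‖((star y.1.2, -star y.1.1) : ℂ × ℂ).1‖ ^ 2 +
      ‖((star y.1.2, -star y.1.1) : ℂ × ℂ).2‖ ^ 2 = 1 := by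
    intro y
    have h := y.2
    simp only [norm_neg, norm_star]
    linarith
  refine ⟨⟨fun y => ⟨qm 0 1 y.1, hf y⟩, ?_⟩, fun y => rfl,
    ⟨fun y => ⟨(star y.1.2, -star y.1.1), hg y⟩, ?_⟩, fun y => ?_⟩
  · unfold qm
    fun_prop
  · fun_prop
  · apply Subtype.ext
    change ((star (qm 0 1 y.1).2, -star (qm 0 1 y.1).1) : ℂ × ℂ) = y.1
    apply Prod.ext
    · simp [qm]
    · simp [qm]

end Pool.Agent.Helper534.LS
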