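import Pool.Agent.Helper534.L5.Defs5

open MeasureTheory

namespace Pool.Agent.Helper534.LS



theorem hy_cont {Z : Type} [TopologicalSpace Z] (F : C(ℝ × S3, Z))
    (h1 : ∀ y, F (1, y) = F (1, y0)) (h2 : ∀ y, F (-1, y) = F (-1, y0)) :
    Continuous fun p : Circle × S3 => F ((p.1 : ℂ).re, hy p.1 p.2) := by
  have h : (fun p : Circle × S3 => F ((p.1 : ℂ).re, hy p.1 p.2)) = fun p : Circle × S3 =>
      if (0 : ℝ) ≤ (p.1 : ℂ).im then F ((p.1 : ℂ).re, p.2) else F ((p.1 : ℂ).re, y0) := by
    funext p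
    unfold hy
    split_ifs <;> rfl
  rw [h]
  have hre : Continuous fun p : Circle × S3 => ((p.1 : ℂ)).re :=
    Complex.continuous_re.comp (continuous_subtype_val.comp continuous_fst)
  have him : Continuous fun p : Circle × S3 => ((p.1 : ℂ)).im :=
    Complex.continuous_im.comp (continuous_subtype_val.comp continuous_fst)
  refine Continuous.if_le (F.continuous.comp (hre.prodMk continuous_snd))
    (F.continuous.comp (hre.prodMk continuous_const)) continuous_const him ?_
  rintro ⟨θ, y⟩ h0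
  have h0' : (θ : ℂ).im = 0 := h0.symm
  have hn : (θ : ℂ).re ^ 2 = 1 := by
    have h3 : Complex.normSq (θ : ℂ) = 1 := by
      rw [Complex.normSq_eq_norm_sq, Circle.norm_coe]; norm_num
    rw [Complex.normSq_apply, h0'] at h3
    nlinarith
  show F ((θ : ℂ).re, y) = F ((θ : ℂ).re, y0)
  have h5 : (θ : ℂ).re = 1 ∨ (θ : ℂ).re = -1 := by
    have h6 : ((θ : ℂ).re - 1) * ((θ : ℂ).re + 1) = 0 := by ring_nf; linarith
    rcases mul_eq_zero.1 h6 with h | h
    · left; linarith
    · right; linarith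
  rcases h5 with h4 | h4
  · rw [h4]; exact h1 y
  · rw [h4]; exact h2 y

end Pool.Agent.Helper534.LS
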