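import Pool.Agent.Helper534.L5.Defs5
import Pool.Agent.Helper534.L5.P_hy_cont

open MeasureTheory

namespace Pool.Agent.Helper534.LS



theorem ps_exists_cont : Continuous fun q : ℝ × S3 =>
    mk3 (qm 0 ((Real.sqrt (1 - q.1 ^ 2) : ℝ) : ℂ) q.2.1) ((q.1 : ℝ) : ℂ) := by
  unfold mk3 qm
  have h1 : Continuous fun q : ℝ × S3 => q.2.1 := continuous_subtype_val.comp continuous_snd
  have h2 : Continuous fun q : ℝ × S3 => ((Real.sqrt (1 - q.1 ^ 2) : ℝ) : ℂ) := by fun_prop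
  have h3 : Continuous fun q : ℝ × S3 => ((q.1 : ℝ) : ℂ) := by fun_prop
  refine Continuous.prodMk ?_ (Continuous.prodMk ?_ h3)
  · exact (continuous_const.mul h1.fst).sub (h2.mul h1.snd.star)
  · exact (continuous_const.mul h1.snd).add (h2.mul h1.fst.star)

theorem ps_exists_abs (θ : Circle) :
    Real.sqrt (1 - (θ : ℂ).re ^ 2) = |(θ : ℂ).im| := by
  have h1 : (θ : ℂ).re ^ 2 + (θ : ℂ).im ^ 2 = 1 := by
    have h := Circle.norm_coe θ
    have h2 : Complex.normSq (θ : ℂ) = 1 := by rw [Complex.normSq_eq_norm_sq, h]; norm_num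
    rw [Complex.normSq_apply] at h2
    nlinarith
  have h3 : 1 - (θ : ℂ).re ^ 2 = (θ : ℂ).im ^ 2 := by linarith
  rw [h3, Real.sqrt_sq_eq_abs]

theorem ps_exists : ∃ ψ, IsPs ψ := by
  have hc := hy_cont (Z := C3) ⟨_, ps_exists_cont⟩
    (by
      intro y
      change mk3 (qm 0 ((Real.sqrt (1 - (1:ℝ) ^ 2) : ℝ) : ℂ) y.1) (((1:ℝ) : ℝ) : ℂ) =
        mk3 (qm 0 ((Real.sqrt (1 - (1:ℝ) ^ 2) : ℝ) : ℂ) y0.1) (((1:ℝ) : ℝ) : ℂ)
      unfold mk3 qm
      simp)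
    (by
      intro y
      change mk3 (qm 0 ((Real.sqrt (1 - (-1:ℝ) ^ 2) : ℝ) : ℂ) y.1) (((-1:ℝ) : ℝ) : ℂ) =
        mk3 (qm 0 ((Real.sqrt (1 - (-1:ℝ) ^ 2) : ℝ) : ℂ) y0.1) (((-1:ℝ) : ℝ) : ℂ)
      unfold mk3 qm
      simp)
  have hc' : Continuous fun p : Circle × S3 =>
      mk3 (qm 0 (|(p.1 : ℂ).im| : ℝ) (hy p.1 p.2).1) ((p.1 : ℂ).re : ℝ) := by
    refine hc.congr fun p => ?_
    change mk3 (qm 0 ((Real.sqrt (1 - (p.1 : ℂ).re ^ 2) : ℝ) : ℂ) (hy p.1 p.2).1)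
      (((p.1 : ℂ).re : ℝ) : ℂ) = _
    rw [ps_exists_abs]
  have hn : ∀ p : Circle × S3,
      nsq (mk3 (qm 0 (|(p.1 : ℂ).im| : ℝ) (hy p.1 p.2).1) ((p.1 : ℂ).re : ℝ)) = 1 := by
    intro p
    have h1 := (hy p.1 p.2).2
    have h2 : (p.1 : ℂ).re ^ 2 + (p.1 : ℂ).im ^ 2 = 1 := by
      have h := Circle.norm_coe p.1
      have h2 : Complex.normSq (p.1 : ℂ) = 1 := by rw [Complex.normSq_eq_norm_sq, h]; norm_num
      rw [Complex.normSq_apply] at h2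
      nlinarith
    unfold nsq mk3 qm
    simp only [zero_mul, zero_sub, zero_add, norm_neg, norm_mul, norm_star, Complex.norm_real,
      Real.norm_eq_abs, abs_abs, mul_pow, sq_abs]
    nlinarith
  refine ⟨⟨fun p => ⟨⟨mk3 (qm 0 (|(p.1 : ℂ).im| : ℝ) (hy p.1 p.2).1) ((p.1 : ℂ).re : ℝ), hn p⟩,
    ?_⟩, ?_⟩, fun p => rfl⟩
  · constructor
    · intro h
      have h' : (((p.1 : ℂ).re : ℝ) : ℂ) = Complex.I := h
      have := congrArg Complex.im h'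
      simp at this
    · intro h
      have h' : (((p.1 : ℂ).re : ℝ) : ℂ) = -Complex.I := h
      have := congrArg Complex.im h'
      simp at this
  · exact Continuous.subtype_mk (Continuous.subtype_mk hc' _) _

end Pool.Agent.Helper534.LS
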