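import Pool.Agent.Helper534.L5.Defs5

open MeasureTheory

namespace Pool.Agent.Helper534.LS



theorem r4_exists_pos (q : ↥(UI ∩ VI)) :
    0 < ‖q.1.1.1‖ ^ 2 + ‖q.1.1.2.1‖ ^ 2 + q.1.1.2.2.re ^ 2 := by
  by_contra hN
  have h1 : 0 ≤ ‖q.1.1.1‖ ^ 2 := by positivity
  have h2 : 0 ≤ ‖q.1.1.2.1‖ ^ 2 := by positivity
  have h3 : 0 ≤ q.1.1.2.2.re ^ 2 := by positivity
  have e1 : ‖q.1.1.1‖ ^ 2 = 0 := by linarith
  have e2 : ‖q.1.1.2.1‖ ^ 2 = 0 := by linarith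
  have e3 : q.1.1.2.2.re ^ 2 = 0 := by linarith
  have hre : q.1.1.2.2.re = 0 := by
    rcases pow_eq_zero_iff (two_ne_zero) |>.1 e3 with h
    exact h
  have hn := q.1.2
  unfold nsq at hn
  rw [e1, e2] at hn
  have hz : ‖q.1.1.2.2‖ ^ 2 = q.1.1.2.2.re ^ 2 + q.1.1.2.2.im ^ 2 := by
    rw [← Complex.normSq_eq_norm_sq, Complex.normSq_apply]; ring
  rw [hz, e3] at hn
  have him : (q.1.1.2.2.im - 1) * (q.1.1.2.2.im + 1) = 0 := by linarith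
  rcases mul_eq_zero.1 him with h | h
  · apply q.2.1
    apply Complex.ext
    · simpa using hre
    · simp; linarith
  · apply q.2.2
    apply Complex.ext
    · simpa using hre
    · simp; linarith

theorem r4_exists (ψ) (hψ : IsPs ψ) : ∃ r : C(↥(UI ∩ VI), S4), ∀ p : Circle × S3,
    (r (ψ p)).1 = (qm 0 (|(p.1 : ℂ).im| : ℝ) (hy p.1 p.2).1, (p.1 : ℂ).re) := by
  have hcN : Continuous fun q : ↥(UI ∩ VI) =>
      ‖q.1.1.1‖ ^ 2 + ‖q.1.1.2.1‖ ^ 2 + q.1.1.2.2.re ^ 2 := by fun_prop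
  have hcI : Continuous fun q : ↥(UI ∩ VI) =>
      (Real.sqrt (‖q.1.1.1‖ ^ 2 + ‖q.1.1.2.1‖ ^ 2 + q.1.1.2.2.re ^ 2))⁻¹ := by
    refine (Real.continuous_sqrt.comp hcN).inv₀ ?_
    intro q
    exact (Real.sqrt_pos.2 (r4_exists_pos q)).ne'
  let g : ↥(UI ∩ VI) → ℝ := fun q =>
      (Real.sqrt (‖q.1.1.1‖ ^ 2 + ‖q.1.1.2.1‖ ^ 2 + q.1.1.2.2.re ^ 2))⁻¹
  have hg2 : ∀ q, g q ^ 2 * (‖q.1.1.1‖ ^ 2 + ‖q.1.1.2.1‖ ^ 2 + q.1.1.2.2.re ^ 2) = 1 := by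
    intro q
    simp only [g]
    rw [inv_pow, Real.sq_sqrt (r4_exists_pos q).le]
    exact inv_mul_cancel₀ (r4_exists_pos q).ne'
  have hgc : Continuous g := hcI
  refine ⟨⟨fun q => ⟨(((g q : ℂ) * q.1.1.1, (g q : ℂ) * q.1.1.2.1), g q * q.1.1.2.2.re), ?_⟩,
    ?_⟩, ?_⟩
  · have := hg2 q
    simp only [norm_mul, Complex.norm_real, Real.norm_eq_abs, mul_pow, sq_abs]
    linarith
  · refine Continuous.subtype_mk ?_ _
    have hgC : Continuous fun q => ((g q : ℝ) : ℂ) := Complex.continuous_ofReal.comp hgc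
    have c1 : Continuous fun q : ↥(UI ∩ VI) => q.1.1.1 := by fun_prop
    have c2 : Continuous fun q : ↥(UI ∩ VI) => q.1.1.2.1 := by fun_prop
    have c3 : Continuous fun q : ↥(UI ∩ VI) => q.1.1.2.2.re := by fun_prop
    exact ((hgC.mul c1).prodMk (hgC.mul c2)).prodMk (hgc.mul c3)
  · intro p
    have hp := hψ p
    have hn := (ψ p).1.2
    have hg1 : g (ψ p) = 1 := by
      have hN : ‖(ψ p).1.1.1‖ ^ 2 + ‖(ψ p).1.1.2.1‖ ^ 2 + (ψ p).1.1.2.2.re ^ 2 = 1 := by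
        unfold nsq at hn
        have hz : ‖(ψ p).1.1.2.2‖ ^ 2 = (ψ p).1.1.2.2.re ^ 2 := by
          rw [hp]
          simp only [mk3, Complex.norm_real, Complex.ofReal_re, Real.norm_eq_abs, sq_abs]
        rw [← hz]
        exact hn
      simp only [g]
      rw [hN]
      simp
    show (((g (ψ p) : ℂ) * (ψ p).1.1.1, (g (ψ p) : ℂ) * (ψ p).1.1.2.1),
      g (ψ p) * (ψ p).1.1.2.2.re) = _
    rw [hg1, hp]
    simp only [mk3, Complex.ofReal_one, one_mul, Complex.ofReal_re]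

end Pool.Agent.Helper534.LS
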