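import Pool.Agent.Helper534.L5.Defs5

open MeasureTheory

namespace Pool.Agent.Helper534.LS



theorem tau_facts_c2 : ((Real.sqrt 2)⁻¹ : ℝ) ^ 2 = 1 / 2 := by
  rw [inv_pow, Real.sq_sqrt (by norm_num)]; norm_num

theorem tau_facts_cpos : 0 < ((Real.sqrt 2)⁻¹ : ℝ) := by positivity

theorem tau_facts_cc : Continuous (fun z : Circle => (z : ℂ)) := continuous_subtype_val

/-- the torus in the three sphere -/
noncomputable def tau_facts_tau : C(T2, ↥(U1 ∩ U2)) where
  toFun p := ⟨⟨(((Real.sqrt 2)⁻¹ : ℝ) * (p.1 : ℂ), ((Real.sqrt 2)⁻¹ : ℝ) * (p.2.1 : ℂ)), by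
      have h := tau_facts_c2
      have hp := tau_facts_cpos
      have h1 : ‖(p.1 : ℂ)‖ = 1 := Circle.norm_coe p.1
      have h2 : ‖(p.2.1 : ℂ)‖ = 1 := Circle.norm_coe p.2.1
      simp only [norm_mul, h1, h2, mul_one, Complex.norm_real, Real.norm_eq_abs, sq_abs]
      rw [h]; norm_num⟩, by
    have hp := tau_facts_cpos
    have hne : (((Real.sqrt 2)⁻¹ : ℝ) : ℂ) ≠ 0 := by
      exact_mod_cast hp.ne'
    constructor
    · exact mul_ne_zero hne (Circle.coe_ne_zero _)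
    · exact mul_ne_zero hne (Circle.coe_ne_zero _)⟩
  continuous_toFun := by
    refine Continuous.subtype_mk (Continuous.subtype_mk ?_ _) _
    refine Continuous.prodMk ?_ ?_
    · exact continuous_const.mul (tau_facts_cc.comp continuous_fst)
    · exact continuous_const.mul (tau_facts_cc.comp (continuous_fst.comp continuous_snd))

/-- the retraction -/
noncomputable def tau_facts_r : C(↥(U1 ∩ U2), T2) where
  toFun y := (⟨y.1.1.1 / (‖y.1.1.1‖ : ℂ), by
      refine mem_sphere_zero_iff_norm.mpr ?_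
      have h : ‖y.1.1.1‖ ≠ 0 := norm_ne_zero_iff.mpr y.2.1
      rw [norm_div, Complex.norm_real, norm_norm, div_self h]⟩,
    (⟨y.1.1.2 / (‖y.1.1.2‖ : ℂ), by
      refine mem_sphere_zero_iff_norm.mpr ?_
      have h : ‖y.1.1.2‖ ≠ 0 := norm_ne_zero_iff.mpr y.2.2
      rw [norm_div, Complex.norm_real, norm_norm, div_self h]⟩, ()))
  continuous_toFun := by
    have hc1 : Continuous (fun y : ↥(U1 ∩ U2) => y.1.1.1) :=
      continuous_fst.comp (continuous_subtype_val.comp continuous_subtype_val)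
    have hc2 : Continuous (fun y : ↥(U1 ∩ U2) => y.1.1.2) :=
      continuous_snd.comp (continuous_subtype_val.comp continuous_subtype_val)
    refine Continuous.prodMk ?_ (Continuous.prodMk ?_ continuous_const)
    · refine Continuous.subtype_mk ?_ _
      refine hc1.div (Complex.continuous_ofReal.comp hc1.norm) ?_
      intro y
      exact Complex.ofReal_ne_zero.mpr (norm_ne_zero_iff.mpr y.2.1)
    · refine Continuous.subtype_mk ?_ _
      refine hc2.div (Complex.continuous_ofReal.comp hc2.norm) ?_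
      intro y
      exact Complex.ofReal_ne_zero.mpr (norm_ne_zero_iff.mpr y.2.2)

/-- coefficient -/
noncomputable def tau_facts_a (s : ℝ) (m : ℝ) : ℝ := (1 - s) * ((Real.sqrt 2)⁻¹ / m) + s

theorem tau_facts_apos (s : unitInterval) (m : ℝ) (hm : 0 < m) : 0 < tau_facts_a s m := by
  have hp := tau_facts_cpos
  have h0 := s.2.1
  have h1 := s.2.2
  unfold tau_facts_a
  have : 0 < (Real.sqrt 2)⁻¹ / m := div_pos hp hm
  rcases eq_or_lt_of_le h0 with h | h
  · rw [← h]; simpa using this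
  · have : 0 ≤ (1 - (s : ℝ)) * ((Real.sqrt 2)⁻¹ / m) := mul_nonneg (by linarith) this.le
    linarith

/-- normalising factor -/
noncomputable def tau_facts_D (s : ℝ) (m n : ℝ) : ℝ :=
  Real.sqrt ((tau_facts_a s m * m) ^ 2 + (tau_facts_a s n * n) ^ 2)

theorem tau_facts_Dpos (s : unitInterval) (m n : ℝ) (hm : 0 < m) (hn : 0 < n) :
    0 < tau_facts_D s m n := by
  have h1 := mul_pos (tau_facts_apos s m hm) hm
  unfold tau_facts_D
  apply Real.sqrt_pos.mpr
  positivity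

/-- the homotopy -/
noncomputable def tau_facts_H : C(unitInterval × ↥(U1 ∩ U2), ↥(U1 ∩ U2)) where
  toFun q := ⟨⟨(((tau_facts_a q.1 ‖q.2.1.1.1‖ / tau_facts_D q.1 ‖q.2.1.1.1‖ ‖q.2.1.1.2‖ : ℝ) : ℂ)
        * q.2.1.1.1,
      ((tau_facts_a q.1 ‖q.2.1.1.2‖ / tau_facts_D q.1 ‖q.2.1.1.1‖ ‖q.2.1.1.2‖ : ℝ) : ℂ)
        * q.2.1.1.2), by
      have hm : 0 < ‖q.2.1.1.1‖ := norm_pos_iff.mpr q.2.2.1
      have hn : 0 < ‖q.2.1.1.2‖ := norm_pos_iff.mpr q.2.2.2
      have hD := tau_facts_Dpos q.1 _ _ hm hn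
      have hsq : tau_facts_D q.1 ‖q.2.1.1.1‖ ‖q.2.1.1.2‖ ^ 2 =
          (tau_facts_a q.1 ‖q.2.1.1.1‖ * ‖q.2.1.1.1‖) ^ 2 +
          (tau_facts_a q.1 ‖q.2.1.1.2‖ * ‖q.2.1.1.2‖) ^ 2 :=
        Real.sq_sqrt (by positivity)
      simp only [norm_mul, Complex.norm_real, Real.norm_eq_abs, mul_pow, sq_abs, div_pow]
      rw [mul_pow, mul_pow] at hsq
      rw [div_mul_eq_mul_div, div_mul_eq_mul_div, ← add_div, ← hsq, div_self (by positivity)]⟩, by
    have hm : 0 < ‖q.2.1.1.1‖ := norm_pos_iff.mpr q.2.2.1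
    have hn : 0 < ‖q.2.1.1.2‖ := norm_pos_iff.mpr q.2.2.2
    have hD := tau_facts_Dpos q.1 _ _ hm hn
    have ha := tau_facts_apos q.1 _ hm
    have hb := tau_facts_apos q.1 _ hn
    constructor
    · exact mul_ne_zero (Complex.ofReal_ne_zero.mpr (div_pos ha hD).ne') q.2.2.1
    · exact mul_ne_zero (Complex.ofReal_ne_zero.mpr (div_pos hb hD).ne') q.2.2.2⟩
  continuous_toFun := by
    have hs : Continuous (fun q : unitInterval × ↥(U1 ∩ U2) => (q.1 : ℝ)) :=
      continuous_subtype_val.comp continuous_fst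
    have hc1 : Continuous (fun q : unitInterval × ↥(U1 ∩ U2) => q.2.1.1.1) :=
      continuous_fst.comp (continuous_subtype_val.comp (continuous_subtype_val.comp continuous_snd))
    have hc2 : Continuous (fun q : unitInterval × ↥(U1 ∩ U2) => q.2.1.1.2) :=
      continuous_snd.comp (continuous_subtype_val.comp (continuous_subtype_val.comp continuous_snd))
    have ha : Continuous (fun q : unitInterval × ↥(U1 ∩ U2) => tau_facts_a q.1 ‖q.2.1.1.1‖) := by
      unfold tau_facts_a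
      refine ((continuous_const.sub hs).mul (continuous_const.div hc1.norm ?_)).add hs
      intro q
      exact norm_ne_zero_iff.mpr q.2.2.1
    have hb : Continuous (fun q : unitInterval × ↥(U1 ∩ U2) => tau_facts_a q.1 ‖q.2.1.1.2‖) := by
      unfold tau_facts_a
      refine ((continuous_const.sub hs).mul (continuous_const.div hc2.norm ?_)).add hs
      intro q
      exact norm_ne_zero_iff.mpr q.2.2.2
    have hD : Continuous (fun q : unitInterval × ↥(U1 ∩ U2) =>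
        tau_facts_D q.1 ‖q.2.1.1.1‖ ‖q.2.1.1.2‖) := by
      unfold tau_facts_D
      exact Real.continuous_sqrt.comp (((ha.mul hc1.norm).pow 2).add ((hb.mul hc2.norm).pow 2))
    have hDne : ∀ q : unitInterval × ↥(U1 ∩ U2),
        tau_facts_D q.1 ‖q.2.1.1.1‖ ‖q.2.1.1.2‖ ≠ 0 := fun q =>
      (tau_facts_Dpos q.1 _ _ (norm_pos_iff.mpr q.2.2.1) (norm_pos_iff.mpr q.2.2.2)).ne'
    refine Continuous.subtype_mk (Continuous.subtype_mk ?_ _) _
    refine Continuous.prodMk ?_ ?_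
    · exact (Complex.continuous_ofReal.comp (ha.div hD hDne)).mul hc1
    · exact (Complex.continuous_ofReal.comp (hb.div hD hDne)).mul hc2

theorem tau_facts : ∃ τ, IsTau τ ∧ ∃ r : C(↥(U1 ∩ U2), T2), (∀ p, r (τ p) = p) ∧
    (τ.comp r).Homotopic (ContinuousMap.id _) := by
  refine ⟨tau_facts_tau, fun p => rfl, tau_facts_r, ?_, ?_⟩
  · intro p
    have hp := tau_facts_cpos
    have h1 : ‖(p.1 : ℂ)‖ = 1 := Circle.norm_coe p.1
    have h2 : ‖(p.2.1 : ℂ)‖ = 1 := Circle.norm_coe p.2.1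
    have hne : (((Real.sqrt 2)⁻¹ : ℝ) : ℂ) ≠ 0 := by
      exact_mod_cast hp.ne'
    have key : ∀ z : ℂ, ‖z‖ = 1 → ((((Real.sqrt 2)⁻¹ : ℝ) : ℂ) * z) /
        ((‖(((Real.sqrt 2)⁻¹ : ℝ) : ℂ) * z‖ : ℝ) : ℂ) = z := by
      intro z hz
      rw [norm_mul, hz, mul_one, Complex.norm_real, Real.norm_of_nonneg hp.le,
        mul_div_assoc, mul_div_assoc', mul_comm, mul_div_assoc, div_self hne, mul_one]
    refine Prod.ext ?_ (Prod.ext ?_ (Subsingleton.elim _ _))
    · apply Circle.ext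
      exact key _ h1
    · apply Circle.ext
      exact key _ h2
  · refine ⟨{ toContinuousMap := tau_facts_H, map_zero_left := ?_, map_one_left := ?_ }⟩
    · intro y
      have hm : 0 < ‖y.1.1.1‖ := norm_pos_iff.mpr y.2.1
      have hn : 0 < ‖y.1.1.2‖ := norm_pos_iff.mpr y.2.2
      have ha : ∀ m : ℝ, tau_facts_a ((0 : unitInterval) : ℝ) m = (Real.sqrt 2)⁻¹ / m := by
        intro m; simp [tau_facts_a]
      have hD : tau_facts_D ((0 : unitInterval) : ℝ) ‖y.1.1.1‖ ‖y.1.1.2‖ = 1 := by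
        unfold tau_facts_D
        rw [ha, ha, div_mul_cancel₀ _ hm.ne', div_mul_cancel₀ _ hn.ne', tau_facts_c2]
        norm_num
      apply Subtype.ext
      apply Subtype.ext
      refine Prod.ext ?_ ?_
      · change ((tau_facts_a ((0 : unitInterval) : ℝ) ‖y.1.1.1‖ /
          tau_facts_D ((0 : unitInterval) : ℝ) ‖y.1.1.1‖ ‖y.1.1.2‖ : ℝ) : ℂ) * y.1.1.1 =
          (((Real.sqrt 2)⁻¹ : ℝ) : ℂ) * (y.1.1.1 / (‖y.1.1.1‖ : ℂ))
        rw [ha, hD, div_one, Complex.ofReal_div]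
        ring
      · change ((tau_facts_a ((0 : unitInterval) : ℝ) ‖y.1.1.2‖ /
          tau_facts_D ((0 : unitInterval) : ℝ) ‖y.1.1.1‖ ‖y.1.1.2‖ : ℝ) : ℂ) * y.1.1.2 =
          (((Real.sqrt 2)⁻¹ : ℝ) : ℂ) * (y.1.1.2 / (‖y.1.1.2‖ : ℂ))
        rw [ha, hD, div_one, Complex.ofReal_div]
        ring
    · intro y
      have ha : ∀ m : ℝ, tau_facts_a ((1 : unitInterval) : ℝ) m = 1 := by
        intro m; simp [tau_facts_a]
      have hD : tau_facts_D ((1 : unitInterval) : ℝ) ‖y.1.1.1‖ ‖y.1.1.2‖ = 1 := by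
        unfold tau_facts_D
        rw [ha, ha, one_mul, one_mul, y.1.2, Real.sqrt_one]
      apply Subtype.ext
      apply Subtype.ext
      refine Prod.ext ?_ ?_
      · change ((tau_facts_a ((1 : unitInterval) : ℝ) ‖y.1.1.1‖ /
          tau_facts_D ((1 : unitInterval) : ℝ) ‖y.1.1.1‖ ‖y.1.1.2‖ : ℝ) : ℂ) * y.1.1.1 = y.1.1.1
        rw [ha, hD]
        simp
      · change ((tau_facts_a ((1 : unitInterval) : ℝ) ‖y.1.1.2‖ /
          tau_facts_D ((1 : unitInterval) : ℝ) ‖y.1.1.1‖ ‖y.1.1.2‖ : ℝ) : ℂ) * y.1.1.2 = y.1.1.2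
        rw [ha, hD]
        simp

end Pool.Agent.Helper534.LS
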