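import Pool.Agent.Helper534.L5.Defs5
import Pool.Agent.Helper534.LS.P_hmap_comp
import Pool.Agent.Helper534.LS.P_hmap_id
import Pool.Agent.Helper534.LS.P_tor_gen
import Pool.Agent.Helper534.LS.P_tor_free
import Pool.Agent.Helper534.L5.P_tau_facts

open MeasureTheory

namespace Pool.Agent.Helper534.LS



theorem zeta_nondiv (z) (hz : IsZeta z) : (∀ c : HH S3 3, z ≠ (2 : ℤ) • c) ∧
    (∀ m : ℤ, m • z = 0 → m = 0) := by
  obtain ⟨τ, hτ, r, hr, _⟩ := tau_facts
  have hd := hz τ hτ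
  have hcomp : hmap r 2 (hmap τ 2 tor2) = tor2 := by
    rw [← hmap_comp]
    have h1 : r.comp τ = ContinuousMap.id _ := ContinuousMap.ext hr
    rw [h1, hmap_id]
  constructor
  · intro c hc
    obtain ⟨k, hk⟩ := tor_gen.2.1 (hmap r 2 (delta U1 U2 2 c))
    have h1 : hmap r 2 (delta U1 U2 2 z) = (2 : ℤ) • hmap r 2 (delta U1 U2 2 c) := by
      rw [hc, map_smul, map_smul]
    rw [hd, hcomp, hk, smul_smul] at h1
    have h2 : (1 - 2 * k) • tor2 = 0 := by
      rw [sub_smul, one_smul, ← h1, sub_self]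
    have h3 := (tor_free (1 - 2 * k)).1 h2
    omega
  · intro m hm
    have h1 : m • hmap r 2 (delta U1 U2 2 z) = 0 := by
      rw [← map_smul, ← map_smul, hm, map_zero, map_zero]
    rw [hd, hcomp] at h1
    exact (tor_free m).1 h1

end Pool.Agent.Helper534.LS
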