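import Pool.Agent.Helper534.L5.Defs5
import Pool.Agent.Helper534.LS.P_hmap_comp
import Pool.Agent.Helper534.LS.P_hmap_id
import Pool.Agent.Helper534.L5.P_zeta_nondiv
import Pool.Agent.Helper534.L5.P_ps_exists
import Pool.Agent.Helper534.L5.P_det_one
import Pool.Agent.Helper534.L5.P_r4_exists
import Pool.Agent.Helper534.L5.P_j3_exists
import Pool.Agent.Helper534.L5.P_det_two

open MeasureTheory

namespace Pool.Agent.Helper534.LS



theorem det (e) (he : IsEv e) (F) (hF : IsX F) (z) (hz : IsZeta z) :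
    (∀ c, EE e (hmap F 4 (sig S3 3 z)) ≠ (2 : ℤ) • c) ∧
    (∀ m : ℤ, m • EE e (hmap F 4 (sig S3 3 z)) = 0 → m = 0) := by
  obtain ⟨ψ, hψ⟩ := ps_exists
  obtain ⟨r4, hr4⟩ := r4_exists ψ hψ
  obtain ⟨j3, hj3, g, hg⟩ := j3_exists
  obtain ⟨T, hT⟩ := det_two (r4.comp ψ) (fun p => hr4 p) j3 hj3
  have hL : ∃ L : HH S5 5 →ₗ[ℤ] HH S3 3,
      L (EE e (hmap F 4 (sig S3 3 z))) = z := by
    refine ⟨(hmap g 3).comp (T.comp ((hmap r4 4).comp (delta UI VI 4))), ?_⟩
    show hmap g 3 (T (hmap r4 4 (delta UI VI 4 (EE e (hmap F 4 (sig S3 3 z)))))) = z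
    rw [det_one e he F hF ψ hψ z, ← hmap_comp, hT z, ← hmap_comp]
    have hid : g.comp j3 = ContinuousMap.id S3 := ContinuousMap.ext hg
    rw [hid, hmap_id]
  obtain ⟨L, hL⟩ := hL
  obtain ⟨h1, h2⟩ := zeta_nondiv z hz
  constructor
  · intro c hc
    apply h1 (L c)
    rw [← hL, hc, map_smul]
  · intro m hm
    apply h2 m
    have h3 := congrArg L hm
    rw [map_smul, hL, map_zero] at h3
    exact h3

end Pool.Agent.Helper534.LS
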