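import Pool.Agent.Helper534.L5.Defs5
import Pool.Agent.Helper534.L5.P_pt5_cont
import Pool.Agent.Helper534.L5.P_spd_facts

open MeasureTheory

namespace Pool.Agent.Helper534.LS



theorem spd_int_cont : Continuous fun q : C3 × C3 => spd q.1 q.2 := by
  unfold spd gM d0 d1 d2 d3
  apply Real.continuous_sqrt.comp
  refine Continuous.add ?_ (Continuous.mul continuous_const ?_)
  · apply Complex.continuous_re.comp
    fun_prop
  · refine Continuous.add ?_ ?_
    · refine Continuous.mul (continuous_const.mul (Complex.continuous_re.comp (by fun_prop)))
        (continuous_const.mul (Complex.continuous_re.comp (by fun_prop)))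
    · apply Complex.continuous_re.comp
      fun_prop

theorem spd_int_at (x : HL5) : Continuous fun t : unitInterval => at5 x t := by
  have : (fun t : unitInterval => at5 x t) =
    (fun q : (C3 × L2C) × unitInterval => pt5 q.1.1 q.1.2 q.2) ∘ (fun t => (x.1, t)) := rfl
  rw [this]
  exact pt5_cont.comp (by fun_prop)

theorem spd_int_meas (a : unitInterval → C3) (ha : Continuous a) (v : L2C) :
    AEStronglyMeasurable (fun t => spd (a t) ((v : unitInterval → C3) t))
      (volume : Measure unitInterval) := by
  have hv : AEStronglyMeasurable (fun t => (v : unitInterval → C3) t)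
      (volume : Measure unitInterval) := Lp.aestronglyMeasurable v
  have h1 : AEStronglyMeasurable a (volume : Measure unitInterval) := by
    exact ha.aestronglyMeasurable
  have h2 : AEStronglyMeasurable (fun t => (a t, (v : unitInterval → C3) t))
      (volume : Measure unitInterval) := by
    exact h1.prodMk hv
  have h3 := spd_int_cont.comp_aestronglyMeasurable h2
  exact h3

theorem spd_int (x : HL5) :
    Integrable (fun t => spd (at5 x t) ((x.1.2 : unitInterval → C3) t)) := by
  have hvi : Integrable (fun t => (x.1.2 : unitInterval → C3) t)
      (volume : Measure unitInterval) := (Lp.memLp x.1.2).integrable one_le_two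
  have hmeas : AEStronglyMeasurable
      (fun t => spd (at5 x t) ((x.1.2 : unitInterval → C3) t))
      (volume : Measure unitInterval) := spd_int_meas _ (spd_int_at x) x.1.2
  refine Integrable.mono' (hvi.norm.const_mul 100000) hmeas ?_
  refine Filter.Eventually.of_forall fun t => ?_
  obtain ⟨-, h0, -, -, -, -, -, h1⟩ := spd_facts (at5 x t) ((x.1.2 : unitInterval → C3) t)
  rw [Real.norm_of_nonneg h0]
  exact h1 (x.2.1 t)

end Pool.Agent.Helper534.LS
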