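import Pool.Agent.Helper534.L5.Defs5
import Pool.Agent.Helper534.L5.P_spd_facts
import Pool.Agent.Helper534.L5.P_spd_int

open MeasureTheory

namespace Pool.Agent.Helper534.LS



private lemma dist_bound_inner (w u : C3) :
    inner ℝ w.1 u.1 + inner ℝ w.2.1 u.2.1 + inner ℝ w.2.2 u.2.2 ≤ Real.sqrt (nsq w) * Real.sqrt (nsq u) := by
  have h1 := real_inner_le_norm w.1 u.1
  have h2 := real_inner_le_norm w.2.1 u.2.1
  have h3 := real_inner_le_norm w.2.2 u.2.2
  have h4 : ‖w.1‖ * ‖u.1‖ + ‖w.2.1‖ * ‖u.2.1‖ + ‖w.2.2‖ * ‖u.2.2‖ ≤ Real.sqrt (nsq w) * Real.sqrt (nsq u) := by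
    rw [← Real.sqrt_mul (by unfold nsq; positivity)]
    apply Real.le_sqrt_of_sq_le
    unfold nsq
    nlinarith [sq_nonneg (‖w.1‖ * ‖u.2.1‖ - ‖w.2.1‖ * ‖u.1‖), sq_nonneg (‖w.1‖ * ‖u.2.2‖ - ‖w.2.2‖ * ‖u.1‖),
      sq_nonneg (‖w.2.1‖ * ‖u.2.2‖ - ‖w.2.2‖ * ‖u.2.1‖)]
  linarith

/-- the functional -/
private noncomputable def dist_bound_L (w : C3) : C3 →L[ℝ] ℝ :=
  (innerSL ℝ w.1).comp (ContinuousLinearMap.fst ℝ ℂ (ℂ × ℂ)) +
    (innerSL ℝ w.2.1).comp ((ContinuousLinearMap.fst ℝ ℂ ℂ).comp (ContinuousLinearMap.snd ℝ ℂ (ℂ × ℂ))) +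
    (innerSL ℝ w.2.2).comp ((ContinuousLinearMap.snd ℝ ℂ ℂ).comp (ContinuousLinearMap.snd ℝ ℂ (ℂ × ℂ)))

private lemma dist_bound_L_apply (w u : C3) :
    dist_bound_L w u = inner ℝ w.1 u.1 + inner ℝ w.2.1 u.2.1 + inner ℝ w.2.2 u.2.2 := by
  simp [dist_bound_L]

private lemma dist_bound_aux (x : HL5) (S : Set unitInterval) (hS : MeasurableSet S) (hl : 0 ≤ len5 x) :
    nsq (∫ r in S, (x.1.2 : unitInterval → C3) r) ≤ len5 x ^ 2 := by
  have hv : Integrable (x.1.2 : unitInterval → C3) := (Lp.memLp x.1.2).integrable (by norm_num)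
  set w := ∫ r in S, (x.1.2 : unitInterval → C3) r with hw
  have h1 : dist_bound_L w w = nsq w := by
    rw [dist_bound_L_apply]
    simp only [real_inner_self_eq_norm_sq]
    rfl
  have h2 : dist_bound_L w w = ∫ r in S, dist_bound_L w ((x.1.2 : unitInterval → C3) r) := by
    conv_lhs => rw [hw]
    rw [ContinuousLinearMap.integral_comp_comm _ hv.integrableOn]
  have h3 : ∫ r in S, dist_bound_L w ((x.1.2 : unitInterval → C3) r) ≤
      ∫ r in S, Real.sqrt (nsq w) * spd (at5 x r) ((x.1.2 : unitInterval → C3) r) := by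
    refine integral_mono ((dist_bound_L w).integrable_comp hv).integrableOn ((spd_int x).const_mul _).integrableOn ?_
    intro r
    show dist_bound_L w ((x.1.2 : unitInterval → C3) r) ≤ Real.sqrt (nsq w) * spd (at5 x r) ((x.1.2 : unitInterval → C3) r)
    rw [dist_bound_L_apply]
    refine (dist_bound_inner w _).trans ?_
    exact mul_le_mul_of_nonneg_left (spd_facts _ _).2.2.1 (Real.sqrt_nonneg _)
  have h4 : ∫ r in S, Real.sqrt (nsq w) * spd (at5 x r) ((x.1.2 : unitInterval → C3) r) ≤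
      Real.sqrt (nsq w) * len5 x := by
    rw [integral_const_mul]
    refine mul_le_mul_of_nonneg_left ?_ (Real.sqrt_nonneg _)
    exact setIntegral_le_integral (spd_int x) (Filter.Eventually.of_forall fun r => (spd_facts _ _).2.1)
  have hn : 0 ≤ nsq w := by unfold nsq; positivity
  have h5 : nsq w ≤ Real.sqrt (nsq w) * len5 x := by linarith
  have h6 : Real.sqrt (nsq w) ^ 2 = nsq w := Real.sq_sqrt hn
  by_cases h7 : Real.sqrt (nsq w) = 0
  · rw [← h6, h7]
    exact pow_le_pow_left₀ le_rfl hl 2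
  · have h8 : 0 < Real.sqrt (nsq w) := lt_of_le_of_ne (Real.sqrt_nonneg _) (Ne.symm h7)
    have h9 : Real.sqrt (nsq w) ≤ len5 x := by
      by_contra h
      push Not at h
      nlinarith
    rw [← h6]
    exact pow_le_pow_left₀ (Real.sqrt_nonneg _) h9 2

theorem dist_bound (x : HL5) (s t : unitInterval) :
    nsq (at5 x t - at5 x s) ≤ len5 x ^ 2 ∧ 0 ≤ len5 x := by
  have hl : 0 ≤ len5 x := integral_nonneg fun r => (spd_facts _ _).2.1
  refine ⟨?_, hl⟩
  have hv : Integrable (x.1.2 : unitInterval → C3) := (Lp.memLp x.1.2).integrable (by norm_num)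
  have key : ∀ s t : unitInterval, s ≤ t → nsq (at5 x t - at5 x s) ≤ len5 x ^ 2 := by
    intro s t hst
    have h1 : at5 x t - at5 x s = ∫ r in Set.Iic t \ Set.Iic s, (x.1.2 : unitInterval → C3) r := by
      rw [setIntegral_sdiff measurableSet_Iic hv.integrableOn (Set.Iic_subset_Iic.mpr hst)]
      unfold at5 pt5
      abel
    rw [h1]
    exact dist_bound_aux x _ (measurableSet_Iic.diff measurableSet_Iic) hl
  rcases le_total s t with h | h
  · exact key s t h
  · have h2 : nsq (at5 x t - at5 x s) = nsq (at5 x s - at5 x t) := by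
      unfold nsq
      simp only [Prod.fst_sub, Prod.snd_sub]
      rw [norm_sub_rev, norm_sub_rev (at5 x t).2.1, norm_sub_rev (at5 x t).2.2]
    rw [h2]
    exact key t s h

end Pool.Agent.Helper534.LS
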