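import Pool.Agent.Helper534.L5.Defs5
import Pool.Agent.Helper534.L5.P_ci_facts

open MeasureTheory

namespace Pool.Agent.Helper534.LS



theorem glue_quot (A : Type) [TopologicalSpace A] :
    Topology.IsQuotientMap (fun p : A × unitInterval => ((ci p.2 : Circle), p.1)) := by
  have hc : Continuous (fun t : unitInterval => ci (t : ℝ)) :=
    ci_facts.1.comp continuous_subtype_val
  have hp : IsProperMap (fun t : unitInterval => ci (t : ℝ)) := hc.isProperMap
  have hp2 : IsProperMap (Prod.map (id : A → A) (fun t : unitInterval => ci (t : ℝ))) :=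
    isProperMap_id.prodMap hp
  have hp3 : IsProperMap ((Homeomorph.prodComm A Circle) ∘
      (Prod.map (id : A → A) (fun t : unitInterval => ci (t : ℝ)))) :=
    (Homeomorph.prodComm A Circle).isProperMap.comp hp2
  have hcl := hp3.isClosedMap
  refine hcl.isQuotientMap hp3.continuous ?_
  rintro ⟨s, a⟩
  obtain ⟨t, ht⟩ := ci_facts.2.2.2.2.1 s
  exact ⟨(a, t), by simp [ht]⟩

theorem glue {A Z : Type} [TopologicalSpace A] [TopologicalSpace Z] (F : C(A × unitInterval, Z))
    (h : ∀ a, F (a, 0) = F (a, 1)) :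
    ∃ G : C(Circle × A, Z), ∀ a (t : unitInterval), G (ci t, a) = F (a, t) := by
  have hq := glue_quot A
  let q : C(A × unitInterval, Circle × A) := ⟨_, hq.continuous⟩
  have hq' : Topology.IsQuotientMap q := hq
  have hfac : Function.FactorsThrough F q := by
    rintro ⟨a, s⟩ ⟨b, t⟩ hab
    have h1 : ci (s : ℝ) = ci (t : ℝ) := congrArg Prod.fst hab
    have h2 : a = b := congrArg Prod.snd hab
    subst h2
    rcases ci_facts.2.2.2.2.2.1 s t h1 with h3 | h3 | h3
    · rw [h3]
    · rw [h3.1, h3.2]; exact h a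
    · rw [h3.1, h3.2]; exact (h a).symm
  refine ⟨hq'.lift F hfac, fun a t => ?_⟩
  have := hq'.lift_comp F hfac
  exact congrArg (fun f : C(A × unitInterval, Z) => f (a, t)) this

end Pool.Agent.Helper534.LS
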