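import Pool.Agent.Helper534.L5.Defs5
import Pool.Agent.Helper534.L5.P_glue
import Pool.Agent.Helper534.L5.P_pt5_cont
import Pool.Agent.Helper534.L5.P_at5_facts

open MeasureTheory

namespace Pool.Agent.Helper534.LS



theorem ev_exists_cont : Continuous fun p : HL5 × unitInterval => at5 p.1 p.2 :=
  Continuous.comp (g := fun q : (C3 × L2C) × unitInterval => pt5 q.1.1 q.1.2 q.2)
    (f := fun p : HL5 × unitInterval => ((p.1.1, p.2) : (C3 × L2C) × unitInterval)) pt5_cont
    ((continuous_subtype_val.comp continuous_fst).prodMk continuous_snd)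

theorem ev_exists : ∃ e, IsEv e := by
  let F : C(HL5 × unitInterval, S5) :=
    ⟨fun p => ⟨at5 p.1 p.2, (at5_facts p.1).1 p.2⟩, ev_exists_cont.subtype_mk _⟩
  obtain ⟨G, hG⟩ := glue F (fun a => Subtype.ext (at5_facts a).2.1)
  refine ⟨G, fun x t => ?_⟩
  rw [hG x t]
  rfl

end Pool.Agent.Helper534.LS
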