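import Pool.Agent.Helper534.L5.Defs5
import Pool.Agent.Helper534.L5.P_hy_cont2

open MeasureTheory

namespace Pool.Agent.Helper534.LS



theorem hat_exists {Z : Type} [TopologicalSpace Z] (F : C(unitInterval × S3, Z))
    (h0 : ∀ y, F (0, y) = F (0, y0)) (h1 : ∀ y, F (1, y) = F (1, y0)) : ∃ G, IsHat F G := by
  have hcont : Continuous (fun q : Unit × (ℝ × S3) =>
      F (Set.projIcc 0 1 zero_le_one ((1 - q.2.1) / 2), q.2.2)) := by
    refine F.continuous.comp (Continuous.prodMk ?_ ?_)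
    · exact continuous_projIcc.comp (by fun_prop)
    · fun_prop
  let F' : C(Unit × (ℝ × S3), Z) := ⟨_, hcont⟩
  have e0 : (Set.projIcc (0 : ℝ) 1 zero_le_one ((1 - 1) / 2)) = (0 : unitInterval) := by
    have : ((1 : ℝ) - 1) / 2 = 0 := by norm_num
    rw [this]
    exact Set.projIcc_left _
  have e1 : (Set.projIcc (0 : ℝ) 1 zero_le_one ((1 - (-1)) / 2)) = (1 : unitInterval) := by
    have : ((1 : ℝ) - (-1)) / 2 = 1 := by norm_num
    rw [this]
    exact Set.projIcc_right _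
  have k1 : ∀ p y, F' (p, (1, y)) = F' (p, (1, y0)) := by
    intro p y
    show F (Set.projIcc (0 : ℝ) 1 zero_le_one ((1 - 1) / 2), y) =
      F (Set.projIcc (0 : ℝ) 1 zero_le_one ((1 - 1) / 2), y0)
    rw [e0]
    exact h0 y
  have k2 : ∀ p y, F' (p, (-1, y)) = F' (p, (-1, y0)) := by
    intro p y
    show F (Set.projIcc (0 : ℝ) 1 zero_le_one ((1 - (-1)) / 2), y) =
      F (Set.projIcc (0 : ℝ) 1 zero_le_one ((1 - (-1)) / 2), y0)
    rw [e1]
    exact h1 y
  have hc := hy_cont2 F' k1 k2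
  have hc2 : Continuous (fun p : Circle × S3 =>
      F (Set.projIcc 0 1 zero_le_one ((1 - (p.1 : ℂ).re) / 2), hy p.1 p.2)) := by
    have h3 : Continuous (fun p : Circle × S3 => (((), p) : Unit × (Circle × S3))) := by fun_prop
    exact hc.comp h3
  exact ⟨⟨_, hc2⟩, fun p => rfl⟩

end Pool.Agent.Helper534.LS
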