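import Pool.Agent.Helper534.L5.Defs5
import Pool.Agent.Helper534.L5.P_pt5_cont

open MeasureTheory

namespace Pool.Agent.Helper534.LS



theorem chain_local (f : C3 → ℂ) (L : C3 → C3 →L[ℝ] ℂ) (hL : Continuous L)
    (hf : ∀ p, HasFDerivAt f (L p) p) (γ : unitInterval → C3) (hγ : Continuous γ)
    (v : unitInterval → C3) (hv : Integrable v)
    (hγv : ∀ s t : unitInterval, s ≤ t → γ t - γ s = ∫ r in Set.Ioc s t, v r)
    (hLv : Integrable fun r => L (γ r) (v r)) (ε : ℝ) (hε : 0 < ε) :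
    ∃ δ : ℝ, 0 < δ ∧ ∀ s t : unitInterval, s ≤ t → (t : ℝ) - s ≤ δ →
      ‖f (γ t) - f (γ s)‖ ≤ ∫ r in Set.Ioc s t, (‖L (γ r) (v r)‖ + 2 * ε * ‖v r‖) := by
  have hK : IsCompact (Set.range γ) := isCompact_range hγ
  have h1 := hK.uniformContinuousAt_of_continuousAt L (fun a _ => hL.continuousAt)
    (Metric.dist_mem_uniformity hε)
  obtain ⟨d, hd, hd'⟩ := Metric.mem_uniformity_dist.1 h1
  have hd2 : ∀ p ∈ Set.range γ, ∀ q, dist p q < d → dist (L p) (L q) < ε := by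
    intro p hp q hpq
    exact hd' hpq hp
  obtain ⟨δ, hδ, hδ'⟩ := Metric.uniformContinuous_iff.1
    (CompactSpace.uniformContinuous_of_continuous hγ) d hd
  refine ⟨δ / 2, by positivity, fun s t hst hts => ?_⟩
  have hsr : ∀ r : unitInterval, s ≤ r → r ≤ t → dist (γ s) (γ r) < d := by
    intro r hr1 hr2
    refine hδ' ?_
    have hr1' : (s : ℝ) ≤ r := hr1
    have : (r : ℝ) ≤ t := hr2
    rw [Subtype.dist_eq, Real.dist_eq, abs_sub_comm, abs_of_nonneg (sub_nonneg.2 hr1')]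
    linarith
  have hb : ∀ q ∈ Metric.ball (γ s) d, ‖L q - L (γ s)‖ ≤ ε := by
    intro q hq
    rw [← dist_eq_norm, dist_comm]
    refine (hd2 (γ s) ⟨s, rfl⟩ q ?_).le
    rw [dist_comm]
    exact hq
  have h2 := (convex_ball (γ s) d).norm_image_sub_le_of_norm_hasFDerivWithin_le'
    (f := f) (f' := L) (φ := L (γ s)) (C := ε)
    (fun q _ => (hf q).hasFDerivWithinAt) hb (x := γ s) (y := γ t)
    (Metric.mem_ball_self hd) (by
      rw [Metric.mem_ball, dist_comm]
      exact hsr t hst le_rfl)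
  have h3 : ‖γ t - γ s‖ ≤ ∫ r in Set.Ioc s t, ‖v r‖ := by
    rw [hγv s t hst]
    exact norm_integral_le_integral_norm _
  have h4 : L (γ s) (γ t - γ s) = ∫ r in Set.Ioc s t, L (γ s) (v r) := by
    rw [hγv s t hst]
    exact ((L (γ s)).integral_comp_comm hv.integrableOn).symm
  have h5 : ‖∫ r in Set.Ioc s t, L (γ s) (v r)‖ ≤
      ∫ r in Set.Ioc s t, (‖L (γ r) (v r)‖ + ε * ‖v r‖) := by
    refine (norm_integral_le_integral_norm _).trans ?_
    refine setIntegral_mono_on ((L (γ s)).integrable_comp hv).norm.integrableOn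
      (hLv.norm.add (hv.norm.const_mul ε)).integrableOn measurableSet_Ioc fun r hr => ?_
    have h6 : ‖L (γ s) - L (γ r)‖ ≤ ε := by
      rw [← dist_eq_norm]
      exact (hd2 (γ s) ⟨s, rfl⟩ (γ r) (hsr r hr.1.le hr.2)).le
    have h7 : L (γ s) (v r) = L (γ r) (v r) + (L (γ s) - L (γ r)) (v r) := by
      rw [_root_.sub_apply]; ring
    calc ‖L (γ s) (v r)‖ = ‖L (γ r) (v r) + (L (γ s) - L (γ r)) (v r)‖ := by rw [← h7]
      _ ≤ ‖L (γ r) (v r)‖ + ‖(L (γ s) - L (γ r)) (v r)‖ := norm_add_le _ _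
      _ ≤ ‖L (γ r) (v r)‖ + ε * ‖v r‖ := by
        have h8 := (L (γ s) - L (γ r)).le_opNorm (v r)
        have h9 := mul_le_mul_of_nonneg_right h6 (norm_nonneg (v r))
        linarith
  have h6 : ∫ r in Set.Ioc s t, (‖L (γ r) (v r)‖ + 2 * ε * ‖v r‖) =
      (∫ r in Set.Ioc s t, (‖L (γ r) (v r)‖ + ε * ‖v r‖)) + ε * ∫ r in Set.Ioc s t, ‖v r‖ := by
    have h6a : Integrable (fun r => ‖L (γ r) (v r)‖ + ε * ‖v r‖) :=
      hLv.norm.add (hv.norm.const_mul ε)
    rw [← integral_const_mul, ← integral_add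
      h6a.integrableOn (hv.norm.const_mul ε).integrableOn]
    refine integral_congr_ae (Filter.Eventually.of_forall fun r => ?_)
    show ‖L (γ r) (v r)‖ + 2 * ε * ‖v r‖ = ‖L (γ r) (v r)‖ + ε * ‖v r‖ + ε * ‖v r‖
    ring
  have h7 : f (γ t) - f (γ s) =
      (f (γ t) - f (γ s) - L (γ s) (γ t - γ s)) + L (γ s) (γ t - γ s) := by ring
  rw [h7, h6]
  refine (norm_add_le _ _).trans ?_
  rw [h4] at h2 ⊢
  have h8 := mul_le_mul_of_nonneg_left h3 hε.le
  linarith

theorem chain_glob (f : C3 → ℂ) (γ : unitInterval → C3) (g : unitInterval → ℝ)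
    (hg : Integrable g) (δ : ℝ) (hδ : 0 < δ)
    (h : ∀ s t : unitInterval, s ≤ t → (t : ℝ) - s ≤ δ →
      ‖f (γ t) - f (γ s)‖ ≤ ∫ r in Set.Ioc s t, g r) (n : ℕ) :
    ∀ s t : unitInterval, s ≤ t → (t : ℝ) - s ≤ n * δ →
      ‖f (γ t) - f (γ s)‖ ≤ ∫ r in Set.Ioc s t, g r := by
  induction n with
  | zero =>
    intro s t hst hts
    exact h s t hst (by rw [Nat.cast_zero, zero_mul] at hts; linarith)
  | succ n ih =>
    intro s t hst hts
    by_cases h1 : (t : ℝ) - s ≤ δ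
    · exact h s t hst h1
    · push Not at h1
      have hs0 : (0 : ℝ) ≤ s := s.2.1
      have ht1 : (t : ℝ) ≤ 1 := t.2.2
      obtain ⟨m, hm⟩ : ∃ m : unitInterval, (m : ℝ) = t - δ :=
        ⟨⟨t - δ, by linarith, by linarith⟩, rfl⟩
      have hsm : s ≤ m := by
        show (s : ℝ) ≤ m
        rw [hm]; linarith
      have hmt : m ≤ t := by
        show (m : ℝ) ≤ t
        rw [hm]; linarith
      have h2 := ih s m hsm (by rw [hm]; push_cast at hts; linarith)
      have h3 := h m t hmt (by rw [hm]; linarith)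
      have h4 : ∫ r in Set.Ioc s t, g r = (∫ r in Set.Ioc s m, g r) + ∫ r in Set.Ioc m t, g r := by
        rw [← Set.Ioc_union_Ioc_eq_Ioc hsm hmt]
        exact setIntegral_union (Set.Ioc_disjoint_Ioc_of_le le_rfl) measurableSet_Ioc
          hg.integrableOn hg.integrableOn
      rw [h4]
      have h5 : f (γ t) - f (γ s) = (f (γ m) - f (γ s)) + (f (γ t) - f (γ m)) := by ring
      rw [h5]
      exact (norm_add_le _ _).trans (add_le_add h2 h3)

theorem chain_le (f : C3 → ℂ) (L : C3 → C3 →L[ℝ] ℂ) (hL : Continuous L)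
    (hf : ∀ p, HasFDerivAt f (L p) p) (γ : unitInterval → C3) (hγ : Continuous γ)
    (v : unitInterval → C3) (hv : Integrable v)
    (hγv : ∀ s t : unitInterval, s ≤ t → γ t - γ s = ∫ r in Set.Ioc s t, v r)
    (s t : unitInterval) (hst : s ≤ t) :
    ‖f (γ t) - f (γ s)‖ ≤ ∫ r, ‖L (γ r) (v r)‖ := by
  have hLγ : Continuous fun r => L (γ r) := hL.comp hγ
  have hmeas : AEStronglyMeasurable (fun r => L (γ r) (v r)) volume :=
    (ContinuousLinearMap.id ℝ (C3 →L[ℝ] ℂ)).aestronglyMeasurable_comp₂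
      hLγ.aestronglyMeasurable hv.1
  obtain ⟨M, hM⟩ := (isCompact_range hLγ).isBounded.exists_norm_le
  have hLv : Integrable fun r => L (γ r) (v r) := by
    refine Integrable.mono' (hv.norm.const_mul M) hmeas (Filter.Eventually.of_forall fun r => ?_)
    refine ((L (γ r)).le_opNorm (v r)).trans ?_
    exact mul_le_mul_of_nonneg_right (hM _ ⟨r, rfl⟩) (norm_nonneg _)
  obtain ⟨A, hA⟩ : ∃ A, A = ∫ r, ‖v r‖ := ⟨_, rfl⟩
  have hA0 : 0 ≤ A := by rw [hA]; exact integral_nonneg fun r => norm_nonneg _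
  refine le_of_forall_pos_le_add fun η hη => ?_
  obtain ⟨ε, hε⟩ : ∃ ε, ε = η / (2 * (A + 1)) := ⟨_, rfl⟩
  have hε0 : 0 < ε := by rw [hε]; positivity
  obtain ⟨δ, hδ, hloc⟩ := chain_local f L hL hf γ hγ v hv hγv hLv ε hε0
  obtain ⟨n, hn⟩ := exists_nat_gt (1 / δ)
  have hg : Integrable fun r => ‖L (γ r) (v r)‖ + 2 * ε * ‖v r‖ :=
    hLv.norm.add (hv.norm.const_mul (2 * ε))
  have h1 := chain_glob f γ _ hg δ hδ hloc n s t hst (by
    rw [div_lt_iff₀ hδ] at hn
    have hs0 : (0 : ℝ) ≤ s := s.2.1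
    have ht1 : (t : ℝ) ≤ 1 := t.2.2
    linarith)
  refine h1.trans ?_
  have h2 : ∫ r in Set.Ioc s t, (‖L (γ r) (v r)‖ + 2 * ε * ‖v r‖) ≤
      ∫ r, (‖L (γ r) (v r)‖ + 2 * ε * ‖v r‖) :=
    setIntegral_le_integral hg (Filter.Eventually.of_forall fun r => by
      show (0 : ℝ) ≤ ‖L (γ r) (v r)‖ + 2 * ε * ‖v r‖
      positivity)
  refine h2.trans ?_
  rw [integral_add hLv.norm (hv.norm.const_mul (2 * ε)), integral_const_mul, ← hA]
  have h3 : 2 * ε * A ≤ η := by
    have h4 : 2 * ε * (A + 1) = η := by rw [hε]; field_simp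
    nlinarith
  linarith

theorem chain (f : C3 → ℂ) (L : C3 → C3 →L[ℝ] ℂ) (hL : Continuous L)
    (hf : ∀ p, HasFDerivAt f (L p) p) (x : HL5) (s t : unitInterval) :
    ‖f (at5 x t) - f (at5 x s)‖ ≤ ∫ r, ‖L (at5 x r) ((x.1.2 : unitInterval → C3) r)‖ := by
  have hγ : Continuous fun r => at5 x r := by
    show Continuous fun r => pt5 x.1.1 x.1.2 r
    exact pt5_cont.comp (continuous_const.prodMk continuous_id :
      Continuous fun r : unitInterval => ((x.1, r) : (C3 × L2C) × unitInterval))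
  have hv : Integrable (x.1.2 : unitInterval → C3) :=
    (Lp.memLp x.1.2).integrable one_le_two
  have hγv : ∀ s t : unitInterval, s ≤ t →
      at5 x t - at5 x s = ∫ r in Set.Ioc s t, (x.1.2 : unitInterval → C3) r := by
    intro s t hst
    unfold at5 pt5
    rw [← Set.Iic_union_Ioc_eq_Iic hst, setIntegral_union
      ((Set.Iic_disjoint_Ioc le_rfl)) measurableSet_Ioc hv.integrableOn hv.integrableOn]
    abel
  rcases le_total s t with hst | hst
  · exact chain_le f L hL hf _ hγ _ hv hγv s t hst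
  · rw [norm_sub_rev]
    exact chain_le f L hL hf _ hγ _ hv hγv t s hst

end Pool.Agent.Helper534.LS
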