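import Pool.Agent.Helper534.L5.Defs5
import Pool.Agent.Helper534.L5.P_spd_facts
import Pool.Agent.Helper534.L5.P_spd_int
import Pool.Agent.Helper534.L5.P_chain

open MeasureTheory

namespace Pool.Agent.Helper534.LS



theorem var_bound_gen (f : C3 → ℂ) (L : C3 → C3 →L[ℝ] ℂ) (hL : Continuous L)
    (hf : ∀ p, HasFDerivAt f (L p) p) (hb : ∀ p v, 1000 * ‖L p v‖ ≤ spd p v) (x : HL5)
    (s t : unitInterval) : ‖f (at5 x t) - f (at5 x s)‖ ≤ len5 x / 1000 := by
  refine (chain f L hL hf x s t).trans ?_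
  rw [len5, ← integral_div]
  refine integral_mono_of_nonneg (Filter.Eventually.of_forall (fun r => norm_nonneg _))
    ((spd_int x).div_const _) (Filter.Eventually.of_forall (fun r => ?_))
  have := hb (at5 x r) ((x.1.2 : unitInterval → C3) r)
  show ‖L (at5 x r) ((x.1.2 : unitInterval → C3) r)‖ ≤
    spd (at5 x r) ((x.1.2 : unitInterval → C3) r) / 1000
  linarith

/-- first coordinate -/
noncomputable def var_bound_A1 : C3 →L[ℝ] ℂ := ContinuousLinearMap.fst ℝ ℂ (ℂ × ℂ)
/-- second coordinate -/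
noncomputable def var_bound_A2 : C3 →L[ℝ] ℂ :=
  (ContinuousLinearMap.fst ℝ ℂ ℂ).comp (ContinuousLinearMap.snd ℝ ℂ (ℂ × ℂ))
/-- third coordinate -/
noncomputable def var_bound_A3 : C3 →L[ℝ] ℂ :=
  (ContinuousLinearMap.snd ℝ ℂ ℂ).comp (ContinuousLinearMap.snd ℝ ℂ (ℂ × ℂ))
/-- conjugate of the third coordinate -/
noncomputable def var_bound_A4 : C3 →L[ℝ] ℂ :=
  (Complex.conjCLE : ℂ →L[ℝ] ℂ).comp var_bound_A3

theorem var_bound_h1 (p : C3) : HasFDerivAt (fun p : C3 => p.1) var_bound_A1 p :=
  var_bound_A1.hasFDerivAt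
theorem var_bound_h2 (p : C3) : HasFDerivAt (fun p : C3 => p.2.1) var_bound_A2 p :=
  var_bound_A2.hasFDerivAt
theorem var_bound_h3 (p : C3) : HasFDerivAt (fun p : C3 => p.2.2) var_bound_A3 p :=
  var_bound_A3.hasFDerivAt
theorem var_bound_h4 (p : C3) : HasFDerivAt (fun p : C3 => star p.2.2) var_bound_A4 p :=
  var_bound_A4.hasFDerivAt

theorem var_bound_a1 (u : C3) : var_bound_A1 u = u.1 := rfl
theorem var_bound_a2 (u : C3) : var_bound_A2 u = u.2.1 := rfl
theorem var_bound_a3 (u : C3) : var_bound_A3 u = u.2.2 := rfl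
theorem var_bound_a4 (u : C3) : var_bound_A4 u = star u.2.2 := rfl

theorem var_bound_3 (a b : C3 → ℂ) (A B : C3 →L[ℝ] ℂ) (ha : ∀ p, HasFDerivAt a A p)
    (hb : ∀ p, HasFDerivAt b B p)
    (hc : ∀ p u : C3, 1000 * ‖(a p * b p) * star u.2.2 + star p.2.2 * (a p * B u + b p * A u)‖ ≤
      spd p u) (x : HL5) (s t : unitInterval) :
    ‖a (at5 x t) * b (at5 x t) * star (at5 x t).2.2 - a (at5 x s) * b (at5 x s) *
      star (at5 x s).2.2‖ ≤ len5 x / 1000 := by
  have ca : Continuous a := continuous_iff_continuousAt.2 (fun p => (ha p).continuousAt)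
  have cb : Continuous b := continuous_iff_continuousAt.2 (fun p => (hb p).continuousAt)
  refine var_bound_gen (fun p => a p * b p * star p.2.2)
    (fun p => (a p * b p) • var_bound_A4 + (star p.2.2) • (a p • B + b p • A)) ?_
    (fun p => ((ha p).mul (hb p)).mul (var_bound_h4 p)) ?_ x s t
  · exact ((ca.mul cb).smul continuous_const).add
      ((continuous_snd.comp continuous_snd).star.smul
        ((ca.smul continuous_const).add (cb.smul continuous_const)))
  · intro p u
    simp only [ContinuousLinearMap.add_apply, ContinuousLinearMap.smul_apply, var_bound_a4,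
      smul_eq_mul]
    exact hc p u

theorem var_bound (x : HL5) (s t : unitInterval) :
    |‖(at5 x t).2.2‖ ^ 2 - ‖(at5 x s).2.2‖ ^ 2| ≤ len5 x / 1000 ∧
    ‖(at5 x t).1 ^ 2 * star (at5 x t).2.2 - (at5 x s).1 ^ 2 * star (at5 x s).2.2‖
      ≤ len5 x / 1000 ∧
    ‖(at5 x t).1 * (at5 x t).2.1 * star (at5 x t).2.2 -
      (at5 x s).1 * (at5 x s).2.1 * star (at5 x s).2.2‖ ≤ len5 x / 1000 ∧
    ‖(at5 x t).2.1 ^ 2 * star (at5 x t).2.2 - (at5 x s).2.1 ^ 2 * star (at5 x s).2.2‖
      ≤ len5 x / 1000 := by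
  refine ⟨?_, ?_, ?_, ?_⟩
  · have h := var_bound_gen (fun p => p.2.2 * star p.2.2)
      (fun p => p.2.2 • var_bound_A4 + (star p.2.2) • var_bound_A3) ?_
      (fun p => (var_bound_h3 p).mul (var_bound_h4 p)) ?_ x s t
    · have e : ∀ z : ℂ, z * star z = ((‖z‖ ^ 2 : ℝ) : ℂ) := by
        intro z
        rw [Complex.star_def, Complex.mul_conj, Complex.normSq_eq_norm_sq]
      rw [e, e, ← Complex.ofReal_sub, Complex.norm_real, Real.norm_eq_abs] at h
      exact h
    · exact ((continuous_snd.comp continuous_snd).smul continuous_const).add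
        ((continuous_snd.comp continuous_snd).star.smul continuous_const)
    · intro p u
      have h0 := (spd_facts p u).2.2.2.1
      refine le_trans (le_of_eq ?_) h0
      simp only [ContinuousLinearMap.add_apply, ContinuousLinearMap.smul_apply, var_bound_a4,
        var_bound_a3, smul_eq_mul]
      have e : p.2.2 * star u.2.2 + star p.2.2 * u.2.2 = ((d0 p u : ℝ) : ℂ) := by
        apply Complex.ext
        · simp [d0]
          ring
        · simp [d0]
          ring
      rw [e, Complex.norm_real, Real.norm_eq_abs]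
  · have h := var_bound_3 (fun p => p.1) (fun p => p.1) _ _ var_bound_h1 var_bound_h1 ?_ x s t
    · simp only [sq]
      exact h
    · intro p u
      refine le_trans (le_of_eq ?_) (spd_facts p u).2.2.2.2.1
      rw [var_bound_a1, d1]
      congr 2
      ring
  · refine var_bound_3 (fun p => p.1) (fun p => p.2.1) _ _ var_bound_h1 var_bound_h2 ?_ x s t
    intro p u
    refine le_trans (le_of_eq ?_) (spd_facts p u).2.2.2.2.2.1
    rw [var_bound_a1, var_bound_a2, d2]
    congr 2
    ring
  · have h := var_bound_3 (fun p => p.2.1) (fun p => p.2.1) _ _ var_bound_h2 var_bound_h2 ?_ x s t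
    · simp only [sq]
      exact h
    · intro p u
      refine le_trans (le_of_eq ?_) (spd_facts p u).2.2.2.2.2.2.1
      rw [var_bound_a2, d3]
      congr 2
      ring

end Pool.Agent.Helper534.LS
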