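import Pool.Agent.Helper534.L5.Defs5
import Pool.Agent.Helper534.L5.P_at5_facts
import Pool.Agent.Helper534.L5.P_var_bound

open MeasureTheory

namespace Pool.Agent.Helper534.LS



theorem o_pos_aux (y1 y2 z w1 w2 z0 : ℂ) (d : ℝ)
    (h1 : ‖y1 ^ 2 * star z - w1 ^ 2 * star z0‖ ≤ d)
    (h2 : ‖y1 * y2 * star z - w1 * w2 * star z0‖ ≤ d)
    (h3 : ‖y2 ^ 2 * star z - w2 ^ 2 * star z0‖ ≤ d)
    (hd : d < 2 / 100) (hz : 1 / 4 < ‖z0‖) (hz' : ‖z0‖ < 1 / 2)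
    (hn : ‖w1‖ ^ 2 + ‖w2‖ ^ 2 + ‖z0‖ ^ 2 = 1) :
    0 < ((y1 * star w1 + y2 * star w2) ^ 2 * star z * z0).re := by
  set R : ℂ := (y1 ^ 2 * star z - w1 ^ 2 * star z0) * (star w1 ^ 2 * z0) +
      2 * ((y1 * y2 * star z - w1 * w2 * star z0) * (star w1 * star w2 * z0)) +
      (y2 ^ 2 * star z - w2 ^ 2 * star z0) * (star w2 ^ 2 * z0) with hR
  have e1 : w1 * star w1 = ((‖w1‖ : ℝ) : ℂ) ^ 2 := Complex.mul_conj' w1
  have e2 : w2 * star w2 = ((‖w2‖ : ℝ) : ℂ) ^ 2 := Complex.mul_conj' w2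
  have e3 : z0 * star z0 = ((‖z0‖ : ℝ) : ℂ) ^ 2 := Complex.mul_conj' z0
  have key : (y1 * star w1 + y2 * star w2) ^ 2 * star z * z0 =
      ((‖z0‖ ^ 2 * (‖w1‖ ^ 2 + ‖w2‖ ^ 2) ^ 2 : ℝ) : ℂ) + R := by
    push_cast
    rw [← e1, ← e2, ← e3, hR]
    ring
  have hd0 : 0 ≤ d := le_trans (norm_nonneg _) h1
  have n1 : ‖star w1‖ = ‖w1‖ := norm_star w1
  have n2 : ‖star w2‖ = ‖w2‖ := norm_star w2
  have hRn : ‖R‖ ≤ d * (‖w1‖ ^ 2 * ‖z0‖) + 2 * (d * (‖w1‖ * ‖w2‖ * ‖z0‖)) + d * (‖w2‖ ^ 2 * ‖z0‖) := by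
    have a1 : ‖(y1 ^ 2 * star z - w1 ^ 2 * star z0) * (star w1 ^ 2 * z0)‖ ≤ d * (‖w1‖ ^ 2 * ‖z0‖) := by
      rw [norm_mul, norm_mul (star w1 ^ 2), norm_pow, n1]
      exact mul_le_mul_of_nonneg_right h1 (by positivity)
    have a2 : ‖2 * ((y1 * y2 * star z - w1 * w2 * star z0) * (star w1 * star w2 * z0))‖ ≤
        2 * (d * (‖w1‖ * ‖w2‖ * ‖z0‖)) := by
      rw [norm_mul, norm_mul (y1 * y2 * star z - w1 * w2 * star z0), norm_mul (star w1 * star w2),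
        norm_mul (star w1), n1, n2]
      have : ‖(2 : ℂ)‖ = 2 := by simp
      rw [this]
      have := mul_le_mul_of_nonneg_right h2 (by positivity : 0 ≤ ‖w1‖ * ‖w2‖ * ‖z0‖)
      linarith
    have a3 : ‖(y2 ^ 2 * star z - w2 ^ 2 * star z0) * (star w2 ^ 2 * z0)‖ ≤ d * (‖w2‖ ^ 2 * ‖z0‖) := by
      rw [norm_mul, norm_mul (star w2 ^ 2), norm_pow, n2]
      exact mul_le_mul_of_nonneg_right h3 (by positivity)
    calc ‖R‖ ≤ _ := norm_add₃_le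
      _ ≤ _ := by linarith
  rw [key, Complex.add_re, Complex.ofReal_re]
  have hre : -‖R‖ ≤ R.re := by
    have := Complex.abs_re_le_norm R
    have := neg_abs_le R.re
    linarith
  have hA := norm_nonneg w1
  have hB := norm_nonneg w2
  generalize ‖w1‖ = A at *
  generalize ‖w2‖ = B at *
  generalize ‖z0‖ = C at *
  have hC2 : 1 / 16 ≤ C ^ 2 := by nlinarith
  have hs : 3 / 4 ≤ A ^ 2 + B ^ 2 := by nlinarith
  have hs1 : A ^ 2 + B ^ 2 ≤ 1 := by nlinarith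
  have hs2 : 9 / 16 ≤ (A ^ 2 + B ^ 2) ^ 2 := by nlinarith
  have hp : 1 / 16 * (9 / 16) ≤ C ^ 2 * (A ^ 2 + B ^ 2) ^ 2 :=
    mul_le_mul hC2 hs2 (by norm_num) (by positivity)
  have hAB : 2 * (A * B) ≤ A ^ 2 + B ^ 2 := by nlinarith [sq_nonneg (A - B)]
  have hq : A ^ 2 * C + 2 * (A * B * C) + B ^ 2 * C ≤ 1 := by
    have h5 : A ^ 2 * C + 2 * (A * B * C) + B ^ 2 * C = (A ^ 2 + B ^ 2 + 2 * (A * B)) * C := by ring
    rw [h5]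
    have h6 : A ^ 2 + B ^ 2 + 2 * (A * B) ≤ 2 := by linarith
    nlinarith
  have hRd : ‖R‖ ≤ d := by
    have h7 : d * (A ^ 2 * C) + 2 * (d * (A * B * C)) + d * (B ^ 2 * C) =
      d * (A ^ 2 * C + 2 * (A * B * C) + B ^ 2 * C) := by ring
    rw [h7] at hRn
    have h8 := mul_le_mul_of_nonneg_left hq hd0
    linarith
  linarith

theorem o_pos (a : ℝ) (ha : a < 4 * Real.pi + 1) (x : ↥(O1 a ∩ O2 a)) (t : unitInterval) :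
    0 < (cc (at5 x.1.1 t) (at5 x.1.1 0) ^ 2 * star (at5 x.1.1 t).2.2 * (at5 x.1.1 0).2.2).re := by
  obtain ⟨-, v1, v2, v3⟩ := var_bound x.1.1 0 t
  have hlen : len5 x.1.1 ≤ a := x.1.2
  have hd : len5 x.1.1 / 1000 < 2 / 100 := by
    have := Real.pi_lt_d2
    linarith
  have hO1 : ‖(at5 x.1.1 0).2.2‖ < 1 / 2 := x.2.1 0
  have hO2 : 1 / 4 < ‖(at5 x.1.1 0).2.2‖ := x.2.2 0
  have hn : ‖(at5 x.1.1 0).1‖ ^ 2 + ‖(at5 x.1.1 0).2.1‖ ^ 2 + ‖(at5 x.1.1 0).2.2‖ ^ 2 = 1 :=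
    (at5_facts x.1.1).1 0
  exact o_pos_aux _ _ _ _ _ _ _ v1 v2 v3 hd hO2 hO1 hn

end Pool.Agent.Helper534.LS
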