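import Pool.Agent.Helper534.L5.Defs5
import Pool.Agent.Helper534.L5.P_ci_facts
import Pool.Agent.Helper534.L5.P_glue
import Pool.Agent.Helper534.L5.P_pt5_cont
import Pool.Agent.Helper534.L5.P_at5_facts
import Pool.Agent.Helper534.L5.P_o_pos

open MeasureTheory

namespace Pool.Agent.Helper534.LS



/-- normalisation -/
noncomputable def e12_homotopic_nrm (p : C3) : C3 :=
  ((((Real.sqrt (nsq p))⁻¹ : ℝ) : ℂ) * p.1, (((Real.sqrt (nsq p))⁻¹ : ℝ) : ℂ) * p.2.1,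
    (((Real.sqrt (nsq p))⁻¹ : ℝ) : ℂ) * p.2.2)

theorem e12_homotopic_nsq_pos (p : C3) (h : p.2.2 ≠ 0) : 0 < nsq p := by
  have h1 : 0 < ‖p.2.2‖ := norm_pos_iff.2 h
  have h4 : 0 < ‖p.2.2‖ ^ 2 := by positivity
  have h2 : 0 ≤ ‖p.1‖ ^ 2 := by positivity
  have h3 : 0 ≤ ‖p.2.1‖ ^ 2 := by positivity
  rw [nsq]; linarith

theorem e12_homotopic_nrm_nsq (p : C3) (h : p.2.2 ≠ 0) : nsq (e12_homotopic_nrm p) = 1 := by
  have h0 := e12_homotopic_nsq_pos p h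
  have hs : Real.sqrt (nsq p) ^ 2 = nsq p := Real.sq_sqrt h0.le
  have ha : ‖(((Real.sqrt (nsq p))⁻¹ : ℝ) : ℂ)‖ ^ 2 = (nsq p)⁻¹ := by
    rw [Complex.norm_real, Real.norm_eq_abs, sq_abs, inv_pow, hs]
  show ‖(((Real.sqrt (nsq p))⁻¹ : ℝ) : ℂ) * p.1‖ ^ 2 +
    ‖(((Real.sqrt (nsq p))⁻¹ : ℝ) : ℂ) * p.2.1‖ ^ 2 +
    ‖(((Real.sqrt (nsq p))⁻¹ : ℝ) : ℂ) * p.2.2‖ ^ 2 = 1
  rw [norm_mul, norm_mul, norm_mul, mul_pow, mul_pow, mul_pow, ha, ← mul_add, ← mul_add]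
  exact inv_mul_cancel₀ h0.ne'

theorem e12_homotopic_nrm_id (p : C3) (h : nsq p = 1) : e12_homotopic_nrm p = p := by
  rw [e12_homotopic_nrm, h, Real.sqrt_one, inv_one, Complex.ofReal_one, one_mul, one_mul, one_mul]

theorem e12_homotopic_nsq1 (u : ℂ) (hu : ‖u‖ = 1) (p : C3) :
    nsq (mk3 (qm u 0 (p.1, p.2.1)) (u ^ 2 * p.2.2)) = nsq p := by
  show ‖u * p.1 - 0 * star p.2.1‖ ^ 2 + ‖u * p.2.1 + 0 * star p.1‖ ^ 2 +
      ‖u ^ 2 * p.2.2‖ ^ 2 = ‖p.1‖ ^ 2 + ‖p.2.1‖ ^ 2 + ‖p.2.2‖ ^ 2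
  rw [zero_mul, zero_mul, sub_zero, add_zero, norm_mul, norm_mul, norm_mul, norm_pow, hu,
      one_pow, one_mul, one_mul, one_mul]

theorem e12_homotopic_mk {A : Type} [TopologicalSpace A] (K : A → C3) (hK : Continuous K)
    (h1 : ∀ a, ((K a).1, (K a).2.1) ≠ ((0, 0) : ℂ × ℂ)) (h2 : ∀ a, (K a).2.2 ≠ 0) :
    ∃ F : C(A, ↥(UY ∩ VZ)), ∀ a, (F a).1.1 = e12_homotopic_nrm (K a) := by
  have hne : ∀ a, (((Real.sqrt (nsq (K a)))⁻¹ : ℝ) : ℂ) ≠ 0 := fun a =>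
    Complex.ofReal_ne_zero.2 (inv_ne_zero (Real.sqrt_pos.2 (e12_homotopic_nsq_pos _ (h2 a))).ne')
  have hcn : Continuous fun a => nsq (K a) := by
    unfold nsq
    fun_prop
  have hci : Continuous fun a => (((Real.sqrt (nsq (K a)))⁻¹ : ℝ) : ℂ) := by
    refine Complex.continuous_ofReal.comp ?_
    exact (Real.continuous_sqrt.comp hcn).inv₀
      (fun a => (Real.sqrt_pos.2 (e12_homotopic_nsq_pos _ (h2 a))).ne')
  have hc : Continuous fun a => e12_homotopic_nrm (K a) := by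
    unfold e12_homotopic_nrm
    exact (hci.mul hK.fst).prodMk ((hci.mul hK.snd.fst).prodMk (hci.mul hK.snd.snd))
  refine ⟨⟨fun a => ⟨⟨e12_homotopic_nrm (K a), e12_homotopic_nrm_nsq _ (h2 a)⟩, ?_, ?_⟩, ?_⟩, ?_⟩
  · show (((((Real.sqrt (nsq (K a)))⁻¹ : ℝ) : ℂ) * (K a).1,
      (((Real.sqrt (nsq (K a)))⁻¹ : ℝ) : ℂ) * (K a).2.1) : ℂ × ℂ) ≠ (0, 0)
    intro h
    have e1 : (((Real.sqrt (nsq (K a)))⁻¹ : ℝ) : ℂ) * (K a).1 = 0 := congrArg Prod.fst h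
    have e2 : (((Real.sqrt (nsq (K a)))⁻¹ : ℝ) : ℂ) * (K a).2.1 = 0 := congrArg Prod.snd h
    exact h1 a (Prod.ext ((mul_eq_zero.1 e1).resolve_left (hne a))
      ((mul_eq_zero.1 e2).resolve_left (hne a)))
  · show (((Real.sqrt (nsq (K a)))⁻¹ : ℝ) : ℂ) * (K a).2.2 ≠ 0
    exact mul_ne_zero (hne a) (h2 a)
  · exact (hc.subtype_mk _).subtype_mk _
  · intro a; rfl

/-- the homotopy before normalisation -/
noncomputable def e12_homotopic_K (r : ℝ) (u : ℂ) (p q : C3) : C3 :=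
  (((1 - r : ℝ) : ℂ) * p.1 + (r : ℂ) * (u * q.1), ((1 - r : ℝ) : ℂ) * p.2.1 + (r : ℂ) * (u * q.2.1),
    ((1 - r : ℝ) : ℂ) * p.2.2 + (r : ℂ) * (u ^ 2 * q.2.2))

theorem e12_homotopic_ne (r : ℝ) (hr0 : 0 ≤ r) (hr1 : r ≤ 1) (u : ℂ) (p q : C3)
    (hu : cc p q = (‖cc p q‖ : ℂ) * u) (hu1 : ‖u‖ = 1)
    (hpos : 0 < (cc p q ^ 2 * star p.2.2 * q.2.2).re) :
    ((e12_homotopic_K r u p q).1, (e12_homotopic_K r u p q).2.1) ≠ ((0, 0) : ℂ × ℂ) ∧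
      (e12_homotopic_K r u p q).2.2 ≠ 0 := by
  have hc0 : cc p q ≠ 0 := by
    intro h
    rw [h] at hpos
    simp at hpos
  have hcn : 0 < ‖cc p q‖ := norm_pos_iff.2 hc0
  have hu0 : u ≠ 0 := by
    intro h
    rw [h, norm_zero] at hu1
    exact zero_ne_one hu1
  have hz0 : q.2.2 ≠ 0 := by
    intro h
    rw [h] at hpos
    simp at hpos
  constructor
  · intro h
    have e1 : ((1 - r : ℝ) : ℂ) * p.1 + (r : ℂ) * (u * q.1) = 0 := congrArg Prod.fst h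
    have e2 : ((1 - r : ℝ) : ℂ) * p.2.1 + (r : ℂ) * (u * q.2.1) = 0 := congrArg Prod.snd h
    have hq1 : q.1 * star q.1 = ((‖q.1‖ ^ 2 : ℝ) : ℂ) := by
      rw [Complex.star_def, Complex.mul_conj, Complex.normSq_eq_norm_sq]
    have hq2 : q.2.1 * star q.2.1 = ((‖q.2.1‖ ^ 2 : ℝ) : ℂ) := by
      rw [Complex.star_def, Complex.mul_conj, Complex.normSq_eq_norm_sq]
    have hcc : cc p q = p.1 * star q.1 + p.2.1 * star q.2.1 := rfl
    have e3 : u * (((1 - r) * ‖cc p q‖ + r * (‖q.1‖ ^ 2 + ‖q.2.1‖ ^ 2) : ℝ) : ℂ) = 0 := by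
      have e4 : ((1 - r : ℝ) : ℂ) * cc p q +
          (r : ℂ) * (u * (((‖q.1‖ ^ 2 : ℝ) : ℂ) + ((‖q.2.1‖ ^ 2 : ℝ) : ℂ))) = 0 := by
        rw [hcc, ← hq1, ← hq2]
        linear_combination star q.1 * e1 + star q.2.1 * e2
      rw [hu] at e4
      rw [← e4]
      push_cast
      ring
    have e5 := (mul_eq_zero.1 e3).resolve_left hu0
    have e6 : (1 - r) * ‖cc p q‖ + r * (‖q.1‖ ^ 2 + ‖q.2.1‖ ^ 2) = 0 := Complex.ofReal_eq_zero.1 e5
    have hQ : 0 < ‖q.1‖ ^ 2 + ‖q.2.1‖ ^ 2 := by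
      by_contra hn
      have h1 : ‖q.1‖ ^ 2 = 0 := by nlinarith [sq_nonneg ‖q.1‖, sq_nonneg ‖q.2.1‖]
      have h2 : ‖q.2.1‖ ^ 2 = 0 := by nlinarith [sq_nonneg ‖q.1‖, sq_nonneg ‖q.2.1‖]
      have h3 : q.1 = 0 := norm_eq_zero.1 (pow_eq_zero_iff (by norm_num) |>.1 h1)
      have h4 : q.2.1 = 0 := norm_eq_zero.1 (pow_eq_zero_iff (by norm_num) |>.1 h2)
      apply hc0
      rw [hcc, h3, h4, star_zero, mul_zero, mul_zero, add_zero]
    rcases eq_or_lt_of_le hr1 with h1 | h1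
    · rw [h1] at e6
      linarith
    · have : 0 < (1 - r) * ‖cc p q‖ := mul_pos (by linarith) hcn
      have : 0 ≤ r * (‖q.1‖ ^ 2 + ‖q.2.1‖ ^ 2) := mul_nonneg hr0 hQ.le
      linarith
  · intro h
    have e1 : ((1 - r : ℝ) : ℂ) * p.2.2 + (r : ℂ) * (u ^ 2 * q.2.2) = 0 := h
    have e2 : (((1 - r : ℝ) : ℂ) * (star p.2.2 * (u ^ 2 * q.2.2)) +
        (r : ℂ) * ((u ^ 2 * q.2.2) * star (u ^ 2 * q.2.2))) = 0 := by
      have h' := congrArg star e1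
      rw [star_add, star_mul', star_mul', star_zero] at h'
      have s1 : star ((1 - r : ℝ) : ℂ) = ((1 - r : ℝ) : ℂ) := Complex.conj_ofReal _
      have s2 : star (r : ℂ) = (r : ℂ) := Complex.conj_ofReal _
      rw [s1, s2] at h'
      linear_combination (u ^ 2 * q.2.2) * h'
    have hw : (u ^ 2 * q.2.2) * star (u ^ 2 * q.2.2) = ((‖q.2.2‖ ^ 2 : ℝ) : ℂ) := by
      rw [Complex.star_def, Complex.mul_conj, Complex.normSq_eq_norm_sq, norm_mul, norm_pow, hu1,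
        one_pow, one_mul]
    have hv : (‖cc p q‖ ^ 2 : ℝ) * (star p.2.2 * (u ^ 2 * q.2.2)).re =
        (cc p q ^ 2 * star p.2.2 * q.2.2).re := by
      have : cc p q ^ 2 * star p.2.2 * q.2.2 =
          ((‖cc p q‖ ^ 2 : ℝ) : ℂ) * (star p.2.2 * (u ^ 2 * q.2.2)) := by
        have hu2 : cc p q ^ 2 = ((‖cc p q‖ ^ 2 : ℝ) : ℂ) * u ^ 2 := by
          have h9 : cc p q ^ 2 = ((‖cc p q‖ : ℂ) * u) ^ 2 := congrArg (fun w => w ^ 2) hu
          rw [h9, mul_pow]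
          push_cast
          ring
        rw [hu2]; ring
      rw [this, Complex.re_ofReal_mul]
    rw [hw] at e2
    have e3 := congrArg Complex.re e2
    rw [Complex.add_re, Complex.re_ofReal_mul, Complex.re_ofReal_mul, Complex.ofReal_re,
      Complex.zero_re] at e3
    have h3 : 0 < (star p.2.2 * (u ^ 2 * q.2.2)).re := by
      rw [← hv] at hpos
      exact (mul_pos_iff_of_pos_left (by positivity)).1 hpos
    have h4 : 0 < ‖q.2.2‖ ^ 2 := by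
      have := norm_pos_iff.2 hz0
      positivity
    rcases eq_or_lt_of_le hr1 with h1 | h1
    · rw [h1] at e3
      linarith
    · have h5 : 0 < (1 - r) * (star p.2.2 * (u ^ 2 * q.2.2)).re := mul_pos (by linarith) h3
      have h6 : 0 ≤ r * ‖q.2.2‖ ^ 2 := mul_nonneg hr0 h4.le
      linarith

theorem e12_homotopic (a : ℝ) (ha : a < 4 * Real.pi + 1) (f) (hf : IsE12 a f) (m)
    (hm : IsM12 a m) : ∃ g : C(Circle × ↥(O1 a ∩ O2 a), Circle × ↥(O1 a ∩ O2 a)),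
      (∀ p, (g p).2 = p.2) ∧ f.Homotopic (m.comp g) := by
  obtain ⟨-, -, -, -, hsurj, -, -, -⟩ := ci_facts
  have hat : Continuous fun q : ↥(O1 a ∩ O2 a) × unitInterval => at5 q.1.1.1 q.2 := by
    have h1 : Continuous fun q : ↥(O1 a ∩ O2 a) × unitInterval =>
        ((q.1.1.1.1, q.2) : (C3 × L2C) × unitInterval) := by fun_prop
    exact pt5_cont.comp h1
  have hat0 : Continuous fun q : ↥(O1 a ∩ O2 a) × unitInterval => at5 q.1.1.1 0 := by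
    have h1 : Continuous fun q : ↥(O1 a ∩ O2 a) × unitInterval =>
        ((q.1, 0) : ↥(O1 a ∩ O2 a) × unitInterval) := by fun_prop
    exact hat.comp h1
  have hcc : Continuous fun q : ↥(O1 a ∩ O2 a) × unitInterval =>
      cc (at5 q.1.1.1 q.2) (at5 q.1.1.1 0) := by
    unfold cc
    exact ((hat.fst.mul hat0.fst.star).add (hat.snd.fst.mul hat0.snd.fst.star))
  have hcc0 : ∀ q : ↥(O1 a ∩ O2 a) × unitInterval, cc (at5 q.1.1.1 q.2) (at5 q.1.1.1 0) ≠ 0 := by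
    intro q h
    have hp := o_pos a ha q.1 q.2
    rw [h] at hp
    simp at hp
  -- the direction of the hermitian product
  let ch : ↥(O1 a ∩ O2 a) × unitInterval → Circle := fun q =>
    ⟨(((‖cc (at5 q.1.1.1 q.2) (at5 q.1.1.1 0)‖)⁻¹ : ℝ) : ℂ) *
      cc (at5 q.1.1.1 q.2) (at5 q.1.1.1 0), mem_sphere_zero_iff_norm.mpr (by
        rw [norm_mul, Complex.norm_real, norm_inv, norm_norm]
        exact inv_mul_cancel₀ (norm_ne_zero_iff.2 (hcc0 q)))⟩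
  have hch : Continuous ch := by
    refine Continuous.subtype_mk ?_ _
    refine Continuous.mul (Complex.continuous_ofReal.comp ?_) hcc
    exact hcc.norm.inv₀ (fun q => norm_ne_zero_iff.2 (hcc0 q))
  have hchc : ∀ q : ↥(O1 a ∩ O2 a) × unitInterval, cc (at5 q.1.1.1 q.2) (at5 q.1.1.1 0) =
      (‖cc (at5 q.1.1.1 q.2) (at5 q.1.1.1 0)‖ : ℂ) * ((ch q : Circle) : ℂ) := by
    intro q
    show cc (at5 q.1.1.1 q.2) (at5 q.1.1.1 0) = (‖cc (at5 q.1.1.1 q.2) (at5 q.1.1.1 0)‖ : ℂ) *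
      ((((‖cc (at5 q.1.1.1 q.2) (at5 q.1.1.1 0)‖)⁻¹ : ℝ) : ℂ) *
      cc (at5 q.1.1.1 q.2) (at5 q.1.1.1 0))
    rw [← mul_assoc, ← Complex.ofReal_mul, mul_inv_cancel₀ (norm_ne_zero_iff.2 (hcc0 q)),
      Complex.ofReal_one, one_mul]
  have h01 : ∀ x : ↥(O1 a ∩ O2 a), at5 x.1.1 0 = at5 x.1.1 1 := fun x => (at5_facts x.1.1).2.1
  have hch01 : ∀ x : ↥(O1 a ∩ O2 a), ch (x, 0) = ch (x, 1) := by
    intro x
    apply Subtype.ext
    show (((‖cc (at5 x.1.1 0) (at5 x.1.1 0)‖)⁻¹ : ℝ) : ℂ) * cc (at5 x.1.1 0) (at5 x.1.1 0) =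
      (((‖cc (at5 x.1.1 1) (at5 x.1.1 0)‖)⁻¹ : ℝ) : ℂ) * cc (at5 x.1.1 1) (at5 x.1.1 0)
    rw [← h01 x]
  obtain ⟨g, hg⟩ := glue (A := ↥(O1 a ∩ O2 a)) (Z := Circle × ↥(O1 a ∩ O2 a))
    ⟨fun q => (ch q, q.1), hch.prodMk continuous_fst⟩ (by
      intro x
      show (ch (x, 0), x) = (ch (x, 1), x)
      rw [hch01 x])
  -- the homotopy before normalisation
  have hKc : Continuous fun q : (unitInterval × ↥(O1 a ∩ O2 a)) × unitInterval =>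
      e12_homotopic_K (q.1.1 : ℝ) (ch (q.1.2, q.2) : ℂ) (at5 q.1.2.1.1 q.2) (at5 q.1.2.1.1 0) := by
    have hq : Continuous fun q : (unitInterval × ↥(O1 a ∩ O2 a)) × unitInterval =>
        ((q.1.2, q.2) : ↥(O1 a ∩ O2 a) × unitInterval) := by fun_prop
    have k1 := hat.comp hq
    have k2 := hat0.comp hq
    have k3 : Continuous fun q : (unitInterval × ↥(O1 a ∩ O2 a)) × unitInterval =>
        ((ch (q.1.2, q.2) : Circle) : ℂ) := continuous_subtype_val.comp (hch.comp hq)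
    have k4 : Continuous fun q : (unitInterval × ↥(O1 a ∩ O2 a)) × unitInterval =>
        (((q.1.1 : ℝ)) : ℂ) := by fun_prop
    have k5 : Continuous fun q : (unitInterval × ↥(O1 a ∩ O2 a)) × unitInterval =>
        (((1 - (q.1.1 : ℝ) : ℝ)) : ℂ) := by fun_prop
    unfold e12_homotopic_K
    exact ((k5.mul k1.fst).add (k4.mul (k3.mul k2.fst))).prodMk
      (((k5.mul k1.snd.fst).add (k4.mul (k3.mul k2.snd.fst))).prodMk
      ((k5.mul k1.snd.snd).add (k4.mul ((k3.pow 2).mul k2.snd.snd))))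
  have hne := fun q : (unitInterval × ↥(O1 a ∩ O2 a)) × unitInterval =>
    e12_homotopic_ne (q.1.1 : ℝ) q.1.1.2.1 q.1.1.2.2 (ch (q.1.2, q.2) : ℂ) (at5 q.1.2.1.1 q.2)
      (at5 q.1.2.1.1 0) (hchc (q.1.2, q.2)) (Circle.norm_coe _) (o_pos a ha q.1.2 q.2)
  obtain ⟨F, hF⟩ := e12_homotopic_mk _ hKc (fun q => (hne q).1) (fun q => (hne q).2)
  obtain ⟨G, hG⟩ := glue (A := unitInterval × ↥(O1 a ∩ O2 a)) (Z := ↥(UY ∩ VZ)) F (by
      rintro ⟨r, x⟩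
      apply Subtype.ext
      apply Subtype.ext
      rw [hF, hF]
      show e12_homotopic_nrm (e12_homotopic_K (r : ℝ) (ch (x, 0) : ℂ) (at5 x.1.1 0) (at5 x.1.1 0)) =
        e12_homotopic_nrm (e12_homotopic_K (r : ℝ) (ch (x, 1) : ℂ) (at5 x.1.1 1) (at5 x.1.1 0))
      rw [← hch01 x, ← h01 x])
  refine ⟨g, ?_, ⟨⟨⟨fun w => G (w.2.1, (w.1, w.2.2)), by fun_prop⟩, ?_, ?_⟩⟩⟩
  · rintro ⟨s, x⟩
    obtain ⟨t, rfl⟩ := hsurj s
    rw [hg]
    rfl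
  · rintro ⟨s, x⟩
    obtain ⟨t, rfl⟩ := hsurj s
    show G (ci t, (0, x)) = f (ci t, x)
    rw [hG]
    apply Subtype.ext
    apply Subtype.ext
    rw [hF, hf x t]
    show e12_homotopic_nrm (e12_homotopic_K ((0 : unitInterval) : ℝ) (ch (x, t) : ℂ)
      (at5 x.1.1 t) (at5 x.1.1 0)) = at5 x.1.1 t
    have hK0 : e12_homotopic_K ((0 : unitInterval) : ℝ) (ch (x, t) : ℂ)
      (at5 x.1.1 t) (at5 x.1.1 0) = at5 x.1.1 t := by
      simp [e12_homotopic_K]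
    rw [hK0]
    exact e12_homotopic_nrm_id _ ((at5_facts x.1.1).1 t)
  · rintro ⟨s, x⟩
    obtain ⟨t, rfl⟩ := hsurj s
    show G (ci t, (1, x)) = m (g (ci t, x))
    rw [hG, hg]
    show F ((1, x), t) = m (ch (x, t), x)
    apply Subtype.ext
    apply Subtype.ext
    rw [hF, hm]
    show e12_homotopic_nrm (e12_homotopic_K ((1 : unitInterval) : ℝ) (ch (x, t) : ℂ)
      (at5 x.1.1 t) (at5 x.1.1 0)) = mk3 (qm (ch (x, t)) 0 ((at5 x.1.1 0).1, (at5 x.1.1 0).2.1))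
      ((ch (x, t) : ℂ) ^ 2 * (at5 x.1.1 0).2.2)
    have hK1 : e12_homotopic_K ((1 : unitInterval) : ℝ) (ch (x, t) : ℂ)
      (at5 x.1.1 t) (at5 x.1.1 0) = mk3 (qm (ch (x, t)) 0 ((at5 x.1.1 0).1, (at5 x.1.1 0).2.1))
      ((ch (x, t) : ℂ) ^ 2 * (at5 x.1.1 0).2.2) := by
      simp [e12_homotopic_K, mk3, qm]
    rw [hK1]
    apply e12_homotopic_nrm_id
    have hn := (at5_facts x.1.1).1 0
    exact (e12_homotopic_nsq1 _ (Circle.norm_coe _) _).trans hn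

end Pool.Agent.Helper534.LS
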