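import Pool.Agent.Helper534.L5.Defs5
import Pool.Agent.Helper534.L5.P_pt5_cont
import Pool.Agent.Helper534.L5.P_at5_facts

open MeasureTheory

namespace Pool.Agent.Helper534.LS



theorem m12_exists_nsq (s : Circle) (p : C3) :
    nsq (mk3 (qm s 0 (p.1, p.2.1)) ((s : ℂ) ^ 2 * p.2.2)) = nsq p := by
  simp [nsq, mk3, qm]

theorem m12_exists_bds (a : ℝ) (x : ↥(O1 a ∩ O2 a)) :
    nsq x.1.1.1.1 = 1 ∧ ‖(x.1.1.1.1).2.2‖ < 1 / 2 ∧ 1 / 4 < ‖(x.1.1.1.1).2.2‖ := by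
  obtain ⟨h1, -, h3, -⟩ := at5_facts x.1.1
  have h4 := h1 0
  have h5 := x.2.1 0
  have h6 := x.2.2 0
  rw [h3] at h4 h5 h6
  exact ⟨h4, h5, h6⟩

theorem m12_exists (a : ℝ) : ∃ m, IsM12 a m := by
  have hc : Continuous (fun x : ↥(O1 a ∩ O2 a) => (x.1.1.1.1 : C3)) := by
    fun_prop
  have hmem : ∀ q : Circle × ↥(O1 a ∩ O2 a),
      nsq (mk3 (qm q.1 0 ((q.2.1.1.1.1).1, (q.2.1.1.1.1).2.1))
        ((q.1 : ℂ) ^ 2 * (q.2.1.1.1.1).2.2)) = 1 := by
    intro q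
    rw [m12_exists_nsq]
    exact (m12_exists_bds a q.2).1
  have hUV : ∀ q : Circle × ↥(O1 a ∩ O2 a),
      (⟨mk3 (qm q.1 0 ((q.2.1.1.1.1).1, (q.2.1.1.1.1).2.1))
        ((q.1 : ℂ) ^ 2 * (q.2.1.1.1.1).2.2), hmem q⟩ : S5) ∈ UY ∩ VZ := by
    intro q
    obtain ⟨h1, h2, h3⟩ := m12_exists_bds a q.2
    have hs : (q.1 : ℂ) ≠ 0 := by
      intro h
      have := Circle.norm_coe q.1
      rw [h] at this
      simp at this
    constructor
    · intro h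
      simp only [mk3, qm, zero_mul, sub_zero, add_zero, Prod.mk.injEq, mul_eq_zero, hs,
        false_or] at h
      obtain ⟨h4, h5⟩ := h
      simp only [nsq] at h1
      rw [h4, h5] at h1
      simp only [norm_zero] at h1
      nlinarith [norm_nonneg (q.2.1.1.1.1).2.2]
    · intro h
      simp only [mk3, mul_eq_zero, pow_eq_zero_iff (two_ne_zero), hs, false_or] at h
      rw [h, norm_zero] at h3
      linarith
  have hcont : Continuous (fun q : Circle × ↥(O1 a ∩ O2 a) =>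
      (mk3 (qm q.1 0 ((q.2.1.1.1.1).1, (q.2.1.1.1.1).2.1))
        ((q.1 : ℂ) ^ 2 * (q.2.1.1.1.1).2.2) : C3)) := by
    have h1 : Continuous (fun q : Circle × ↥(O1 a ∩ O2 a) => (q.2.1.1.1.1 : C3)) :=
      hc.comp continuous_snd
    have h2 : Continuous (fun q : Circle × ↥(O1 a ∩ O2 a) => (q.1 : ℂ)) := by fun_prop
    simp only [mk3, qm]
    fun_prop
  refine ⟨⟨fun q => ⟨⟨_, hmem q⟩, hUV q⟩, ?_⟩, ?_⟩
  · exact Continuous.subtype_mk (Continuous.subtype_mk hcont _) _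
  · intro s x
    have h3 := (at5_facts x.1.1).2.2.1
    rw [h3]
    rfl

end Pool.Agent.Helper534.LS
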