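import Pool.Agent.Helper534.L5.Defs5
import Pool.Agent.Helper534.LS.P_hmap_homotopic
import Pool.Agent.Helper534.LS.P_sig_sq
import Pool.Agent.Helper534.L5.P_pt5_cont
import Pool.Agent.Helper534.L5.P_at5_facts

open MeasureTheory

namespace Pool.Agent.Helper534.LS



/-- first two coordinates of the starting point -/
noncomputable def m_double_y (a : ℝ) (x : ↥(O1 a ∩ O2 a)) : ℂ × ℂ :=
  ((at5 x.1.1 0).1, (at5 x.1.1 0).2.1)

/-- last coordinate of the starting point -/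
noncomputable def m_double_z (a : ℝ) (x : ↥(O1 a ∩ O2 a)) : ℂ := (at5 x.1.1 0).2.2

theorem m_double_base_cont (a : ℝ) : Continuous (fun x : ↥(O1 a ∩ O2 a) => at5 x.1.1 0) := by
  have : (fun x : ↥(O1 a ∩ O2 a) => at5 x.1.1 0) = fun x => x.1.1.1.1 := by
    funext x; exact (at5_facts x.1.1).2.2.1
  rw [this]; fun_prop

theorem m_double_y_cont (a : ℝ) : Continuous (m_double_y a) :=
  ((m_double_base_cont a).fst).prodMk ((m_double_base_cont a).snd.fst)

theorem m_double_z_cont (a : ℝ) : Continuous (m_double_z a) :=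
  (m_double_base_cont a).snd.snd

theorem m_double_qm (α β : ℂ) (y : ℂ × ℂ) :
    ‖(qm α β y).1‖ ^ 2 + ‖(qm α β y).2‖ ^ 2 =
      (‖α‖ ^ 2 + ‖β‖ ^ 2) * (‖y.1‖ ^ 2 + ‖y.2‖ ^ 2) := by
  simp only [qm, ← Complex.normSq_eq_norm_sq, Complex.normSq_apply, Complex.sub_re, Complex.sub_im,
    Complex.add_re, Complex.add_im, Complex.mul_re, Complex.mul_im, Complex.star_def,
    Complex.conj_re, Complex.conj_im]
  ring

theorem m_double_facts (a : ℝ) (x : ↥(O1 a ∩ O2 a)) :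
    ‖(m_double_y a x).1‖ ^ 2 + ‖(m_double_y a x).2‖ ^ 2 + ‖m_double_z a x‖ ^ 2 = 1 ∧
    ‖m_double_z a x‖ < 1 / 2 ∧ 1 / 4 < ‖m_double_z a x‖ := by
  refine ⟨(at5_facts x.1.1).1 0, x.2.1 0, x.2.2 0⟩

theorem m_double_mem (a : ℝ) (x : ↥(O1 a ∩ O2 a)) (α β γ : ℂ) (h : ‖α‖ ^ 2 + ‖β‖ ^ 2 = 1)
    (hγ : ‖γ‖ = 1) :
    ∃ hp : nsq (mk3 (qm α β (m_double_y a x)) (γ * m_double_z a x)) = 1,
      (⟨mk3 (qm α β (m_double_y a x)) (γ * m_double_z a x), hp⟩ : S5) ∈ UY ∩ VZ := by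
  obtain ⟨h1, h2, h3⟩ := m_double_facts a x
  have h4 := m_double_qm α β (m_double_y a x)
  rw [h, one_mul] at h4
  have h5 : ‖γ * m_double_z a x‖ = ‖m_double_z a x‖ := by rw [norm_mul, hγ, one_mul]
  have hp : nsq (mk3 (qm α β (m_double_y a x)) (γ * m_double_z a x)) = 1 := by
    change ‖(qm α β (m_double_y a x)).1‖ ^ 2 + ‖(qm α β (m_double_y a x)).2‖ ^ 2 +
      ‖γ * m_double_z a x‖ ^ 2 = 1
    rw [h5, h4, h1]
  refine ⟨hp, ?_, ?_⟩
  · change ((qm α β (m_double_y a x)).1, (qm α β (m_double_y a x)).2) ≠ ((0, 0) : ℂ × ℂ)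
    intro h0
    have e1 := congrArg Prod.fst h0
    have e2 := congrArg Prod.snd h0
    simp only at e1 e2
    rw [e1, e2] at h4
    simp only [norm_zero] at h4
    have h6 := norm_nonneg (m_double_z a x)
    nlinarith
  · change γ * m_double_z a x ≠ 0
    intro h0
    rw [h0, norm_zero] at h5
    linarith

/-- families of points -/
noncomputable def m_double_K (a : ℝ) {Y : Type} [TopologicalSpace Y] (α β γ : Y → ℂ)
    (b : Y → ↥(O1 a ∩ O2 a)) (hα : Continuous α) (hβ : Continuous β) (hγ : Continuous γ)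
    (hb : Continuous b) (h : ∀ y, ‖α y‖ ^ 2 + ‖β y‖ ^ 2 = 1) (hγ' : ∀ y, ‖γ y‖ = 1) :
    C(Y, ↥(UY ∩ VZ)) :=
  ⟨fun y => ⟨⟨mk3 (qm (α y) (β y) (m_double_y a (b y))) (γ y * m_double_z a (b y)),
      (m_double_mem a (b y) (α y) (β y) (γ y) (h y) (hγ' y)).choose⟩,
      (m_double_mem a (b y) (α y) (β y) (γ y) (h y) (hγ' y)).choose_spec⟩, by
    apply Continuous.subtype_mk
    apply Continuous.subtype_mk
    have h1 : Continuous (fun y => m_double_y a (b y)) := (m_double_y_cont a).comp hb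
    have h2 : Continuous (fun y => m_double_z a (b y)) := (m_double_z_cont a).comp hb
    have h3 : Continuous (fun y => (m_double_y a (b y)).1) := h1.fst
    have h4 : Continuous (fun y => (m_double_y a (b y)).2) := h1.snd
    simp only [mk3, qm]
    exact ((hα.mul h3).sub (hβ.mul h4.star)).prodMk
      (((hα.mul h4).add (hβ.mul h3.star)).prodMk (hγ.mul h2))⟩

theorem m_double_K_apply (a : ℝ) {Y : Type} [TopologicalSpace Y] (α β γ : Y → ℂ)
    (b : Y → ↥(O1 a ∩ O2 a)) (hα : Continuous α) (hβ : Continuous β) (hγ : Continuous γ)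
    (hb : Continuous b) (h : ∀ y, ‖α y‖ ^ 2 + ‖β y‖ ^ 2 = 1) (hγ' : ∀ y, ‖γ y‖ = 1) (y : Y) :
    (m_double_K a α β γ b hα hβ hγ hb h hγ' y).1.1 =
      mk3 (qm (α y) (β y) (m_double_y a (b y))) (γ y * m_double_z a (b y)) := rfl

theorem m_double (a : ℝ) (m) (hm : IsM12 a m) :
    ∃ n : C(Circle × ↥(O1 a ∩ O2 a), ↥(UY ∩ VZ)), ∀ w : HH ↥(O1 a ∩ O2 a) 3,
      hmap m 4 (sig ↥(O1 a ∩ O2 a) 3 w) = (2 : ℤ) • hmap n 4 (sig ↥(O1 a ∩ O2 a) 3 w) := by
  let n : C(Circle × ↥(O1 a ∩ O2 a), ↥(UY ∩ VZ)) :=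
    m_double_K a (fun _ => 0) (fun _ => 1) (fun q => (q.1 : ℂ)) (fun q => q.2)
      (by fun_prop) (by fun_prop) (by fun_prop) (by fun_prop) (fun _ => by simp)
      (fun q => Circle.norm_coe q.1)
  let m' : C(Circle × ↥(O1 a ∩ O2 a), ↥(UY ∩ VZ)) :=
    m_double_K a (fun _ => 0) (fun _ => 1) (fun q => (q.1 : ℂ) ^ 2) (fun q => q.2)
      (by fun_prop) (by fun_prop) (by fun_prop) (by fun_prop) (fun _ => by simp)
      (fun q => by rw [norm_pow, Circle.norm_coe, one_pow])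
  let H : C(unitInterval × (Circle × ↥(O1 a ∩ O2 a)), ↥(UY ∩ VZ)) :=
    m_double_K a (fun q => ((Real.cos (Real.pi / 2 * (q.1 : ℝ)) : ℝ) : ℂ) * (q.2.1 : ℂ))
      (fun q => ((Real.sin (Real.pi / 2 * (q.1 : ℝ)) : ℝ) : ℂ)) (fun q => (q.2.1 : ℂ) ^ 2)
      (fun q => q.2.2)
      (by fun_prop) (by fun_prop) (by fun_prop) (by fun_prop)
      (fun q => by
        rw [norm_mul, Circle.norm_coe, mul_one, Complex.norm_real, Complex.norm_real,
          Real.norm_eq_abs, Real.norm_eq_abs, sq_abs, sq_abs]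
        exact Real.cos_sq_add_sin_sq _)
      (fun q => by rw [norm_pow, Circle.norm_coe, one_pow])
  have hhom : m.Homotopic m' := by
    refine ⟨⟨H, ?_, ?_⟩⟩
    · intro p
      apply Subtype.ext
      apply Subtype.ext
      change (H (0, p)).1.1 = (m p).1.1
      rw [m_double_K_apply, hm p.1 p.2]
      simp [m_double_y, m_double_z]
    · intro p
      apply Subtype.ext
      apply Subtype.ext
      change (H (1, p)).1.1 = (m' p).1.1
      rw [m_double_K_apply, m_double_K_apply]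
      simp
  refine ⟨n, fun w => ?_⟩
  rw [hmap_homotopic m m' hhom 4]
  apply sig_sq n m'
  intro p
  apply Subtype.ext
  apply Subtype.ext
  rw [m_double_K_apply, m_double_K_apply]
  simp

end Pool.Agent.Helper534.LS
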