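import Pool.Agent.Helper534.L5.Defs5
import Pool.Agent.Helper534.LS.P_hmap_comp
import Pool.Agent.Helper534.LS.P_hmap_homotopic
import Pool.Agent.Helper534.LS.P_par_spec
import Pool.Agent.Helper534.L5.P_m12_exists
import Pool.Agent.Helper534.L5.P_e12_homotopic
import Pool.Agent.Helper534.L5.P_m_double

open MeasureTheory

namespace Pool.Agent.Helper534.LS



theorem e12_div (a : ℝ) (ha : a < 4 * Real.pi + 1) (f) (hf : IsE12 a f)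
    (b : HH (Circle × ↥(O1 a ∩ O2 a)) 4) (hb : hmap (prQ ↥(O1 a ∩ O2 a)) 4 b = 0) :
    ∃ w, hmap f 4 b = (2 : ℤ) • w := by
  obtain ⟨m, hm⟩ := m12_exists a
  obtain ⟨g, hg, hfg⟩ := e12_homotopic a ha f hf m hm
  obtain ⟨n, hn⟩ := m_double a m hm
  have hpr : (prQ ↥(O1 a ∩ O2 a)).comp g = prQ ↥(O1 a ∩ O2 a) := by
    apply ContinuousMap.ext
    intro p
    exact hg p
  have h1 : hmap f 4 b = hmap m 4 (hmap g 4 b) := by
    rw [hmap_homotopic f (m.comp g) hfg 4, hmap_comp]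
  have h2 : hmap (prQ ↥(O1 a ∩ O2 a)) 4 (hmap g 4 b) = 0 := by
    rw [← hmap_comp, hpr, hb]
  have h3 : ∀ c : HH (Circle × ↥(O1 a ∩ O2 a)) 4, hmap (prQ ↥(O1 a ∩ O2 a)) 4 c = 0 →
      c = sig ↥(O1 a ∩ O2 a) 3 (par ↥(O1 a ∩ O2 a) 3 c) := by
    intro c hc
    have h4 := par_spec ↥(O1 a ∩ O2 a) 3 c
    have h5 : hmap (iota ↥(O1 a ∩ O2 a)) (3 + 1) (hmap (prQ ↥(O1 a ∩ O2 a)) (3 + 1) c) = 0 := by
      have h6 : hmap (prQ ↥(O1 a ∩ O2 a)) (3 + 1) c = 0 := hc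
      rw [h6, map_zero]
    rw [h5, zero_add] at h4
    exact h4
  refine ⟨hmap n 4 (sig ↥(O1 a ∩ O2 a) 3 (par ↥(O1 a ∩ O2 a) 3 (hmap g 4 b))), ?_⟩
  rw [← hn, ← h3 _ h2, h1]

end Pool.Agent.Helper534.LS
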