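import Pool.Agent.Helper534.L5.Defs5
import Pool.Agent.Helper534.LS.P_hmap_comp
import Pool.Agent.Helper534.LS.P_hmap_id
import Pool.Agent.Helper534.LS.P_tor_vanish

open MeasureTheory

namespace Pool.Agent.Helper534.LS



theorem circle_zero (n : ℕ) (x : HH Circle (n + 2)) : x = 0 := by
  obtain ⟨f, hf⟩ : ∃ f : C(Circle, T1), ∀ z, f z = (z, ()) :=
    ⟨⟨fun z => (z, ()), by fun_prop⟩, fun _ => rfl⟩
  obtain ⟨g, hg⟩ : ∃ g : C(T1, Circle), ∀ p, g p = p.1 :=
    ⟨⟨fun p => p.1, by fun_prop⟩, fun _ => rfl⟩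
  have hgf : g.comp f = ContinuousMap.id Circle := by
    ext z
    rw [ContinuousMap.comp_apply, hf, hg]
    rfl
  have h1 := hmap_comp f g (n + 2) x
  rw [hgf, hmap_id, (tor_vanish n).2.1 (hmap f (n + 2) x), map_zero] at h1
  exact h1

end Pool.Agent.Helper534.LS
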