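import Pool.Agent.Helper534.L5.Defs5
import Pool.Agent.Helper534.LS.P_hmap_comp
import Pool.Agent.Helper534.LS.P_hmap_id
import Pool.Agent.Helper534.LS.P_hmap_homotopic
import Pool.Agent.Helper534.L5.P_circle_zero

open MeasureTheory

namespace Pool.Agent.Helper534.LS



theorem s3_U_ne (y : U1) : y.1.1.1 ≠ 0 := y.2

theorem s3_U_pos (s : unitInterval) (y : U1) :
    0 < ‖y.1.1.1‖ ^ 2 + (s : ℝ) ^ 2 * ‖y.1.1.2‖ ^ 2 := by
  have h := norm_pos_iff.2 (s3_U_ne y)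
  positivity

/-- projection to the circle -/
noncomputable def s3_U_r : C(U1, Circle) :=
  ⟨fun y => ⟨y.1.1.1 / ((‖y.1.1.1‖ : ℝ) : ℂ), mem_sphere_zero_iff_norm.mpr (by
      have h := norm_pos_iff.2 (s3_U_ne y)
      rw [norm_div, Complex.norm_real, norm_norm, div_self h.ne'])⟩, by
    refine Continuous.subtype_mk ?_ _
    refine Continuous.div (by fun_prop) (by fun_prop) ?_
    intro y
    exact_mod_cast (norm_pos_iff.2 (s3_U_ne y)).ne'⟩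

/-- the circle in `U1` -/
noncomputable def s3_U_i : C(Circle, U1) :=
  ⟨fun z => ⟨⟨((z : ℂ), 0), by
      have h : ‖(z : ℂ)‖ = 1 := Circle.norm_coe z
      simp only [h, norm_zero]; norm_num⟩, by
      change (z : ℂ) ≠ 0
      exact z.coe_ne_zero⟩, by
    refine Continuous.subtype_mk (Continuous.subtype_mk ?_ _) _
    fun_prop⟩

/-- the homotopy -/
noncomputable def s3_U_H (p : unitInterval × U1) : U1 :=
  ⟨⟨(p.2.1.1.1 / ((√(‖p.2.1.1.1‖ ^ 2 + (p.1 : ℝ) ^ 2 * ‖p.2.1.1.2‖ ^ 2) : ℝ) : ℂ),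
      ((p.1 : ℝ) : ℂ) * p.2.1.1.2 /
        ((√(‖p.2.1.1.1‖ ^ 2 + (p.1 : ℝ) ^ 2 * ‖p.2.1.1.2‖ ^ 2) : ℝ) : ℂ)), by
      have h := s3_U_pos p.1 p.2
      simp only [norm_div, norm_mul, Complex.norm_real, Real.norm_eq_abs,
        abs_of_nonneg (Real.sqrt_nonneg _), div_pow, mul_pow, Real.sq_sqrt h.le, sq_abs]
      rw [← add_div, div_self h.ne']⟩, by
    change p.2.1.1.1 / _ ≠ 0
    refine div_ne_zero (s3_U_ne p.2) ?_
    exact_mod_cast (Real.sqrt_pos.2 (s3_U_pos p.1 p.2)).ne'⟩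

theorem s3_U_Hc : Continuous s3_U_H := by
  unfold s3_U_H
  refine Continuous.subtype_mk (Continuous.subtype_mk ?_ _) _
  have hne : ∀ p : unitInterval × U1,
      ((√(‖p.2.1.1.1‖ ^ 2 + (p.1 : ℝ) ^ 2 * ‖p.2.1.1.2‖ ^ 2) : ℝ) : ℂ) ≠ 0 := by
    intro p
    exact_mod_cast (Real.sqrt_pos.2 (s3_U_pos p.1 p.2)).ne'
  have hc : Continuous (fun p : unitInterval × U1 =>
      ((√(‖p.2.1.1.1‖ ^ 2 + (p.1 : ℝ) ^ 2 * ‖p.2.1.1.2‖ ^ 2) : ℝ) : ℂ)) := by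
    fun_prop
  refine Continuous.prodMk ?_ ?_
  · exact Continuous.div (by fun_prop) hc hne
  · exact Continuous.div (by fun_prop) hc hne

theorem s3_U_hom : (s3_U_i.comp s3_U_r).Homotopic (ContinuousMap.id U1) := by
  refine ⟨⟨⟨s3_U_H, s3_U_Hc⟩, ?_, ?_⟩⟩
  · intro y
    apply Subtype.ext
    apply Subtype.ext
    apply Prod.ext
    · have e : (((s3_U_i.comp s3_U_r) y).1.1).1 = y.1.1.1 / ((‖y.1.1.1‖ : ℝ) : ℂ) := rfl
      rw [e]
      simp [s3_U_H, Real.sqrt_sq (norm_nonneg _)]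
    · simp [s3_U_H, s3_U_i, s3_U_r]
  · intro y
    have h := y.1.2
    apply Subtype.ext
    apply Subtype.ext
    apply Prod.ext
    · simp [s3_U_H, h]
    · simp [s3_U_H, h]

theorem s3_U_one (n : ℕ) (x : HH U1 (n + 2)) : x = 0 := by
  rw [← hmap_id (n + 2) x, ← hmap_homotopic _ _ s3_U_hom, hmap_comp,
    circle_zero n (hmap s3_U_r (n + 2) x), map_zero]

/-- swap -/
noncomputable def s3_U_s : C(U2, U1) :=
  ⟨fun y => ⟨⟨(y.1.1.2, y.1.1.1), (add_comm _ _).trans y.1.2⟩, y.2⟩, by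
    refine Continuous.subtype_mk (Continuous.subtype_mk ?_ _) _
    fun_prop⟩

/-- swap -/
noncomputable def s3_U_t : C(U1, U2) :=
  ⟨fun y => ⟨⟨(y.1.1.2, y.1.1.1), (add_comm _ _).trans y.1.2⟩, y.2⟩, by
    refine Continuous.subtype_mk (Continuous.subtype_mk ?_ _) _
    fun_prop⟩

theorem s3_U (n : ℕ) : (∀ x : HH U1 (n + 2), x = 0) ∧ (∀ x : HH U2 (n + 2), x = 0) := by
  refine ⟨s3_U_one n, ?_⟩
  intro x
  have h : s3_U_t.comp s3_U_s = ContinuousMap.id U2 := rfl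
  rw [← hmap_id (n + 2) x, ← h, hmap_comp, s3_U_one n (hmap s3_U_s (n + 2) x), map_zero]

end Pool.Agent.Helper534.LS
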