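import Pool.Agent.Helper534.L5.Defs5

open MeasureTheory

namespace Pool.Agent.Helper534.LS



theorem s3_cov : IsOpen U1 ∧ IsOpen U2 ∧ ∀ y, y ∈ U1 ∨ y ∈ U2 := by
  refine ⟨?_, ?_, ?_⟩
  · have h : Continuous (fun y : S3 => y.1.1) := continuous_fst.comp continuous_subtype_val
    exact isOpen_ne_fun h continuous_const
  · have h : Continuous (fun y : S3 => y.1.2) := continuous_snd.comp continuous_subtype_val
    exact isOpen_ne_fun h continuous_const
  · intro y
    by_contra hcon
    push Not at hcon
    obtain ⟨h1, h2⟩ := hcon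
    have h1' : y.1.1 = 0 := by
      by_contra h
      exact h1 h
    have h2' : y.1.2 = 0 := by
      by_contra h
      exact h2 h
    have h3 := y.2
    rw [h1', h2'] at h3
    norm_num at h3

end Pool.Agent.Helper534.LS
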