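import Pool.Agent.Helper534.L5.Defs5
import Pool.Agent.Helper534.LS.P_hmap_comp
import Pool.Agent.Helper534.LS.P_hmap_id
import Pool.Agent.Helper534.LS.P_hmap_homotopic
import Pool.Agent.Helper534.LS.P_mv_exact1
import Pool.Agent.Helper534.LS.P_tor_vanish
import Pool.Agent.Helper534.L5.P_s3_cov
import Pool.Agent.Helper534.L5.P_s3_U
import Pool.Agent.Helper534.L5.P_tau_facts

open MeasureTheory

namespace Pool.Agent.Helper534.LS



theorem s3_vanish (n : ℕ) (x : HH S3 (n + 4)) : x = 0 := by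
  obtain ⟨hU, hV, hUV⟩ := s3_cov
  obtain ⟨τ, _, r, _, hhom⟩ := tau_facts
  have h0 : delta U1 U2 (n + 3) x = 0 := by
    generalize delta U1 U2 (n + 3) x = w
    have h1 : hmap (τ.comp r) (n + 3) w = w := by
      rw [hmap_homotopic _ _ hhom, hmap_id]
    rw [hmap_comp, (tor_vanish n).2.2.1 (hmap r (n + 3) w), map_zero] at h1
    exact h1.symm
  obtain ⟨u, v, huv⟩ := mv_exact1 U1 U2 hU hV hUV (n + 3) x h0
  rw [huv, (s3_U (n + 2)).1 u, (s3_U (n + 2)).2 v, map_zero, map_zero, add_zero]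

end Pool.Agent.Helper534.LS
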