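import Pool.Agent.Helper534.L5.Defs5
import Pool.Agent.Helper534.LS.P_hmap_comp
import Pool.Agent.Helper534.LS.P_hmap_id
import Pool.Agent.Helper534.LS.P_hmap_homotopic
import Pool.Agent.Helper534.L5.P_s3_vanish

open MeasureTheory

namespace Pool.Agent.Helper534.LS



theorem uy_zero_pos (p : ↥UY) (s : ℝ) :
    0 < ‖p.1.1.1‖ ^ 2 + ‖p.1.1.2.1‖ ^ 2 + ‖(s : ℂ) * p.1.1.2.2‖ ^ 2 := by
  have hp : (p.1.1.1, p.1.1.2.1) ≠ ((0, 0) : ℂ × ℂ) := p.2
  by_contra hcon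
  apply hp
  have h1 : ‖p.1.1.1‖ ^ 2 = 0 := by
    nlinarith [sq_nonneg ‖p.1.1.1‖, sq_nonneg ‖p.1.1.2.1‖, sq_nonneg ‖(s : ℂ) * p.1.1.2.2‖]
  have h2 : ‖p.1.1.2.1‖ ^ 2 = 0 := by
    nlinarith [sq_nonneg ‖p.1.1.1‖, sq_nonneg ‖p.1.1.2.1‖, sq_nonneg ‖(s : ℂ) * p.1.1.2.2‖]
  have e1 : p.1.1.1 = 0 := by simpa using h1
  have e2 : p.1.1.2.1 = 0 := by simpa using h2
  rw [e1, e2]

/-- normalising factor -/
noncomputable def uy_zero_N (s : ℝ) (p : ↥UY) : ℝ :=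
  (Real.sqrt (‖p.1.1.1‖ ^ 2 + ‖p.1.1.2.1‖ ^ 2 + ‖(s : ℂ) * p.1.1.2.2‖ ^ 2))⁻¹

theorem uy_zero_Nne (s : ℝ) (p : ↥UY) : uy_zero_N s p ≠ 0 :=
  inv_ne_zero (Real.sqrt_pos.2 (uy_zero_pos p s)).ne'

theorem uy_zero_Nsq (s : ℝ) (p : ↥UY) : uy_zero_N s p ^ 2 *
    (‖p.1.1.1‖ ^ 2 + ‖p.1.1.2.1‖ ^ 2 + ‖(s : ℂ) * p.1.1.2.2‖ ^ 2) = 1 := by
  unfold uy_zero_N
  rw [inv_pow, Real.sq_sqrt (uy_zero_pos p s).le]
  exact inv_mul_cancel₀ (uy_zero_pos p s).ne'

theorem uy_zero_Nc {Z : Type} [TopologicalSpace Z] (f : Z → ℝ) (g : Z → ↥UY)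
    (hf : Continuous f) (hg : Continuous g) : Continuous (fun z => uy_zero_N (f z) (g z)) := by
  unfold uy_zero_N
  refine Continuous.inv₀ (by fun_prop) ?_
  intro z
  exact (Real.sqrt_pos.2 (uy_zero_pos (g z) (f z))).ne'

/-- the homotopy, with values in `C3` -/
noncomputable def uy_zero_hf (s : ℝ) (p : ↥UY) : C3 :=
  ((uy_zero_N s p : ℂ) * p.1.1.1, (uy_zero_N s p : ℂ) * p.1.1.2.1,
    (uy_zero_N s p : ℂ) * ((s : ℂ) * p.1.1.2.2))

theorem uy_zero_hf_nsq (s : ℝ) (p : ↥UY) : nsq (uy_zero_hf s p) = 1 := by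
  unfold nsq uy_zero_hf
  have h := uy_zero_Nsq s p
  simp only [norm_mul, mul_pow, Complex.norm_real, Real.norm_eq_abs, sq_abs] at h ⊢
  linarith

theorem uy_zero_hf_ne (s : ℝ) (p : ↥UY) :
    ((uy_zero_hf s p).1, (uy_zero_hf s p).2.1) ≠ ((0, 0) : ℂ × ℂ) := by
  have hp : (p.1.1.1, p.1.1.2.1) ≠ ((0, 0) : ℂ × ℂ) := p.2
  intro h
  apply hp
  have h1 : (uy_zero_N s p : ℂ) * p.1.1.1 = 0 := congrArg Prod.fst h
  have h2 : (uy_zero_N s p : ℂ) * p.1.1.2.1 = 0 := congrArg Prod.snd h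
  have hN : (uy_zero_N s p : ℂ) ≠ 0 := by exact_mod_cast uy_zero_Nne s p
  rw [(mul_eq_zero.1 h1).resolve_left hN, (mul_eq_zero.1 h2).resolve_left hN]

theorem uy_zero_hf_cont {Z : Type} [TopologicalSpace Z] (f : Z → ℝ) (g : Z → ↥UY)
    (hf : Continuous f) (hg : Continuous g) : Continuous (fun z => uy_zero_hf (f z) (g z)) := by
  unfold uy_zero_hf
  have h := uy_zero_Nc f g hf hg
  have h' : Continuous (fun z => ((uy_zero_N (f z) (g z) : ℝ) : ℂ)) :=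
    Complex.continuous_ofReal.comp h
  refine Continuous.prodMk (h'.mul (by fun_prop))
    (Continuous.prodMk (h'.mul (by fun_prop)) (h'.mul (by fun_prop)))

theorem uy_zero_hf_contI :
    Continuous (fun q : unitInterval × ↥UY => uy_zero_hf (q.1 : ℝ) q.2) :=
  uy_zero_hf_cont (fun q : unitInterval × ↥UY => (q.1 : ℝ)) (fun q => q.2)
    (continuous_subtype_val.comp continuous_fst) continuous_snd

theorem uy_zero_hf_cont0 (s : ℝ) :
    Continuous (fun p : ↥UY => uy_zero_hf s p) :=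
  uy_zero_hf_cont (fun _ => s) (fun p => p) continuous_const continuous_id

/-- the homotopy -/
noncomputable def uy_zero_H : C(unitInterval × ↥UY, ↥UY) :=
  ⟨fun q => ⟨⟨uy_zero_hf (q.1 : ℝ) q.2, uy_zero_hf_nsq _ _⟩, uy_zero_hf_ne _ _⟩,
    Continuous.subtype_mk (Continuous.subtype_mk uy_zero_hf_contI _) _⟩

/-- the retraction -/
noncomputable def uy_zero_r : C(↥UY, S3) :=
  ⟨fun p => ⟨((uy_zero_hf 0 p).1, (uy_zero_hf 0 p).2.1), by
    have h := uy_zero_hf_nsq 0 p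
    have h3 : (uy_zero_hf 0 p).2.2 = 0 := by
      simp [uy_zero_hf]
    unfold nsq at h
    rw [h3] at h
    simpa using h⟩, by
    refine Continuous.subtype_mk ?_ _
    have hc := uy_zero_hf_cont0 0
    exact Continuous.prodMk hc.fst hc.snd.fst⟩

/-- the inclusion of the three sphere -/
noncomputable def uy_zero_i : C(S3, ↥UY) :=
  ⟨fun y => ⟨⟨(y.1.1, y.1.2, 0), by
      have := y.2
      unfold nsq
      simpa using this⟩, by
      intro h
      have hy := y.2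
      have h1 : y.1.1 = 0 := congrArg Prod.fst h
      have h2 : y.1.2 = 0 := congrArg Prod.snd h
      rw [h1, h2] at hy
      norm_num at hy⟩, by
    refine Continuous.subtype_mk (Continuous.subtype_mk ?_ _) _
    fun_prop⟩

theorem uy_zero_htpy :
    (uy_zero_i.comp uy_zero_r).Homotopic (ContinuousMap.id ↥UY) := by
  refine ⟨⟨uy_zero_H, ?_, ?_⟩⟩
  · intro p
    apply Subtype.ext
    apply Subtype.ext
    change uy_zero_hf 0 p = ((uy_zero_hf 0 p).1, (uy_zero_hf 0 p).2.1, 0)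
    have h3 : (uy_zero_hf 0 p).2.2 = 0 := by
      simp [uy_zero_hf]
    rw [← h3]
  · intro p
    apply Subtype.ext
    apply Subtype.ext
    change uy_zero_hf 1 p = p.1.1
    have hN : uy_zero_N 1 p = 1 := by
      unfold uy_zero_N
      have h := p.1.2
      unfold nsq at h
      simp only [Complex.ofReal_one, one_mul]
      rw [h, Real.sqrt_one, inv_one]
    unfold uy_zero_hf
    rw [hN]
    simp

theorem uy_zero (n : ℕ) (x : HH UY (n + 4)) : x = 0 := by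
  have h1 := hmap_id (n + 4) x
  rw [← hmap_homotopic _ _ uy_zero_htpy, hmap_comp, s3_vanish n (hmap uy_zero_r (n + 4) x),
    map_zero] at h1
  exact h1.symm

end Pool.Agent.Helper534.LS
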