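import Pool.Agent.Helper534.L5.Defs5
import Pool.Agent.Helper534.LS.P_hmap_comp
import Pool.Agent.Helper534.LS.P_hmap_id
import Pool.Agent.Helper534.LS.P_hmap_homotopic
import Pool.Agent.Helper534.L5.P_circle_zero

open MeasureTheory

namespace Pool.Agent.Helper534.LS



noncomputable def vz_zero_D (s : ℝ) (p : VZ) : ℝ :=
  s ^ 2 * (‖p.1.1.1‖ ^ 2 + ‖p.1.1.2.1‖ ^ 2) + ‖p.1.1.2.2‖ ^ 2

theorem vz_zero_D_pos (s : ℝ) (p : VZ) : 0 < vz_zero_D s p := by
  have h1 : p.1.1.2.2 ≠ 0 := p.2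
  have h2 : 0 < ‖p.1.1.2.2‖ := norm_pos_iff.2 h1
  unfold vz_zero_D
  positivity

theorem vz_zero_sqrt_pos (s : ℝ) (p : VZ) : 0 < √(vz_zero_D s p) :=
  Real.sqrt_pos.2 (vz_zero_D_pos s p)

noncomputable def vz_zero_f (s : ℝ) (p : VZ) : C3 :=
  ((s / √(vz_zero_D s p)) • p.1.1.1, (s / √(vz_zero_D s p)) • p.1.1.2.1,
    (1 / √(vz_zero_D s p)) • p.1.1.2.2)

theorem vz_zero_f_nsq (s : ℝ) (p : VZ) : nsq (vz_zero_f s p) = 1 := by
  have h1 := vz_zero_D_pos s p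
  have h2 := vz_zero_sqrt_pos s p
  have h3 : √(vz_zero_D s p) ^ 2 = vz_zero_D s p := Real.sq_sqrt h1.le
  unfold nsq vz_zero_f
  simp only [norm_smul, mul_pow, Real.norm_eq_abs, sq_abs, div_pow, one_pow, h3]
  have h4 : s ^ 2 / vz_zero_D s p * ‖p.1.1.1‖ ^ 2 + s ^ 2 / vz_zero_D s p * ‖p.1.1.2.1‖ ^ 2 +
      1 / vz_zero_D s p * ‖p.1.1.2.2‖ ^ 2 = vz_zero_D s p / vz_zero_D s p := by
    conv_rhs => enter [1]; unfold vz_zero_D
    ring
  rw [h4, div_self h1.ne']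

noncomputable def vz_zero_H (s : ℝ) (p : VZ) : VZ :=
  ⟨⟨vz_zero_f s p, vz_zero_f_nsq s p⟩, by
    show (1 / √(vz_zero_D s p)) • p.1.1.2.2 ≠ 0
    have h1 : p.1.1.2.2 ≠ 0 := p.2
    exact smul_ne_zero (one_div_ne_zero (vz_zero_sqrt_pos s p).ne') h1⟩

theorem vz_zero_H_cont : Continuous (fun q : unitInterval × VZ => vz_zero_H q.1 q.2) := by
  have hD : Continuous (fun q : unitInterval × VZ => √(vz_zero_D q.1 q.2)) := by
    unfold vz_zero_D
    fun_prop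
  have hne : ∀ q : unitInterval × VZ, √(vz_zero_D q.1 q.2) ≠ 0 := fun q =>
    (vz_zero_sqrt_pos _ _).ne'
  refine Continuous.subtype_mk (Continuous.subtype_mk ?_ _) _
  have h1 : Continuous (fun q : unitInterval × VZ => ((q.1 : ℝ) / √(vz_zero_D q.1 q.2))) :=
    (by fun_prop : Continuous fun q : unitInterval × VZ => (q.1 : ℝ)).div hD hne
  have h2 : Continuous (fun q : unitInterval × VZ => (1 / √(vz_zero_D q.1 q.2))) :=
    continuous_const.div hD hne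
  exact (h1.smul (by fun_prop)).prodMk ((h1.smul (by fun_prop)).prodMk (h2.smul (by fun_prop)))

theorem vz_zero_r_norm (p : VZ) : ‖(1 / ‖p.1.1.2.2‖) • p.1.1.2.2‖ = 1 := by
  have h1 : p.1.1.2.2 ≠ 0 := p.2
  have h2 : 0 < ‖p.1.1.2.2‖ := norm_pos_iff.2 h1
  rw [norm_smul, Real.norm_eq_abs, abs_of_pos (by positivity)]
  field_simp

noncomputable def vz_zero_r : C(VZ, Circle) where
  toFun p := ⟨(1 / ‖p.1.1.2.2‖) • p.1.1.2.2, mem_sphere_zero_iff_norm.2 (vz_zero_r_norm p)⟩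
  continuous_toFun := by
    refine Continuous.subtype_mk ?_ _
    have h1 : Continuous (fun p : VZ => 1 / ‖p.1.1.2.2‖) :=
      continuous_const.div (by fun_prop) (fun p => (norm_pos_iff.2 p.2).ne')
    exact h1.smul (by fun_prop)

noncomputable def vz_zero_i : C(Circle, VZ) where
  toFun z := ⟨⟨(0, 0, (z : ℂ)), by
    show ‖(0 : ℂ)‖ ^ 2 + ‖(0 : ℂ)‖ ^ 2 + ‖(z : ℂ)‖ ^ 2 = 1
    have h1 : ‖(z : ℂ)‖ = 1 := Circle.norm_coe z
    rw [h1, norm_zero]
    norm_num⟩, by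
    show (z : ℂ) ≠ 0
    exact Circle.coe_ne_zero z⟩
  continuous_toFun := by
    refine Continuous.subtype_mk (Continuous.subtype_mk ?_ _) _
    fun_prop

theorem vz_zero_homotopic : (vz_zero_i.comp vz_zero_r).Homotopic (ContinuousMap.id VZ) := by
  refine ⟨⟨⟨fun q => vz_zero_H q.1 q.2, vz_zero_H_cont⟩, ?_, ?_⟩⟩
  · intro p
    refine Subtype.ext (Subtype.ext ?_)
    have h1 : vz_zero_D 0 p = ‖p.1.1.2.2‖ ^ 2 := by
      unfold vz_zero_D
      ring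
    show vz_zero_f ((0 : unitInterval) : ℝ) p = ((0 : ℂ), (0 : ℂ), (1 / ‖p.1.1.2.2‖) • p.1.1.2.2)
    unfold vz_zero_f
    rw [Set.Icc.coe_zero, h1, Real.sqrt_sq (norm_nonneg _), zero_div, zero_smul, zero_smul]
  · intro p
    refine Subtype.ext (Subtype.ext ?_)
    have h1 : vz_zero_D 1 p = 1 := by
      have h2 : nsq p.1.1 = 1 := p.1.2
      unfold nsq at h2
      unfold vz_zero_D
      linarith
    show vz_zero_f ((1 : unitInterval) : ℝ) p = p.1.1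
    unfold vz_zero_f
    rw [Set.Icc.coe_one, h1, Real.sqrt_one, div_one, one_smul, one_smul, one_smul]

theorem vz_zero (n : ℕ) (x : HH VZ (n + 2)) : x = 0 := by
  have h1 := hmap_homotopic _ _ vz_zero_homotopic (n + 2)
  have h2 : hmap (vz_zero_i.comp vz_zero_r) (n + 2) x = x := by
    rw [h1]
    exact hmap_id (n + 2) x
  rw [hmap_comp, circle_zero n (hmap vz_zero_r (n + 2) x), map_zero] at h2
  exact h2.symm

end Pool.Agent.Helper534.LS
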