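import Pool.Agent.Helper534.L5.Defs5
import Pool.Agent.Helper534.LS.P_mv_exact1
import Pool.Agent.Helper534.LS.P_mv_exact2
import Pool.Agent.Helper534.L5.P_s5_cov
import Pool.Agent.Helper534.L5.P_uy_zero
import Pool.Agent.Helper534.L5.P_vz_zero

open MeasureTheory

namespace Pool.Agent.Helper534.LS



theorem s5_div (x : HH S5 5) (w : HH ↥(UY ∩ VZ) 4) (h : delta UY VZ 4 x = (2 : ℤ) • w) :
    ∃ e : HH S5 5, x = (2 : ℤ) • e := by
  obtain ⟨⟨hU, hV, hUV⟩, _, _⟩ := s5_cov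
  obtain ⟨e, he⟩ := mv_exact2 UY VZ hU hV hUV 4 w (uy_zero 0 _) (vz_zero 2 _)
  refine ⟨e, ?_⟩
  have h1 : delta UY VZ 4 (x - (2 : ℤ) • e) = 0 := by
    rw [map_sub, map_zsmul, he, h, sub_self]
  obtain ⟨u, v, huv⟩ := mv_exact1 UY VZ hU hV hUV 4 _ h1
  have hu : u = 0 := uy_zero 1 u
  have hv : v = 0 := vz_zero 3 v
  rw [hu, hv, map_zero, map_zero, add_zero] at huv
  exact sub_eq_zero.1 huv

end Pool.Agent.Helper534.LS
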