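import Pool.Agent.Helper534.L5.Defs5
import Pool.Agent.Helper534.LS.P_hmap_comp
import Pool.Agent.Helper534.LS.P_hmap_id
import Pool.Agent.Helper534.LS.P_mv_nat
import Pool.Agent.Helper534.LS.P_sig_spec
import Pool.Agent.Helper534.LS.P_sig_nat
import Pool.Agent.Helper534.L5.P_s5_cov
import Pool.Agent.Helper534.L5.P_s5_div
import Pool.Agent.Helper534.L5.P_ci_facts
import Pool.Agent.Helper534.L5.P_at5_facts
import Pool.Agent.Helper534.L5.P_o_cov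
import Pool.Agent.Helper534.L5.P_e12_div

open MeasureTheory

namespace Pool.Agent.Helper534.LS



theorem low_div_uy (p : S5) (h : ‖p.1.2.2‖ < 1 / 2) : p ∈ UY := by
  intro h0
  have h1 : p.1.1 = 0 := congrArg Prod.fst h0
  have h2 : p.1.2.1 = 0 := congrArg Prod.snd h0
  have h3 : nsq p.1 = 1 := p.2
  unfold nsq at h3
  rw [h1, h2] at h3
  have h4 : ‖p.1.2.2‖ ^ 2 = 1 := by simpa using h3
  nlinarith [norm_nonneg p.1.2.2]

theorem low_div_vz (p : S5) (h : 1 / 4 < ‖p.1.2.2‖) : p ∈ VZ := by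
  intro h0
  rw [h0] at h
  norm_num at h

theorem low_div (e) (he : IsEv e) (a : ℝ) (ha : a < 4 * Real.pi + 1) (x : HH (sub5 a) 4) :
    ∃ c, EE e (hmap (sub (sub5 a)) 4 x) = (2 : ℤ) • c := by
  obtain ⟨⟨hUY, hVZ, hUV⟩, -, -⟩ := s5_cov
  obtain ⟨hO1, hO2, hO⟩ := o_cov a ha
  obtain ⟨-, -, -, -, hsurj, -, -, -⟩ := ci_facts
  set b : HH (Circle × ↥(sub5 a)) 5 := sig ↥(sub5 a) 4 x with hb
  have hE : EE e (hmap (sub (sub5 a)) 4 x) = hmap (e.comp (idx (sub (sub5 a)))) 5 b := by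
    unfold EE
    rw [← sig_nat, ← hmap_comp]
  set ev : C(Circle × ↥(sub5 a), S5) := e.comp (idx (sub (sub5 a))) with hev
  have hval : ∀ (t : unitInterval) (y : ↥(sub5 a)), (ev (ci t, y)).1 = at5 y.1 t := by
    intro t y
    exact he y.1 t
  let A1 : Set (Circle × ↥(sub5 a)) := {p | p.2 ∈ O1 a}
  let A2 : Set (Circle × ↥(sub5 a)) := {p | p.2 ∈ O2 a}
  have hA1 : IsOpen A1 := hO1.preimage continuous_snd
  have hA2 : IsOpen A2 := hO2.preimage continuous_snd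
  have hA : ∀ p, p ∈ A1 ∨ p ∈ A2 := fun p => hO p.2
  have hm1 : ∀ p ∈ A1, ev p ∈ UY := by
    rintro ⟨s, y⟩ hp
    obtain ⟨t, rfl⟩ := hsurj s
    apply low_div_uy
    rw [hval]
    exact hp t
  have hm2 : ∀ p ∈ A2, ev p ∈ VZ := by
    rintro ⟨s, y⟩ hp
    obtain ⟨t, rfl⟩ := hsurj s
    apply low_div_vz
    rw [hval]
    exact hp t
  let ev' : C(↥(A1 ∩ A2), ↥(UY ∩ VZ)) :=
    ⟨fun p => ⟨ev p.1, hm1 _ p.2.1, hm2 _ p.2.2⟩,
      (ev.continuous.comp continuous_subtype_val).subtype_mk _⟩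
  have h1 := mv_nat A1 A2 hA1 hA2 hA UY VZ hUY hVZ hUV ev hm1 hm2 ev' (fun _ => rfl) 4 b
  let pr' : C(↥(A1 ∩ A2), ↥(O1 a ∩ O2 a)) :=
    ⟨fun p => ⟨p.1.2, p.2.1, p.2.2⟩,
      (continuous_snd.comp continuous_subtype_val).subtype_mk _⟩
  have h2 := mv_nat A1 A2 hA1 hA2 hA (O1 a) (O2 a) hO1 hO2 hO (prQ ↥(sub5 a))
    (fun p hp => hp) (fun p hp => hp) pr' (fun _ => rfl) 4 b
  have h3 : hmap (prQ ↥(sub5 a)) 5 b = 0 := (sig_spec ↥(sub5 a) 4 x).1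
  rw [h3, map_zero] at h2
  let η : C(Circle × ↥(O1 a ∩ O2 a), ↥(A1 ∩ A2)) :=
    ⟨fun p => ⟨(p.1, p.2.1), p.2.2.1, p.2.2.2⟩,
      (continuous_fst.prodMk (continuous_subtype_val.comp continuous_snd)).subtype_mk _⟩
  let η' : C(↥(A1 ∩ A2), Circle × ↥(O1 a ∩ O2 a)) :=
    ⟨fun p => (p.1.1, ⟨p.1.2, p.2.1, p.2.2⟩),
      (continuous_fst.comp continuous_subtype_val).prodMk
        ((continuous_snd.comp continuous_subtype_val).subtype_mk _)⟩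
  have hηη' : η.comp η' = ContinuousMap.id _ := by
    ext p : 1
    rfl
  have hprη' : (prQ ↥(O1 a ∩ O2 a)).comp η' = pr' := by
    ext p : 1
    rfl
  have hf : IsE12 a (ev'.comp η) := by
    intro y t
    exact he y.1.1 t
  have hb' : hmap (prQ ↥(O1 a ∩ O2 a)) 4 (hmap η' 4 (delta A1 A2 4 b)) = 0 := by
    rw [← hmap_comp, hprη']
    exact h2.symm
  obtain ⟨w, hw⟩ := e12_div a ha (ev'.comp η) hf (hmap η' 4 (delta A1 A2 4 b)) hb'
  have h4 : hmap (ev'.comp η) 4 (hmap η' 4 (delta A1 A2 4 b)) = hmap ev' 4 (delta A1 A2 4 b) := by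
    rw [hmap_comp, ← hmap_comp η' η, hηη', hmap_id]
  rw [h4, ← h1] at hw
  rw [hE]
  exact s5_div _ w hw

end Pool.Agent.Helper534.LS
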