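import Pool.Agent.Helper534.L5.Defs5
import Pool.Agent.Helper534.L5.P_ci_facts
import Pool.Agent.Helper534.L5.P_mk_hl5

open MeasureTheory

namespace Pool.Agent.Helper534.LS



theorem Om_exists_bound {A : Type} [TopologicalSpace A] (V : A → ℝ → C3)
    (hV : Continuous fun q : A × ℝ => V q.1 q.2) (a : A) :
    ∃ C, ∃ U ∈ nhds a, ∀ b ∈ U, ∀ t ∈ Set.Icc (0 : ℝ) 1, ‖V b t‖ ≤ C := by
  have hc : Continuous (V a) := hV.comp (Continuous.prodMk_right a)
  obtain ⟨C, hC⟩ := (isCompact_Icc (a := (0 : ℝ)) (b := 1)).exists_bound_of_continuousOn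
    hc.continuousOn
  have ho : IsOpen {q : A × ℝ | ‖V q.1 q.2‖ < C + 1} := isOpen_lt hV.norm continuous_const
  obtain ⟨u, v, hu, hv, hau, hsv, huv⟩ := generalized_tube_lemma (isCompact_singleton (x := a))
    (isCompact_Icc (a := (0 : ℝ)) (b := 1)) ho (by
      rintro ⟨b, t⟩ ⟨hb, ht⟩
      simp only [Set.mem_singleton_iff] at hb
      subst hb
      have := hC t ht
      simp only [Set.mem_setOf_eq]
      linarith)
  exact ⟨C + 1, u, hu.mem_nhds (hau rfl), fun b hb t ht =>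
    (huv (Set.mk_mem_prod hb (hsv ht)) : ‖V b t‖ < C + 1).le⟩

/-- the velocity of `fOm` -/
noncomputable def Om_exists_V (s u : ℝ) (y : S3) (t : ℝ) : C3 :=
  mk3 (qm (Real.sin u * (s * (-(2 * Real.pi * Complex.I) * (ci (-t) : ℂ))))
    (Real.sin u * (2 * Real.sqrt (s * (1 - s)) * (Real.pi * Real.cos (Real.pi * t)))) y.1) 0

theorem Om_exists_ci (t : ℝ) : HasDerivAt (fun t : ℝ => ((ci (-t) : Circle) : ℂ))
    (-(2 * Real.pi * Complex.I) * (ci (-t) : ℂ)) t := by
  have h : ∀ t : ℝ, ((ci (-t) : Circle) : ℂ) = Complex.exp (-(2 * Real.pi * Complex.I) * t) := by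
    intro t
    unfold ci
    rw [Circle.coe_exp]
    congr 1
    push_cast
    ring
  have h2 : HasDerivAt (fun t : ℝ => Complex.exp (-(2 * Real.pi * Complex.I) * t))
      (Complex.exp (-(2 * Real.pi * Complex.I) * t) * (-(2 * Real.pi * Complex.I) * 1)) t := by
    apply HasDerivAt.cexp
    exact (Complex.ofRealCLM.hasDerivAt (x := t)).const_mul _ |>.congr_deriv (by simp)
  have h3 : (fun t : ℝ => ((ci (-t) : Circle) : ℂ)) =
      fun t : ℝ => Complex.exp (-(2 * Real.pi * Complex.I) * t) := funext h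
  rw [h3, h t]
  exact h2.congr_deriv (by ring)

theorem Om_exists_sin (t : ℝ) : HasDerivAt (fun t : ℝ => ((Real.sin (Real.pi * t) : ℝ) : ℂ))
    (Real.pi * Real.cos (Real.pi * t)) t := by
  have h1 : HasDerivAt (fun t : ℝ => Real.sin (Real.pi * t))
      (Real.cos (Real.pi * t) * (Real.pi * 1)) t :=
    ((hasDerivAt_id t).const_mul Real.pi).sin
  have h2 := h1.ofReal_comp
  refine h2.congr_deriv ?_
  push_cast
  ring

theorem Om_exists_deriv (s u : ℝ) (y : S3) (t : ℝ) :
    HasDerivAt (fOm s u y) (Om_exists_V s u y t) t := by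
  have ha : HasDerivAt (fun t : ℝ => (Real.sin u : ℂ) * (1 + s * ((ci (-t) : ℂ) - 1)))
      (Real.sin u * (s * (-(2 * Real.pi * Complex.I) * (ci (-t) : ℂ)))) t :=
    ((((Om_exists_ci t).sub_const 1).const_mul (s : ℂ)).const_add 1).const_mul _
  have hb : HasDerivAt (fun t : ℝ => (Real.sin u : ℂ) *
      (2 * Real.sqrt (s * (1 - s)) * Real.sin (Real.pi * t)))
      (Real.sin u * (2 * Real.sqrt (s * (1 - s)) * (Real.pi * Real.cos (Real.pi * t)))) t :=
    ((Om_exists_sin t).const_mul _).const_mul _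
  unfold fOm Om_exists_V mk3 qm
  exact HasDerivAt.prodMk ((ha.mul_const _).sub (hb.mul_const _))
    (HasDerivAt.prodMk ((ha.mul_const _).add (hb.mul_const _)) (hasDerivAt_const t _))

theorem Om_exists_nsq (s u : ℝ) (hs : 0 ≤ s * (1 - s)) (y : S3) (t : ℝ) :
    nsq (fOm s u y t) = 1 := by
  obtain ⟨⟨y1, y2⟩, hy⟩ := y
  simp only [nsq, fOm, mk3, qm]
  rw [ci_facts.2.2.2.2.2.2.1 (-t)]
  have hy' : y1.re * y1.re + y1.im * y1.im + (y2.re * y2.re + y2.im * y2.im) = 1 := by
    have := hy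
    simp only [Complex.sq_norm, Complex.normSq_apply] at this
    exact this
  have hc : Real.cos (2 * Real.pi * -t) = 1 - 2 * (Real.sin (Real.pi * t) * Real.sin (Real.pi * t)) := by
    rw [show 2 * Real.pi * -t = -(2 * (Real.pi * t)) by ring, Real.cos_neg, Real.cos_two_mul]
    have := Real.sin_sq_add_cos_sq (Real.pi * t)
    linear_combination 2 * this
  have hsn : Real.sin (2 * Real.pi * -t) = - (2 * Real.sin (Real.pi * t) * Real.cos (Real.pi * t)) := by
    rw [show 2 * Real.pi * -t = -(2 * (Real.pi * t)) by ring, Real.sin_neg, Real.sin_two_mul]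
  rw [hc, hsn]
  have hq := Real.sq_sqrt hs
  set q := Real.sqrt (s * (1 - s)) with hqd
  have hSC := Real.sin_sq_add_cos_sq (Real.pi * t)
  set S := Real.sin (Real.pi * t)
  set C := Real.cos (Real.pi * t)
  have hu := Real.sin_sq_add_cos_sq u
  set U := Real.sin u
  set W := Real.cos u
  clear_value q S C U W
  simp only [Complex.sq_norm, Complex.normSq_apply]
  simp
  have e1 : (1 - s * (2 * (S * S))) ^ 2 + (s * (2 * S * C)) ^ 2 + (2 * q * S) ^ 2 = 1 := by
    linear_combination 4 * s ^ 2 * S ^ 2 * hSC + 4 * S ^ 2 * hq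
  linear_combination U ^ 2 * ((1 - s * (2 * (S * S))) ^ 2 + (s * (2 * S * C)) ^ 2 +
    (2 * q * S) ^ 2) * hy' + U ^ 2 * e1 + hu

theorem Om_exists : ∃ F, IsOm F := by
  have key : ∃ f : C((unitInterval × ℝ) × S3, HL5), (∀ a (t : unitInterval),
      at5 (f a) t = fOm a.1.1 a.1.2 a.2 t) ∧ ∀ a, len5 (f a) = ∫ t in (0 : ℝ)..1,
        spd (fOm a.1.1 a.1.2 a.2 t) (Om_exists_V a.1.1 a.1.2 a.2 t) := by
    refine mk_hl5 (A := (unitInterval × ℝ) × S3) (fun p t => fOm p.1.1 p.1.2 p.2 t)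
      (fun p t => Om_exists_V p.1.1 p.1.2 p.2 t) ?_ ∅ ?_ ?_ ?_ ?_ ?_
    · have hci := ci_facts.1
      unfold fOm mk3 qm
      fun_prop
    · have hci := ci_facts.1
      apply Continuous.continuousOn
      unfold Om_exists_V mk3 qm
      fun_prop
    · apply Om_exists_bound
      have hci := ci_facts.1
      unfold Om_exists_V mk3 qm
      fun_prop
    · intro a t _ _
      exact Om_exists_deriv _ _ _ _
    · intro a t _
      exact Om_exists_nsq _ _ (mul_nonneg a.1.1.2.1 (by linarith [a.1.1.2.2])) _ _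
    · intro a
      have h1 : ci (-1) = 1 := by
        have h := ci_facts.2.2.2.2.2.2.2 (-1) 1
        rw [neg_add_cancel, ci_facts.2.1, ci_facts.2.2.1, mul_one] at h
        exact h.symm
      simp only [fOm, neg_zero, ci_facts.2.1, h1, mul_zero, mul_one, Real.sin_zero, Real.sin_pi]
  obtain ⟨f, hf, -⟩ := key
  exact ⟨f, hf⟩

end Pool.Agent.Helper534.LS
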