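import Pool.Agent.Helper534.L5.Defs5
import Pool.Agent.Helper534.L5.P_ci_facts
import Pool.Agent.Helper534.L5.P_at5_facts
import Pool.Agent.Helper534.L5.P_Psi_exists
import Pool.Agent.Helper534.L5.P_Om_exists

open MeasureTheory

namespace Pool.Agent.Helper534.LS



theorem low_exists_cl (t : ℝ) : ((cl t : unitInterval) : ℝ) = max 0 (min 1 t) :=
  Set.coe_projIcc 0 1 zero_le_one t

theorem low_exists_cc : Continuous cl := continuous_projIcc (h := zero_le_one)

theorem low_exists_cu : Continuous us := by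
  unfold us
  exact continuous_const.mul (continuous_subtype_val.comp (low_exists_cc.comp (by fun_prop)))

theorem low_exists_cp : Continuous ph := by
  unfold ph
  exact continuous_const.mul (continuous_subtype_val.comp (low_exists_cc.comp (by fun_prop)))

theorem low_exists_mid (y : S3) (t : ℝ) :
    fOm (cl (4 * (1 / 2) - 1)) (us (1 / 2)) y t = fPsi (us (1 / 2)) (ph (1 / 2)) y t := by
  have h1 : ((cl (4 * (1 / 2) - 1) : unitInterval) : ℝ) = 1 := by
    rw [low_exists_cl]; norm_num
  have h2 : us (1 / 2) = Real.pi / 2 := by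
    unfold us
    rw [low_exists_cl]; norm_num
  have h3 : ph (1 / 2) = 0 := by
    unfold ph
    rw [low_exists_cl]; norm_num
  have h4 := ci_facts.2.2.2.2.2.2.1 (-t)
  have e1 : 2 * Real.pi * -t = -(2 * Real.pi * t) := by ring
  rw [e1, Real.cos_neg, Real.sin_neg] at h4
  rw [h1, h2, h3]
  unfold fOm fPsi
  rw [h4]
  have e2 : ((Real.sin (Real.pi / 2) : ℝ) : ℂ) * (1 + ((1 : ℝ) : ℂ) *
      ((Real.cos (2 * Real.pi * t) : ℂ) + ((-Real.sin (2 * Real.pi * t) : ℝ) : ℂ) * Complex.I - 1)) =
      (Real.sin (Real.pi / 2) : ℂ) * (Real.cos (2 * Real.pi * t) -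
      Complex.I * Real.cos 0 * Real.sin (2 * Real.pi * t)) := by
    rw [Real.cos_zero]
    push_cast
    ring
  have e3 : ((Real.sin (Real.pi / 2) : ℝ) : ℂ) *
      (2 * ((Real.sqrt (1 * (1 - 1)) : ℝ) : ℂ) * ((Real.sin (Real.pi * t) : ℝ) : ℂ)) =
      (Real.sin (2 * Real.pi * t) : ℂ) * Real.sin 0 := by
    simp
  have e4 : ((Real.cos (Real.pi / 2) : ℝ) : ℂ) = (Real.cos (Real.pi / 2) : ℂ) *
      ((ci t : ℂ) * (Real.cos (2 * Real.pi * t) -
      Complex.I * Real.cos 0 * Real.sin (2 * Real.pi * t))) := by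
    simp
  rw [e2, e3, ← e4]

theorem low_exists_zero (s : ℝ) (y : S3) (t : ℝ) : fOm s (us 0) y t = fOm s (us 0) y0 t := by
  have h2 : us 0 = 0 := by
    unfold us
    rw [low_exists_cl]; norm_num
  rw [h2]
  unfold fOm
  simp [qm, mk3]

theorem low_exists_one (y : S3) (t : ℝ) : fPsi (us 1) (ph 1) y t = fPsi (us 1) (ph 1) y0 t := by
  have h2 : us 1 = 0 := by
    unfold us
    rw [low_exists_cl]; norm_num
  have h3 : ph 1 = Real.pi := by
    unfold ph
    rw [low_exists_cl]; norm_num
  rw [h2, h3]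
  unfold fPsi
  simp [qm, mk3]

theorem low_exists : ∃ L, IsLow L ∧ (∀ y, L (0, y) = L (0, y0)) ∧ (∀ y, L (1, y) = L (1, y0)) := by
  obtain ⟨Psi, hPsi⟩ := Psi_exists
  obtain ⟨Om, hOm⟩ := Om_exists
  have c1 : Continuous fun p : unitInterval × S3 =>
      Om ((cl (4 * (p.1 : ℝ) - 1), us (p.1 : ℝ)), p.2) := by
    have a1 : Continuous fun p : unitInterval × S3 => cl (4 * (p.1 : ℝ) - 1) :=
      low_exists_cc.comp (by fun_prop)
    have a2 : Continuous fun p : unitInterval × S3 => us (p.1 : ℝ) :=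
      low_exists_cu.comp (by fun_prop)
    exact Om.continuous.comp ((a1.prodMk a2).prodMk continuous_snd)
  have c2 : Continuous fun p : unitInterval × S3 =>
      Psi ((us (p.1 : ℝ), ph (p.1 : ℝ)), p.2) := by
    have a1 : Continuous fun p : unitInterval × S3 => ph (p.1 : ℝ) :=
      low_exists_cp.comp (by fun_prop)
    have a2 : Continuous fun p : unitInterval × S3 => us (p.1 : ℝ) :=
      low_exists_cu.comp (by fun_prop)
    exact Psi.continuous.comp ((a2.prodMk a1).prodMk continuous_snd)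
  have c3 : Continuous fun p : unitInterval × S3 => if (p.1 : ℝ) ≤ 1 / 2 then
      Om ((cl (4 * (p.1 : ℝ) - 1), us (p.1 : ℝ)), p.2) else
      Psi ((us (p.1 : ℝ), ph (p.1 : ℝ)), p.2) := by
    refine Continuous.if_le c1 c2 (by fun_prop) continuous_const ?_
    intro p hp
    apply (at5_facts _).2.2.2
    intro t
    rw [hOm, hPsi]
    simp only
    rw [hp]
    exact low_exists_mid p.2 t
  have hL : IsLow ⟨_, c3⟩ := by
    intro p t
    simp only [ContinuousMap.coe_mk]
    split_ifs with h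
    · rw [hOm]
    · rw [hPsi]
  refine ⟨⟨_, c3⟩, hL, ?_, ?_⟩
  · intro y
    apply (at5_facts _).2.2.2
    intro t
    rw [hL, hL]
    have h0 : (((0 : unitInterval)) : ℝ) = 0 := rfl
    simp only [h0]
    rw [if_pos (by norm_num), if_pos (by norm_num)]
    exact low_exists_zero _ y t
  · intro y
    apply (at5_facts _).2.2.2
    intro t
    rw [hL, hL]
    have h0 : (((1 : unitInterval)) : ℝ) = 1 := rfl
    simp only [h0]
    rw [if_neg (by norm_num), if_neg (by norm_num)]
    exact low_exists_one y t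

end Pool.Agent.Helper534.LS
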