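import Pool.Agent.Helper534.L5.Defs5
import Pool.Agent.Helper534.L5.P_ci_facts
import Pool.Agent.Helper534.L5.P_at5_facts
import Pool.Agent.Helper534.L5.P_hy_cont2
import Pool.Agent.Helper534.L5.P_Psi_exists
import Pool.Agent.Helper534.L5.P_Om_exists

open MeasureTheory

namespace Pool.Agent.Helper534.LS



theorem low_step_cl_cont : Continuous cl := continuous_projIcc (h := zero_le_one)

theorem low_step_cl_val (t : ℝ) : ((cl t : unitInterval) : ℝ) = max 0 (min 1 t) :=
  Set.coe_projIcc _ _ _ _

theorem low_step_us_cont : Continuous us := by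
  unfold us
  exact continuous_const.mul (continuous_subtype_val.comp (low_step_cl_cont.comp (by fun_prop)))

theorem low_step_ph_cont : Continuous ph := by
  unfold ph
  exact continuous_const.mul (continuous_subtype_val.comp (low_step_cl_cont.comp (by fun_prop)))

theorem low_step_ci_neg (t : ℝ) : ((ci (-t) : Circle) : ℂ) =
    Real.cos (2 * Real.pi * t) - Complex.I * Real.sin (2 * Real.pi * t) := by
  rw [ci_facts.2.2.2.2.2.2.1 (-t)]
  have : 2 * Real.pi * -t = -(2 * Real.pi * t) := by ring
  rw [this, Real.cos_neg, Real.sin_neg]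
  push_cast
  ring

theorem low_step_ci_mul (t : ℝ) : ((ci t : Circle) : ℂ) *
    (Real.cos (2 * Real.pi * t) - Complex.I * Real.sin (2 * Real.pi * t)) = 1 := by
  rw [← low_step_ci_neg, ← Circle.coe_mul, ← ci_facts.2.2.2.2.2.2.2, add_neg_cancel,
    ci_facts.2.1, Circle.coe_one]

theorem low_step_fOm (u : ℝ) (y : S3) (t : ℝ) : fOm 1 u y t = fPsi u 0 y t := by
  unfold fOm fPsi
  have h1 := low_step_ci_neg t
  have h2 := low_step_ci_mul t
  congr 1
  · congr 1
    · rw [h1, Real.cos_zero]
      push_cast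
      ring
    · simp
  · have h3 : ((ci t : Circle) : ℂ) * ((Real.cos (2 * Real.pi * t) : ℂ) -
        Complex.I * (Real.cos 0 : ℝ) * (Real.sin (2 * Real.pi * t) : ℂ)) = 1 := by
      rw [Real.cos_zero, Complex.ofReal_one, mul_one]
      exact h2
    rw [h3, mul_one]

theorem low_step_ph_zero (b : ℝ) (hb : b ≤ 1 / 2) : ph b = 0 := by
  unfold ph
  rw [low_step_cl_val]
  have : min (1 : ℝ) (4 * b - 2) ≤ 0 := (min_le_right _ _).trans (by linarith)
  rw [max_eq_left this, mul_zero]

theorem low_step_us_zero : us 0 = 0 := by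
  unfold us
  rw [low_step_cl_val]
  norm_num

theorem low_step_us_one : us 1 = 0 := by
  unfold us
  rw [low_step_cl_val]
  norm_num

theorem low_step_ph_one : ph 1 = Real.pi := by
  unfold ph
  rw [low_step_cl_val]
  norm_num

/-- the clamped parameter -/
noncomputable def low_step_b (r : ℝ) : ℝ := ((Set.projIcc 0 1 zero_le_one ((1 - r) / 2) :
  unitInterval) : ℝ)

theorem low_step_b_cont : Continuous low_step_b := by
  unfold low_step_b
  exact continuous_subtype_val.comp (continuous_projIcc.comp (by fun_prop))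

theorem low_step_b_val (r : ℝ) (h : |r| ≤ 1) : low_step_b r = (1 - r) / 2 := by
  unfold low_step_b
  obtain ⟨h1, h2⟩ := abs_le.1 h
  rw [Set.projIcc_of_mem _ (⟨by linarith, by linarith⟩ : (1 - r) / 2 ∈ Set.Icc (0 : ℝ) 1)]

/-- the first parameter -/
noncomputable def low_step_s (σ : unitInterval) (b : ℝ) : unitInterval :=
  cl ((1 - (σ : ℝ)) + σ * (cl (4 * b - 1) : ℝ))

theorem low_step_s_cont : Continuous fun q : unitInterval × ℝ => low_step_s q.1 q.2 := by
  unfold low_step_s
  refine low_step_cl_cont.comp ?_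
  have h1 : Continuous fun q : unitInterval × ℝ => ((cl (4 * q.2 - 1) : unitInterval) : ℝ) :=
    continuous_subtype_val.comp (low_step_cl_cont.comp (by fun_prop))
  have h2 : Continuous fun q : unitInterval × ℝ => (q.1 : ℝ) :=
    continuous_subtype_val.comp continuous_fst
  exact (continuous_const.sub h2).add (h2.mul h1)

theorem low_step_s_one (b : ℝ) : ((low_step_s 1 b : unitInterval) : ℝ) = (cl (4 * b - 1) : ℝ) := by
  unfold low_step_s
  have h : (1 - ((1 : unitInterval) : ℝ)) + ((1 : unitInterval) : ℝ) *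
      (cl (4 * b - 1) : ℝ) = (cl (4 * b - 1) : ℝ) := by
    simp
  rw [h]
  unfold cl
  rw [Set.projIcc_val]

theorem low_step_s_zero (b : ℝ) : ((low_step_s 0 b : unitInterval) : ℝ) = 1 := by
  unfold low_step_s
  rw [low_step_cl_val]
  simp

theorem low_step_s_half (σ : unitInterval) : ((low_step_s σ (1 / 2) : unitInterval) : ℝ) = 1 := by
  unfold low_step_s
  have h : ((cl (4 * (1 / 2) - 1) : unitInterval) : ℝ) = 1 := by
    rw [low_step_cl_val]; norm_num
  rw [h, low_step_cl_val]
  simp

theorem low_step_ext (x x' : HL5) (h : ∀ t, at5 x t = at5 x' t) : x = x' :=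
  (at5_facts x).2.2.2 x' h

theorem low_step (L) (hL : IsLow L) (G) (hG : IsHat L G) : ∃ K : C(Circle × S3, HL5),
    G.Homotopic K ∧ ∀ p (t : unitInterval), at5 (K p) t =
      fPsi (us ((1 - (p.1 : ℂ).re) / 2)) (ph ((1 - (p.1 : ℂ).re) / 2)) (hy p.1 p.2) t := by
  obtain ⟨Ψ, hΨ⟩ := Psi_exists
  obtain ⟨Ω, hΩ⟩ := Om_exists
  -- the family
  let Φ : unitInterval × (ℝ × S3) → HL5 := fun q =>
    if low_step_b q.2.1 ≤ 1 / 2 then
      Ω ((low_step_s q.1 (low_step_b q.2.1), us (low_step_b q.2.1)), q.2.2)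
    else Ψ ((us (low_step_b q.2.1), ph (low_step_b q.2.1)), q.2.2)
  have hb : Continuous fun q : unitInterval × (ℝ × S3) => low_step_b q.2.1 :=
    low_step_b_cont.comp (continuous_fst.comp continuous_snd)
  have hy' : Continuous fun q : unitInterval × (ℝ × S3) => q.2.2 :=
    continuous_snd.comp continuous_snd
  have hΦc : Continuous Φ := by
    refine Continuous.if_le ?_ ?_ hb continuous_const ?_
    · refine Ω.continuous.comp ?_
      refine Continuous.prodMk (Continuous.prodMk ?_ (low_step_us_cont.comp hb)) hy'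
      exact low_step_s_cont.comp (continuous_fst.prodMk hb)
    · refine Ψ.continuous.comp ?_
      exact Continuous.prodMk (Continuous.prodMk (low_step_us_cont.comp hb)
        (low_step_ph_cont.comp hb)) hy'
    · intro q hq
      apply low_step_ext
      intro t
      rw [hΩ, hΨ]
      simp only
      rw [hq, low_step_s_half, low_step_fOm, low_step_ph_zero _ le_rfl]
  have hΦ : ∀ σ r y (t : unitInterval), at5 (Φ (σ, (r, y))) t =
      if low_step_b r ≤ 1 / 2 then fOm (low_step_s σ (low_step_b r)) (us (low_step_b r)) y t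
      else fPsi (us (low_step_b r)) (ph (low_step_b r)) y t := by
    intro σ r y t
    show at5 (if low_step_b r ≤ 1 / 2 then
      Ω ((low_step_s σ (low_step_b r), us (low_step_b r)), y)
      else Ψ ((us (low_step_b r), ph (low_step_b r)), y)) t = _
    split_ifs
    · exact hΩ _ t
    · exact hΨ _ t
  have hH := hy_cont2 (⟨Φ, hΦc⟩ : C(unitInterval × (ℝ × S3), HL5)) (by
    intro σ y
    apply low_step_ext
    intro t
    show at5 (Φ (σ, (1, y))) t = at5 (Φ (σ, (1, y0))) t
    rw [hΦ, hΦ, low_step_b_val 1 (by norm_num)]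
    have : (1 - (1 : ℝ)) / 2 = 0 := by norm_num
    rw [this, if_pos (by norm_num), if_pos (by norm_num), low_step_us_zero]
    unfold fOm qm
    simp) (by
    intro σ y
    apply low_step_ext
    intro t
    show at5 (Φ (σ, (-1, y))) t = at5 (Φ (σ, (-1, y0))) t
    rw [hΦ, hΦ, low_step_b_val (-1) (by norm_num)]
    have : (1 - (-1 : ℝ)) / 2 = 1 := by norm_num
    rw [this, if_neg (by norm_num), if_neg (by norm_num), low_step_us_one, low_step_ph_one]
    unfold fPsi qm
    simp)
  let H : C(unitInterval × (Circle × S3), HL5) := ⟨_, hH⟩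
  let K : C(Circle × S3, HL5) := ⟨fun p => H (0, p), H.continuous.comp (by fun_prop)⟩
  have hre : ∀ θ : Circle, |(θ : ℂ).re| ≤ 1 := by
    intro θ
    have := Complex.abs_re_le_norm (θ : ℂ)
    rwa [Circle.norm_coe] at this
  refine ⟨K, ?_, ?_⟩
  · refine ContinuousMap.Homotopic.symm ⟨⟨H, fun p => rfl, ?_⟩⟩
    intro p
    apply low_step_ext
    intro t
    show at5 (Φ (1, ((p.1 : ℂ).re, hy p.1 p.2))) t = at5 (G p) t
    rw [hΦ, hG p, hL]
    simp only [low_step_s_one]
    rfl
  · intro p t
    show at5 (Φ (0, ((p.1 : ℂ).re, hy p.1 p.2))) t = _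
    rw [hΦ, low_step_b_val _ (hre p.1), low_step_s_zero]
    split_ifs with h
    · rw [low_step_fOm, low_step_ph_zero _ h]
    · rfl

end Pool.Agent.Helper534.LS
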