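import Pool.Agent.Helper534.L5.Defs5
import Pool.Agent.Helper534.L5.P_at5_facts
import Pool.Agent.Helper534.L5.P_hy_cont2
import Pool.Agent.Helper534.L5.P_Psi_exists
import Pool.Agent.Helper534.L5.P_low_step

open MeasureTheory

namespace Pool.Agent.Helper534.LS



theorem low_homotopic_ext (x x' : HL5) (h : ∀ t, at5 x t = at5 x' t) : x = x' := (at5_facts x).2.2.2 x' h

theorem low_homotopic_cl_le (t : ℝ) (h : t ≤ 0) : (cl t : ℝ) = 0 := by
  unfold cl
  rw [Set.projIcc_of_le_left _ h]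

theorem low_homotopic_cl_ge (t : ℝ) (h : 1 ≤ t) : (cl t : ℝ) = 1 := by
  unfold cl
  rw [Set.projIcc_of_right_le _ h]

theorem low_homotopic_us_cont : Continuous us := by
  unfold us cl
  have h : Continuous (fun b : ℝ => Set.projIcc (0 : ℝ) 1 zero_le_one (4 * min b (1 - b))) :=
    continuous_projIcc.comp (by fun_prop)
  exact continuous_const.mul (continuous_subtype_val.comp h)

theorem low_homotopic_ph_cont : Continuous ph := by
  unfold ph cl
  have h : Continuous (fun b : ℝ => Set.projIcc (0 : ℝ) 1 zero_le_one (4 * b - 2)) :=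
    continuous_projIcc.comp (by fun_prop)
  exact continuous_const.mul (continuous_subtype_val.comp h)

theorem low_homotopic_us0 : us 0 = 0 := by
  unfold us
  rw [low_homotopic_cl_le _ (by norm_num), mul_zero]

theorem low_homotopic_us1 : us 1 = 0 := by
  unfold us
  rw [low_homotopic_cl_le _ (by norm_num), mul_zero]

theorem low_homotopic_ph0 : ph 0 = 0 := by
  unfold ph
  rw [low_homotopic_cl_le _ (by norm_num), mul_zero]

theorem low_homotopic_ph1 : ph 1 = Real.pi := by
  unfold ph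
  rw [low_homotopic_cl_ge _ (by norm_num), mul_one]

theorem low_homotopic_fPsi (u φ : ℝ) (hu : Real.sin u = 0) (hφ : Real.sin φ = 0) (y y' : S3) (t : ℝ) :
    fPsi u φ y t = fPsi u φ y' t := by
  unfold fPsi
  simp only [hu, hφ, Complex.ofReal_zero, zero_mul, mul_zero]
  simp [qm]

theorem low_homotopic (L) (hL : IsLow L) (G) (hG : IsHat L G) (D1) (hD1 : IsD1 D1) :
    G.Homotopic D1 := by
  obtain ⟨K, hGK, hK⟩ := low_step L hL G hG
  refine hGK.trans ?_
  obtain ⟨Ps, hPs⟩ := Psi_exists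
  have hus := low_homotopic_us_cont
  have hph := low_homotopic_ph_cont
  have hac := Real.continuous_arccos
  obtain ⟨F, hF⟩ : ∃ F : C(unitInterval × (ℝ × S3), HL5), ∀ r x y, F (r, (x, y)) =
      Ps (((1 - (r : ℝ)) * us ((1 - x) / 2), (1 - (r : ℝ)) * ph ((1 - x) / 2) + (r : ℝ) * Real.arccos x), y) := by
    refine ⟨⟨fun q => Ps (((1 - (q.1 : ℝ)) * us ((1 - q.2.1) / 2), (1 - (q.1 : ℝ)) * ph ((1 - q.2.1) / 2) + (q.1 : ℝ) * Real.arccos q.2.1), q.2.2), ?_⟩, fun r x y => rfl⟩
    apply Ps.continuous.comp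
    fun_prop
  have hc := hy_cont2 F (by
    intro r y
    rw [hF, hF]
    apply low_homotopic_ext
    intro t
    rw [hPs, hPs]
    apply low_homotopic_fPsi
    · simp [low_homotopic_us0]
    · simp [low_homotopic_ph0]) (by
    intro r y
    rw [hF, hF]
    apply low_homotopic_ext
    intro t
    rw [hPs, hPs]
    have e : ((1 : ℝ) - -1) / 2 = 1 := by norm_num
    apply low_homotopic_fPsi
    · simp only [e, low_homotopic_us1, mul_zero, Real.sin_zero]
    · have e2 : (1 - (r : ℝ)) * ph ((1 - -1) / 2) + (r : ℝ) * Real.arccos (-1) = Real.pi := by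
        rw [e, low_homotopic_ph1, Real.arccos_neg_one]
        ring
      show Real.sin ((1 - (r : ℝ)) * ph ((1 - -1) / 2) + (r : ℝ) * Real.arccos (-1)) = 0
      rw [e2, Real.sin_pi])
  refine ⟨⟨⟨fun q => F (q.1, ((q.2.1 : ℂ).re, hy q.2.1 q.2.2)), hc⟩, ?_, ?_⟩⟩
  · intro p
    show F (0, ((p.1 : ℂ).re, hy p.1 p.2)) = K p
    rw [hF]
    apply low_homotopic_ext
    intro t
    rw [hPs, hK]
    simp
  · intro p
    show F (1, ((p.1 : ℂ).re, hy p.1 p.2)) = D1 p
    rw [hF]
    apply low_homotopic_ext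
    intro t
    rw [hPs, hD1]
    simp

end Pool.Agent.Helper534.LS
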