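import Pool.Agent.Helper534.L5.Defs5
import Pool.Agent.Helper534.L5.P_ci_facts
import Pool.Agent.Helper534.L5.P_at5_facts
import Pool.Agent.Helper534.L5.P_spd_facts
import Pool.Agent.Helper534.L5.P_mk_hl5

open MeasureTheory

namespace Pool.Agent.Helper534.LS



theorem low_len_aux (x : HL5) (F V : ℝ → C3) (hV : Continuous V)
    (hd : ∀ t, HasDerivAt F (V t) t) (hat : ∀ t : unitInterval, at5 x t = F t)
    (hs : ∀ t, spd (F t) (V t) ≤ 4 * Real.pi) : len5 x ≤ 4 * Real.pi := by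
  have hF : Continuous F := continuous_iff_continuousAt.2 fun t => (hd t).continuousAt
  obtain ⟨C, hC⟩ := isCompact_Icc.exists_bound_of_continuousOn
    (hV.continuousOn (s := Set.Icc (0:ℝ) 1))
  have h1 : ∀ t ∈ Set.Icc (0 : ℝ) 1, nsq (F t) = 1 := by
    intro t ht
    rw [← hat ⟨t, ht⟩]
    exact (at5_facts x).1 _
  have h2 : F 0 = F 1 := by
    have h3 : at5 x 0 = F 0 := hat 0
    have h4 : at5 x 1 = F 1 := hat 1
    rw [← h3, ← h4]
    exact (at5_facts x).2.1
  obtain ⟨f, hf1, hf2⟩ := mk_hl5 (A := Unit) (fun _ => F) (fun _ => V) (hF.comp continuous_snd) ∅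
    ((hV.comp continuous_snd).continuousOn)
    (fun a => ⟨C, Set.univ, Filter.univ_mem, fun b _ t ht => hC t ht⟩)
    (fun a t _ _ => hd t) (fun a t ht => h1 t ht) (fun _ => h2)
  have hx : x = f () := (at5_facts x).2.2.2 (f ()) (fun t => by rw [hat, hf1])
  rw [hx, hf2]
  have h5 := intervalIntegral.norm_integral_le_of_norm_le_const (a := (0:ℝ)) (b := 1)
    (C := 4 * Real.pi) (f := fun t => spd (F t) (V t))
    (fun t _ => by
      have hnn : 0 ≤ spd (F t) (V t) := Real.sqrt_nonneg _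
      rw [Real.norm_eq_abs, abs_of_nonneg hnn]
      exact hs t)
  rw [Real.norm_eq_abs] at h5
  refine (le_abs_self _).trans (h5.trans ?_)
  norm_num

theorem low_len_nsq (α β γ : ℂ) (y : S3) :
    nsq (mk3 (qm α β y.1) γ) = ‖α‖ ^ 2 + ‖β‖ ^ 2 + ‖γ‖ ^ 2 := by
  have hy := y.2
  have key : ‖α * y.1.1 - β * star y.1.2‖ ^ 2 + ‖α * y.1.2 + β * star y.1.1‖ ^ 2 =
      (‖α‖ ^ 2 + ‖β‖ ^ 2) * (‖y.1.1‖ ^ 2 + ‖y.1.2‖ ^ 2) := by
    simp only [Complex.sq_norm, Complex.normSq_apply, Complex.add_re, Complex.add_im,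
      Complex.sub_re, Complex.sub_im, Complex.mul_re, Complex.mul_im, Complex.star_def,
      Complex.conj_re, Complex.conj_im]
    ring
  unfold nsq mk3 qm
  show ‖α * y.1.1 - β * star y.1.2‖ ^ 2 + ‖α * y.1.2 + β * star y.1.1‖ ^ 2 + ‖γ‖ ^ 2 = _
  rw [key, hy, mul_one]

theorem low_len_deriv (α β γ : ℝ → ℂ) (α' β' γ' : ℂ) (y : S3) (t : ℝ) (hα : HasDerivAt α α' t)
    (hβ : HasDerivAt β β' t) (hγ : HasDerivAt γ γ' t) :
    HasDerivAt (fun t => mk3 (qm (α t) (β t) y.1) (γ t)) (mk3 (qm α' β' y.1) γ') t := by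
  unfold mk3 qm
  exact ((hα.mul_const _).sub (hβ.mul_const _)).prodMk
    (((hα.mul_const _).add (hβ.mul_const _)).prodMk hγ)

theorem low_len_cont (α β γ : ℝ → ℂ) (y : S3) (hα : Continuous α) (hβ : Continuous β)
    (hγ : Continuous γ) : Continuous (fun t => mk3 (qm (α t) (β t) y.1) (γ t)) := by
  unfold mk3 qm
  exact ((hα.mul continuous_const).sub (hβ.mul continuous_const)).prodMk
    (((hα.mul continuous_const).add (hβ.mul continuous_const)).prodMk hγ)

theorem low_len_spd (p v : C3) (h0 : d0 p v = 0) (h1 : d1 p v = 0) (h2 : d2 p v = 0)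
    (h3 : d3 p v = 0) (C : ℝ) (hC : 0 ≤ C) (h : nsq v ≤ C ^ 2) : spd p v ≤ C := by
  have hg := (spd_facts p v).1
  unfold spd
  rw [hg, h0, h1, h2, h3]
  rw [Real.sqrt_le_iff]
  refine ⟨hC, ?_⟩
  have e : nsq v + 1000000 * ((0:ℝ) ^ 2 + ‖(0:ℂ)‖ ^ 2 + ‖(0:ℂ)‖ ^ 2 + ‖(0:ℂ)‖ ^ 2) = nsq v := by
    rw [norm_zero]
    ring
  rw [e]
  exact h

theorem low_len_spd0 (p v : C3) (hp : p.2.2 = 0) (hv : v.2.2 = 0) (C : ℝ) (hC : 0 ≤ C)
    (h : nsq v ≤ C ^ 2) : spd p v ≤ C := by
  refine low_len_spd p v ?_ ?_ ?_ ?_ C hC h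
  · unfold d0; rw [hp]; simp
  · unfold d1; rw [hp, hv]; simp
  · unfold d2; rw [hp, hv]; simp
  · unfold d3; rw [hp, hv]; simp

theorem low_len_cos (c t : ℝ) :
    HasDerivAt (fun t : ℝ => ((Real.cos (c * t) : ℝ) : ℂ)) (((-Real.sin (c * t) * c : ℝ)) : ℂ) t := by
  have h1 : HasDerivAt (fun t : ℝ => c * t) c t := by
    simpa using (hasDerivAt_id t).const_mul c
  exact (h1.cos).ofReal_comp

theorem low_len_sin (c t : ℝ) :
    HasDerivAt (fun t : ℝ => ((Real.sin (c * t) : ℝ) : ℂ)) (((Real.cos (c * t) * c : ℝ)) : ℂ) t := by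
  have h1 : HasDerivAt (fun t : ℝ => c * t) c t := by
    simpa using (hasDerivAt_id t).const_mul c
  exact (h1.sin).ofReal_comp

theorem low_len_zero (x : HL5) (c : C3) (hat : ∀ t : unitInterval, at5 x t = c) :
    len5 x ≤ 4 * Real.pi := by
  refine low_len_aux x (fun _ => c) (fun _ => 0) continuous_const (fun t => hasDerivAt_const t c)
    hat (fun t => ?_)
  have h : spd c 0 = 0 := by
    unfold spd gM d0 d1 d2 d3
    simp
  show spd c 0 ≤ 4 * Real.pi
  rw [h]
  positivity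

theorem low_len_cI (a b a' b' : ℝ → ℝ) (t : ℝ) (ha : HasDerivAt a (a' t) t)
    (hb : HasDerivAt b (b' t) t) :
    HasDerivAt (fun t => (a t : ℂ) + (b t : ℂ) * Complex.I)
      ((a' t : ℂ) + (b' t : ℂ) * Complex.I) t :=
  (ha.ofReal_comp).add ((hb.ofReal_comp).mul_const Complex.I)

theorem low_len_flat (x : HL5) (y : S3) (a b c a' b' c' : ℝ → ℝ)
    (ha : ∀ t, HasDerivAt a (a' t) t) (hb : ∀ t, HasDerivAt b (b' t) t)
    (hc : ∀ t, HasDerivAt c (c' t) t) (ca : Continuous a') (cb : Continuous b')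
    (cc : Continuous c')
    (hat : ∀ t : unitInterval, at5 x t =
      mk3 (qm ((a t : ℂ) + (b t : ℂ) * Complex.I) (c t : ℂ) y.1) 0)
    (hs : ∀ t, a' t ^ 2 + b' t ^ 2 + c' t ^ 2 ≤ (2 * Real.pi) ^ 2) : len5 x ≤ 4 * Real.pi := by
  have hpi := Real.pi_pos
  refine low_len_aux x (fun t => mk3 (qm ((a t : ℂ) + (b t : ℂ) * Complex.I) (c t : ℂ) y.1) 0)
    (fun t => mk3 (qm ((a' t : ℂ) + (b' t : ℂ) * Complex.I) (c' t : ℂ) y.1) 0)
    ?_ (fun t => ?_) hat (fun t => ?_)
  · refine low_len_cont _ _ _ y ?_ ?_ continuous_const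
    · exact (Complex.continuous_ofReal.comp ca).add
        ((Complex.continuous_ofReal.comp cb).mul continuous_const)
    · exact Complex.continuous_ofReal.comp cc
  · exact low_len_deriv (fun t => (a t : ℂ) + (b t : ℂ) * Complex.I) (fun t => (c t : ℂ))
      (fun _ => 0) _ _ _ y t (low_len_cI a b a' b' t (ha t) (hb t)) ((hc t).ofReal_comp)
      (hasDerivAt_const t 0)
  · refine (low_len_spd0 _ _ rfl rfl (2 * Real.pi) (by positivity) ?_).trans (by linarith)
    rw [low_len_nsq, Complex.sq_norm, Complex.sq_norm, Complex.normSq_add_mul_I,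
      Complex.normSq_ofReal, norm_zero]
    have := hs t
    nlinarith [this]

theorem low_len_rc (c t : ℝ) :
    HasDerivAt (fun t : ℝ => Real.cos (c * t)) (-Real.sin (c * t) * c) t := by
  have h1 : HasDerivAt (fun t : ℝ => c * t) c t := by
    simpa using (hasDerivAt_id t).const_mul c
  exact h1.cos

theorem low_len_rs (c t : ℝ) :
    HasDerivAt (fun t : ℝ => Real.sin (c * t)) (Real.cos (c * t) * c) t := by
  have h1 : HasDerivAt (fun t : ℝ => c * t) c t := by
    simpa using (hasDerivAt_id t).const_mul c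
  exact h1.sin

theorem low_len_om (x : HL5) (y : S3) (s : ℝ) (hs0 : 0 ≤ s) (hs1 : s ≤ 1)
    (hat : ∀ t : unitInterval, at5 x t = fOm s (Real.pi / 2) y t) : len5 x ≤ 4 * Real.pi := by
  have hpi := Real.pi_pos
  obtain ⟨q, hq⟩ : ∃ q : ℝ, q = Real.sqrt (s * (1 - s)) := ⟨_, rfl⟩
  have hq2 : q ^ 2 = s * (1 - s) := by
    rw [hq]
    exact Real.sq_sqrt (mul_nonneg hs0 (by linarith))
  refine low_len_flat x y (fun t => 1 + s * (Real.cos (-(2 * Real.pi) * t) - 1))
    (fun t => s * Real.sin (-(2 * Real.pi) * t)) (fun t => 2 * q * Real.sin (Real.pi * t))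
    (fun t => s * (-Real.sin (-(2 * Real.pi) * t) * (-(2 * Real.pi))))
    (fun t => s * (Real.cos (-(2 * Real.pi) * t) * (-(2 * Real.pi))))
    (fun t => 2 * q * (Real.cos (Real.pi * t) * Real.pi))
    (fun t => (((low_len_rc _ t).sub_const 1).const_mul s).const_add 1)
    (fun t => (low_len_rs _ t).const_mul s) (fun t => (low_len_rs _ t).const_mul (2 * q))
    (by fun_prop) (by fun_prop) (by fun_prop) ?_ ?_
  · intro t
    rw [hat t]
    unfold fOm
    rw [Real.sin_pi_div_two, Real.cos_pi_div_two, ci_facts.2.2.2.2.2.2.1,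
      show 2 * Real.pi * -(t:ℝ) = -(2 * Real.pi) * t by ring, ← hq]
    congr 2
    · push_cast
      ring
    · push_cast
      ring
  · intro t
    show (s * (-Real.sin (-(2 * Real.pi) * t) * (-(2 * Real.pi)))) ^ 2 +
      (s * (Real.cos (-(2 * Real.pi) * t) * (-(2 * Real.pi)))) ^ 2 +
      (2 * q * (Real.cos (Real.pi * t) * Real.pi)) ^ 2 ≤ (2 * Real.pi) ^ 2
    have e1 : (s * (-Real.sin (-(2 * Real.pi) * t) * (-(2 * Real.pi)))) ^ 2 +
        (s * (Real.cos (-(2 * Real.pi) * t) * (-(2 * Real.pi)))) ^ 2 =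
        s ^ 2 * (2 * Real.pi) ^ 2 := by
      have h := Real.sin_sq_add_cos_sq (-(2 * Real.pi) * t)
      have h2 : (s * (-Real.sin (-(2 * Real.pi) * t) * (-(2 * Real.pi)))) ^ 2 +
        (s * (Real.cos (-(2 * Real.pi) * t) * (-(2 * Real.pi)))) ^ 2 =
        s ^ 2 * (2 * Real.pi) ^ 2 *
          (Real.sin (-(2 * Real.pi) * t) ^ 2 + Real.cos (-(2 * Real.pi) * t) ^ 2) := by ring
      rw [h2, h, mul_one]
    rw [e1]
    have e2 : (2 * q * (Real.cos (Real.pi * t) * Real.pi)) ^ 2 =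
        (s * (1 - s)) * (2 * Real.pi) ^ 2 * Real.cos (Real.pi * t) ^ 2 := by
      rw [← hq2]
      ring
    rw [e2]
    have h3 : Real.cos (Real.pi * t) ^ 2 ≤ 1 := Real.cos_sq_le_one _
    have h4 : 0 ≤ (s * (1 - s)) * (2 * Real.pi) ^ 2 :=
      mul_nonneg (mul_nonneg hs0 (by linarith)) (sq_nonneg _)
    have h5 := mul_le_mul_of_nonneg_left h3 h4
    have h6 : 0 ≤ (1 - s) * (2 * Real.pi) ^ 2 := mul_nonneg (by linarith) (sq_nonneg _)
    nlinarith [h5, h6]

theorem low_len_psi (x : HL5) (y : S3) (φ : ℝ)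
    (hat : ∀ t : unitInterval, at5 x t = fPsi (Real.pi / 2) φ y t) : len5 x ≤ 4 * Real.pi := by
  refine low_len_flat x y (fun t => Real.cos (2 * Real.pi * t))
    (fun t => (-Real.cos φ) * Real.sin (2 * Real.pi * t))
    (fun t => Real.sin φ * Real.sin (2 * Real.pi * t))
    (fun t => -Real.sin (2 * Real.pi * t) * (2 * Real.pi))
    (fun t => (-Real.cos φ) * (Real.cos (2 * Real.pi * t) * (2 * Real.pi)))
    (fun t => Real.sin φ * (Real.cos (2 * Real.pi * t) * (2 * Real.pi)))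
    (fun t => low_len_rc _ t) (fun t => (low_len_rs _ t).const_mul _)
    (fun t => (low_len_rs _ t).const_mul _) (by fun_prop) (by fun_prop) (by fun_prop) ?_ ?_
  · intro t
    rw [hat t]
    unfold fPsi
    rw [Real.sin_pi_div_two, Real.cos_pi_div_two]
    congr 1
    · congr 1
      · push_cast
        ring
      · push_cast
        ring
    · push_cast
      ring
  · intro t
    have h := Real.sin_sq_add_cos_sq (2 * Real.pi * t)
    have h2 := Real.sin_sq_add_cos_sq φ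
    have e : (-Real.sin (2 * Real.pi * t) * (2 * Real.pi)) ^ 2 +
      ((-Real.cos φ) * (Real.cos (2 * Real.pi * t) * (2 * Real.pi))) ^ 2 +
      (Real.sin φ * (Real.cos (2 * Real.pi * t) * (2 * Real.pi))) ^ 2 =
      (2 * Real.pi) ^ 2 * (Real.sin (2 * Real.pi * t) ^ 2 +
        Real.cos (2 * Real.pi * t) ^ 2 * (Real.sin φ ^ 2 + Real.cos φ ^ 2)) := by ring
    show (-Real.sin (2 * Real.pi * t) * (2 * Real.pi)) ^ 2 +
      ((-Real.cos φ) * (Real.cos (2 * Real.pi * t) * (2 * Real.pi))) ^ 2 +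
      (Real.sin φ * (Real.cos (2 * Real.pi * t) * (2 * Real.pi))) ^ 2 ≤ _
    rw [e, h2, mul_one, h, mul_one]

theorem low_len_ds (p : C3) (c : ℝ) :
    d0 p (c * Complex.I * p.1, c * Complex.I * p.2.1, 2 * (c * Complex.I * p.2.2)) = 0 ∧
    d1 p (c * Complex.I * p.1, c * Complex.I * p.2.1, 2 * (c * Complex.I * p.2.2)) = 0 ∧
    d2 p (c * Complex.I * p.1, c * Complex.I * p.2.1, 2 * (c * Complex.I * p.2.2)) = 0 ∧
    d3 p (c * Complex.I * p.1, c * Complex.I * p.2.1, 2 * (c * Complex.I * p.2.2)) = 0 := by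
  have hs : star (2 * ((c:ℂ) * Complex.I * p.2.2)) = -(2 * ((c:ℂ) * Complex.I * star p.2.2)) := by
    simp only [Complex.star_def, map_mul, Complex.conj_ofReal, Complex.conj_I, map_ofNat]
    ring
  refine ⟨?_, ?_, ?_, ?_⟩
  · unfold d0
    show 2 * (p.2.2 * star (2 * ((c:ℂ) * Complex.I * p.2.2))).re = 0
    rw [hs]
    simp only [Complex.star_def, Complex.mul_re, Complex.mul_im, Complex.neg_re, Complex.neg_im,
      Complex.ofReal_re, Complex.ofReal_im, Complex.I_re, Complex.I_im, Complex.conj_re,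
      Complex.conj_im, Complex.re_ofNat, Complex.im_ofNat]
    ring
  · unfold d1
    show 2 * p.1 * (c * Complex.I * p.1) * star p.2.2 +
      p.1 ^ 2 * star (2 * ((c:ℂ) * Complex.I * p.2.2)) = 0
    rw [hs]
    ring
  · unfold d2
    show (c * Complex.I * p.1 * p.2.1 + p.1 * (c * Complex.I * p.2.1)) * star p.2.2 +
      p.1 * p.2.1 * star (2 * ((c:ℂ) * Complex.I * p.2.2)) = 0
    rw [hs]
    ring
  · unfold d3
    show 2 * p.2.1 * (c * Complex.I * p.2.1) * star p.2.2 +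
      p.2.1 ^ 2 * star (2 * ((c:ℂ) * Complex.I * p.2.2)) = 0
    rw [hs]
    ring

theorem low_len_orb (x : HL5) (y : S3) (u : ℝ)
    (hat : ∀ t : unitInterval, at5 x t = fPsi u Real.pi y t) : len5 x ≤ 4 * Real.pi := by
  have hpi := Real.pi_pos
  obtain ⟨E, hE⟩ : ∃ E : ℝ → ℂ, E = fun t => ((Real.cos (2 * Real.pi * t) : ℝ) : ℂ) +
    ((Real.sin (2 * Real.pi * t) : ℝ) : ℂ) * Complex.I := ⟨_, rfl⟩
  obtain ⟨c, hc⟩ : ∃ c : ℝ, c = 2 * Real.pi := ⟨_, rfl⟩
  have hEd : ∀ t, HasDerivAt E (c * Complex.I * E t) t := by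
    intro t
    have h1 := low_len_cI (fun t => Real.cos (2 * Real.pi * t)) (fun t => Real.sin (2 * Real.pi * t))
      (fun t => -Real.sin (2 * Real.pi * t) * (2 * Real.pi))
      (fun t => Real.cos (2 * Real.pi * t) * (2 * Real.pi)) t (low_len_rc _ t) (low_len_rs _ t)
    rw [← hE] at h1
    convert h1 using 1
    rw [hE, hc]
    push_cast
    linear_combination (2 * (Real.pi:ℂ) * (Complex.sin (2 * Real.pi * t))) * Complex.I_sq
  have hEc : Continuous E := continuous_iff_continuousAt.2 fun t => (hEd t).continuousAt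
  obtain ⟨F, hF⟩ : ∃ F : ℝ → C3, F = fun t => mk3 (qm (Real.sin u * E t) 0 y.1)
    (Real.cos u * E t ^ 2) := ⟨_, rfl⟩
  have hFc : Continuous F := by
    rw [hF]
    exact low_len_cont _ _ _ y (by fun_prop) continuous_const (by fun_prop)
  have hat' : ∀ t : unitInterval, at5 x t = F t := by
    intro t
    rw [hat t, hF, hE]
    unfold fPsi
    rw [Real.cos_pi, Real.sin_pi, ci_facts.2.2.2.2.2.2.1]
    show mk3 _ _ = mk3 _ _
    congr 1
    · congr 1
      · push_cast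
        ring
      · push_cast
        ring
    · push_cast
      ring
  have hn : ∀ t, nsq (F t) = 1 := by
    intro t
    have hEn : ‖E t‖ ^ 2 = 1 := by
      rw [hE, Complex.sq_norm, Complex.normSq_add_mul_I]
      linarith [Real.sin_sq_add_cos_sq (2 * Real.pi * t)]
    rw [hF]
    show nsq (mk3 (qm (Real.sin u * E t) 0 y.1) (Real.cos u * E t ^ 2)) = 1
    rw [low_len_nsq, norm_mul, norm_mul, norm_pow, mul_pow, mul_pow, ← pow_mul,
      show ‖E t‖ ^ (2 * 2) = (‖E t‖ ^ 2) ^ 2 by ring, hEn, norm_zero, Complex.norm_real,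
      Complex.norm_real, Real.norm_eq_abs, Real.norm_eq_abs, sq_abs, sq_abs]
    linarith [Real.sin_sq_add_cos_sq u]
  refine low_len_aux x F (fun t => (c * Complex.I * (F t).1, c * Complex.I * (F t).2.1,
    2 * (c * Complex.I * (F t).2.2))) (by fun_prop) (fun t => ?_) hat' (fun t => ?_)
  · have h1 := low_len_deriv (fun t => Real.sin u * E t) (fun _ => 0)
      (fun t => Real.cos u * E t ^ 2) _ _ _ y t ((hEd t).const_mul _) (hasDerivAt_const t 0)
      (((hEd t).pow 2).const_mul _)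
    rw [hF]
    convert h1 using 1
    unfold mk3 qm
    refine Prod.ext ?_ (Prod.ext ?_ ?_)
    · show (c:ℂ) * Complex.I * (Real.sin u * E t * y.1.1 - 0 * star y.1.2) = _
      ring
    · show (c:ℂ) * Complex.I * (Real.sin u * E t * y.1.2 + 0 * star y.1.1) = _
      ring
    · show 2 * ((c:ℂ) * Complex.I * (Real.cos u * E t ^ 2)) = _
      push_cast
      ring
  · obtain ⟨h0, h1, h2, h3⟩ := low_len_ds (F t) c
    refine low_len_spd _ _ h0 h1 h2 h3 (4 * Real.pi) (by positivity) ?_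
    have h4 := hn t
    unfold nsq at h4 ⊢
    show ‖(c:ℂ) * Complex.I * (F t).1‖ ^ 2 + ‖(c:ℂ) * Complex.I * (F t).2.1‖ ^ 2 +
      ‖2 * ((c:ℂ) * Complex.I * (F t).2.2)‖ ^ 2 ≤ (4 * Real.pi) ^ 2
    have hcn : ‖(c:ℂ)‖ ^ 2 = c ^ 2 := by
      rw [Complex.norm_real, Real.norm_eq_abs, sq_abs]
    simp only [norm_mul, mul_pow, Complex.norm_I, one_pow, mul_one, hcn, Complex.norm_ofNat]
    rw [hc]
    have h5 : 0 ≤ ‖(F t).1‖ ^ 2 := sq_nonneg _
    have h6 : 0 ≤ ‖(F t).2.1‖ ^ 2 := sq_nonneg _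
    have h7 : (0:ℝ) ≤ Real.pi ^ 2 := sq_nonneg _
    nlinarith [mul_nonneg h7 h5, mul_nonneg h7 h6]

theorem low_len (L) (hL : IsLow L) (p : unitInterval × S3) : len5 (L p) ≤ 4 * Real.pi := by
  have hL' := hL p
  obtain ⟨b, y⟩ := p
  have hb0 := b.2.1
  have hb1 := b.2.2
  replace hL' : ∀ t : unitInterval, at5 (L (b, y)) t =
      if (b : ℝ) ≤ 1 / 2 then fOm (cl (4 * b - 1)) (us b) y t else fPsi (us b) (ph b) y t := hL'
  by_cases h1 : (b:ℝ) ≤ 1 / 4
  · have h2 : ((cl (4 * b - 1) : unitInterval) : ℝ) = 0 := by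
      unfold cl
      rw [Set.projIcc_of_le_left _ (by linarith)]
    refine low_len_zero _ (mk3 (qm (Real.sin (us b)) 0 y.1) (Real.cos (us b))) (fun t => ?_)
    rw [hL' t, if_pos (by linarith), h2]
    unfold fOm
    simp
  · push Not at h1
    by_cases h2 : (b:ℝ) ≤ 3 / 4
    · have h3 : us b = Real.pi / 2 := by
        unfold us cl
        rw [Set.projIcc_of_right_le _ (by
          have : (1:ℝ) / 4 ≤ min (b:ℝ) (1 - b) := le_min h1.le (by linarith)
          linarith)]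
        simp
      by_cases h4 : (b:ℝ) ≤ 1 / 2
      · refine low_len_om _ y (cl (4 * b - 1)) (cl (4 * b - 1)).2.1 (cl (4 * b - 1)).2.2
          (fun t => ?_)
        rw [hL' t, if_pos h4, h3]
      · refine low_len_psi _ y (ph b) (fun t => ?_)
        rw [hL' t, if_neg h4, h3]
    · push Not at h2
      have h3 : ph b = Real.pi := by
        unfold ph cl
        rw [Set.projIcc_of_right_le _ (by linarith)]
        simp
      refine low_len_orb _ y (us b) (fun t => ?_)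
      rw [hL' t, if_neg (by linarith), h3]

end Pool.Agent.Helper534.LS

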