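import Pool.Agent.Helper534.L5.Defs5
import Pool.Agent.Helper534.LS.P_hmap_comp
import Pool.Agent.Helper534.LS.P_hmap_homotopic
import Pool.Agent.Helper534.LS.P_sig_spec
import Pool.Agent.Helper534.LS.P_sig_nat
import Pool.Agent.Helper534.L5.P_ci_facts
import Pool.Agent.Helper534.L5.P_pt5_cont
import Pool.Agent.Helper534.L5.P_at5_facts
import Pool.Agent.Helper534.L5.P_dist_bound

open MeasureTheory

namespace Pool.Agent.Helper534.LS



theorem small_zero_comp (z w : ℂ) (r : ℝ) (h0 : 0 ≤ r) (h1 : r ≤ 1)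
    (h : (1 - r) • z + r • w = 0) : ‖z‖ ^ 2 ≤ ‖z - w‖ ^ 2 := by
  have h2 : z = r • (z - w) := by
    have h3 : z - r • (z - w) = (1 - r) • z + r • w := by module
    rw [h] at h3
    exact sub_eq_zero.mp h3
  have h4 : ‖z‖ = r * ‖z - w‖ := by
    conv_lhs => rw [h2]
    rw [norm_smul, Real.norm_eq_abs, abs_of_nonneg h0]
  rw [h4, mul_pow]
  have h5 : r ^ 2 ≤ 1 := by nlinarith
  nlinarith [sq_nonneg ‖z - w‖]

theorem small_zero_pos (p q : C3) (hp : nsq p = 1) (hd : nsq (p - q) ≤ 1 / 4) (r : ℝ)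
    (h0 : 0 ≤ r) (h1 : r ≤ 1) : 0 < nsq ((1 - r) • p + r • q) := by
  by_contra hcon
  push Not at hcon
  unfold nsq at hcon
  have a1 := sq_nonneg ‖((1 - r) • p + r • q).1‖
  have a2 := sq_nonneg ‖((1 - r) • p + r • q).2.1‖
  have a3 := sq_nonneg ‖((1 - r) • p + r • q).2.2‖
  have b1 : ‖((1 - r) • p + r • q).1‖ ^ 2 = 0 := by linarith
  have b2 : ‖((1 - r) • p + r • q).2.1‖ ^ 2 = 0 := by linarith
  have b3 : ‖((1 - r) • p + r • q).2.2‖ ^ 2 = 0 := by linarith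
  have c1 : (1 - r) • p.1 + r • q.1 = 0 := norm_eq_zero.mp (pow_eq_zero_iff (by norm_num)|>.mp b1)
  have c2 : (1 - r) • p.2.1 + r • q.2.1 = 0 :=
    norm_eq_zero.mp (pow_eq_zero_iff (by norm_num)|>.mp b2)
  have c3 : (1 - r) • p.2.2 + r • q.2.2 = 0 :=
    norm_eq_zero.mp (pow_eq_zero_iff (by norm_num)|>.mp b3)
  have d1 := small_zero_comp _ _ r h0 h1 c1
  have d2 := small_zero_comp _ _ r h0 h1 c2
  have d3 := small_zero_comp _ _ r h0 h1 c3
  have hd' : ‖p.1 - q.1‖ ^ 2 + ‖p.2.1 - q.2.1‖ ^ 2 + ‖p.2.2 - q.2.2‖ ^ 2 ≤ 1 / 4 := hd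
  have hp' : ‖p.1‖ ^ 2 + ‖p.2.1‖ ^ 2 + ‖p.2.2‖ ^ 2 = 1 := hp
  linarith

theorem small_zero_nsq_smul (c : ℝ) (p : C3) : nsq (c • p) = c ^ 2 * nsq p := by
  unfold nsq
  have h : ∀ z : ℂ, ‖c • z‖ ^ 2 = c ^ 2 * ‖z‖ ^ 2 := by
    intro z
    rw [norm_smul, mul_pow, Real.norm_eq_abs, sq_abs]
  show ‖c • p.1‖ ^ 2 + ‖c • p.2.1‖ ^ 2 + ‖c • p.2.2‖ ^ 2 = _
  rw [h, h, h]
  ring

theorem small_zero_nsq_cont : Continuous nsq := by
  unfold nsq
  fun_prop

theorem small_zero_normalise (p : C3) (hp : 0 < nsq p) :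
    nsq ((Real.sqrt (nsq p))⁻¹ • p) = 1 := by
  rw [small_zero_nsq_smul, inv_pow, Real.sq_sqrt hp.le]
  exact inv_mul_cancel₀ hp.ne'

theorem small_zero_homotopic {Z : Type} [TopologicalSpace Z] (f g : C(Z, S5))
    (h : ∀ z, nsq ((f z).1 - (g z).1) ≤ 1 / 4) : f.Homotopic g := by
  have hpos : ∀ p : unitInterval × Z,
      0 < nsq ((1 - (p.1 : ℝ)) • (f p.2).1 + (p.1 : ℝ) • (g p.2).1) := fun p =>
    small_zero_pos _ _ (f p.2).2 (h p.2) _ p.1.2.1 p.1.2.2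
  have hm : Continuous fun p : unitInterval × Z =>
      (1 - (p.1 : ℝ)) • (f p.2).1 + (p.1 : ℝ) • (g p.2).1 := by
    fun_prop
  refine ⟨{ toFun := fun p => ⟨(Real.sqrt (nsq ((1 - (p.1 : ℝ)) • (f p.2).1 +
              (p.1 : ℝ) • (g p.2).1)))⁻¹ • ((1 - (p.1 : ℝ)) • (f p.2).1 + (p.1 : ℝ) • (g p.2).1),
              small_zero_normalise _ (hpos p)⟩
            continuous_toFun := ?_
            map_zero_left := ?_
            map_one_left := ?_ }⟩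
  · refine Continuous.subtype_mk ?_ _
    have hs : Continuous fun p : unitInterval × Z => (Real.sqrt (nsq ((1 - (p.1 : ℝ)) • (f p.2).1 +
        (p.1 : ℝ) • (g p.2).1)))⁻¹ :=
      (Real.continuous_sqrt.comp (small_zero_nsq_cont.comp hm)).inv₀
        (fun p => (Real.sqrt_pos.mpr (hpos p)).ne')
    exact hs.smul hm
  · intro z
    apply Subtype.ext
    show (Real.sqrt (nsq ((1 - ((0 : unitInterval) : ℝ)) • (f z).1 +
      ((0 : unitInterval) : ℝ) • (g z).1)))⁻¹ • ((1 - ((0 : unitInterval) : ℝ)) • (f z).1 +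
      ((0 : unitInterval) : ℝ) • (g z).1) = (f z).1
    rw [Set.Icc.coe_zero, sub_zero, one_smul, zero_smul, add_zero, (f z).2, Real.sqrt_one,
      inv_one, one_smul]
  · intro z
    apply Subtype.ext
    show (Real.sqrt (nsq ((1 - ((1 : unitInterval) : ℝ)) • (f z).1 +
      ((1 : unitInterval) : ℝ) • (g z).1)))⁻¹ • ((1 - ((1 : unitInterval) : ℝ)) • (f z).1 +
      ((1 : unitInterval) : ℝ) • (g z).1) = (g z).1
    rw [Set.Icc.coe_one, sub_self, one_smul, zero_smul, zero_add, (g z).2, Real.sqrt_one,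
      inv_one, one_smul]

theorem small_zero (e) (he : IsEv e) (x : HH (sub5 (1 / 2)) 4) :
    EE e (hmap (sub (sub5 (1 / 2))) 4 x) = 0 := by
  obtain ⟨_, hc0, _, _, hcs, _⟩ := ci_facts
  have h1 : EE e (hmap (sub (sub5 (1 / 2))) 4 x) =
      hmap (e.comp (idx (sub (sub5 (1 / 2))))) 5 (sig (sub5 (1 / 2)) 4 x) := by
    unfold EE
    rw [← sig_nat, ← hmap_comp]
  have hhom : (e.comp (idx (sub (sub5 (1 / 2))))).Homotopic
      ((⟨fun x : ↥(sub5 (1 / 2)) => e (1, x.1), by fun_prop⟩ : C(↥(sub5 (1 / 2)), S5)).comp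
        (prQ ↥(sub5 (1 / 2)))) := by
    apply small_zero_homotopic
    rintro ⟨s, y⟩
    obtain ⟨t, ht⟩ := hcs s
    have e1 : (e (s, y.1)).1 = at5 y.1 t := by
      rw [← ht]
      exact he y.1 t
    have e2 : (e (1, y.1)).1 = at5 y.1 0 := by
      have h2 := he y.1 0
      rw [Set.Icc.coe_zero, hc0] at h2
      exact h2
    show nsq ((e (s, y.1)).1 - (e (1, y.1)).1) ≤ 1 / 4
    rw [e1, e2]
    obtain ⟨h3, h4⟩ := dist_bound y.1 0 t
    have h5 : len5 y.1 ≤ 1 / 2 := y.2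
    nlinarith
  rw [h1, hmap_homotopic _ _ hhom, hmap_comp, (sig_spec ↥(sub5 (1 / 2)) 4 x).1, map_zero]

end Pool.Agent.Helper534.LS
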