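import Pool.Agent.Helper534.L5.Defs5
import Pool.Agent.Helper534.LS.P_mv_exact2
import Pool.Agent.Helper534.L5.P_s3_cov
import Pool.Agent.Helper534.L5.P_s3_U
import Pool.Agent.Helper534.L5.P_tau_facts

open MeasureTheory

namespace Pool.Agent.Helper534.LS



theorem zeta_exists : ∃ z, IsZeta z := by
  obtain ⟨τ, hτ, -⟩ := tau_facts
  obtain ⟨z, hz⟩ := mv_exact2 U1 U2 s3_cov.1 s3_cov.2.1 s3_cov.2.2 2 (hmap τ 2 tor2)
    ((s3_U 0).1 _) ((s3_U 0).2 _)
  refine ⟨z, fun τ' hτ' => ?_⟩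
  have h : τ' = τ := by
    apply ContinuousMap.ext
    intro p
    apply Subtype.ext
    apply Subtype.ext
    rw [hτ p, hτ' p]
  rw [h]
  exact hz

end Pool.Agent.Helper534.LS
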