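import Pool.Agent.Helper534.LS.P_hmap_comp
import Pool.Agent.Helper534.LS.P_hmap_homotopic
import Pool.Agent.Helper534.L5.P_zeta_exists
import Pool.Agent.Helper534.L5.P_det
import Pool.Agent.Helper534.L5.P_ev_exists
import Pool.Agent.Helper534.L5.P_dist_bound
import Pool.Agent.Helper534.L5.P_low_div
import Pool.Agent.Helper534.L5.P_small_zero
import Pool.Agent.Helper534.L5.P_X_exists
import Pool.Agent.Helper534.L5.P_Db_double
import Pool.Agent.Helper534.L5.P_Db_exists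
import Pool.Agent.Helper534.L5.P_D1_homotopic
import Pool.Agent.Helper534.L5.P_D1_exists
import Pool.Agent.Helper534.L5.P_low_exists
import Pool.Agent.Helper534.L5.P_hat_exists
import Pool.Agent.Helper534.L5.P_low_homotopic
import Pool.Agent.Helper534.L5.P_low_len
import Pool.Agent.Helper534.L5.P_spd_facts

open MeasureTheory

namespace Pool.Agent.Helper534.LS

theorem from_of_map {A : Type} [TopologicalSpace A] (f : C(A, HL5)) (a : ℝ)
    (h : ∀ x, len5 (f x) ≤ a) (n : ℕ) (y : HH A n) :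
    ∃ z : HH (sub5 a) n, hmap (sub (sub5 a)) n z = hmap f n y := by
  let f' : C(A, sub5 a) := ⟨fun x => ⟨f x, h x⟩, by fun_prop⟩
  refine ⟨hmap f' n y, ?_⟩
  rw [← hmap_comp]
  rfl

theorem from_mono {a b : ℝ} (hab : a ≤ b) (n : ℕ) (z : HH (sub5 a) n) :
    ∃ z' : HH (sub5 b) n, hmap (sub (sub5 b)) n z' = hmap (sub (sub5 a)) n z := by
  obtain ⟨w, hw⟩ := from_of_map (sub (sub5 a)) b (fun x => le_trans x.2 hab) n z
  exact ⟨w, hw⟩

theorem fromSub5 {a : ℝ} {n : ℕ} (x : HH HL5 n) :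
    FromSub {γ | len5 γ ≤ a} x ↔ ∃ z : HH (sub5 a) n, hmap (sub (sub5 a)) n z = x := by
  constructor
  · rintro ⟨z, hz⟩
    exact ⟨Submodule.Quotient.mk z, hz⟩
  · rintro ⟨y, hy⟩
    obtain ⟨z, rfl⟩ := Submodule.Quotient.mk_surjective _ y
    exact ⟨z, hy⟩

theorem EE_smul (e) (m : ℤ) (x : HH HL5 4) : EE e (m • x) = m • EE e x := by
  unfold EE
  rw [map_smul, map_smul]

theorem main5 : ∃ X : HH HL5 4, 1 / 2 ≤ crit len5 (mult 2 X) ∧
    crit len5 (mult 2 X) ≤ 4 * Real.pi ∧ 4 * Real.pi + 1 ≤ crit len5 X := by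
  obtain ⟨e, he⟩ := ev_exists
  obtain ⟨F, hF, b, hb⟩ := X_exists
  obtain ⟨ζ, hζ⟩ := zeta_exists
  obtain ⟨D, hD⟩ := Db_exists
  obtain ⟨D1, hD1⟩ := D1_exists
  obtain ⟨L, hL, hL0, hL1⟩ := low_exists
  obtain ⟨G, hG⟩ := hat_exists L hL0 hL1
  obtain ⟨hd1, hd2⟩ := det e he F hF ζ hζ
  have h2 : mult 2 (hmap F 4 (sig S3 3 ζ)) = (2 : ℤ) • hmap F 4 (sig S3 3 ζ) := by
    unfold mult
    rw [← natCast_zsmul]
    rfl
  have h3 : (2 : ℤ) • hmap F 4 (sig S3 3 ζ) = hmap G 4 (sig S3 3 ζ) := by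
    rw [← Db_double F hF D hD ζ, hmap_homotopic _ _ (D1_homotopic D hD D1 hD1),
      hmap_homotopic _ _ (low_homotopic L hL G hG D1 hD1)]
  have hlow : ∃ z : HH (sub5 (4 * Real.pi)) 4, hmap (sub (sub5 (4 * Real.pi))) 4 z =
      (2 : ℤ) • hmap F 4 (sig S3 3 ζ) := by
    rw [h3]
    refine from_of_map G _ (fun p => ?_) 4 _
    rw [hG p]
    exact low_len L hL _
  refine ⟨hmap F 4 (sig S3 3 ζ), ?_, ?_, ?_⟩
  · rw [h2]
    unfold crit
    apply le_csInf
    · exact ⟨4 * Real.pi, by positivity, (fromSub5 _).2 hlow⟩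
    · rintro a ⟨ha, ha'⟩
      rw [fromSub5] at ha'
      obtain ⟨z, hz⟩ := ha'
      by_contra hlt
      push Not at hlt
      obtain ⟨z', hz'⟩ := from_mono hlt.le 4 z
      have h4 := small_zero e he z'
      rw [hz', hz, EE_smul] at h4
      exact absurd (hd2 2 h4) (by norm_num)
  · rw [h2]
    unfold crit
    apply csInf_le
    · exact ⟨0, fun a ha => ha.1⟩
    · exact ⟨by positivity, (fromSub5 _).2 hlow⟩
  · unfold crit
    apply le_csInf
    · refine ⟨max b 0, le_max_right _ _, (fromSub5 _).2 ?_⟩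
      exact from_of_map F _ (fun p => (hb p).trans (le_max_left _ _)) 4 _
    · rintro a ⟨ha, ha'⟩
      rw [fromSub5] at ha'
      obtain ⟨z, hz⟩ := ha'
      by_contra hlt
      push Not at hlt
      obtain ⟨c, hc⟩ := low_div e he a hlt z
      rw [hz] at hc
      exact hd1 c hc

theorem gM_metric : IsMetric gM := by
  refine ⟨?_, ?_, ?_, ?_, ?_⟩
  · intro u v
    unfold gM d0 d1 d2 d3
    have h1 : ContDiff ℝ ((⊤ : ℕ∞) : WithTop ℕ∞) (fun z : ℂ => z.re) := Complex.reCLM.contDiff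
    have h2 : ContDiff ℝ ((⊤ : ℕ∞) : WithTop ℕ∞) (fun z : ℂ => star z) :=
      (Complex.conjCLE.toContinuousLinearMap : ℂ →L[ℝ] ℂ).contDiff
    have hp1 : ContDiff ℝ ((⊤ : ℕ∞) : WithTop ℕ∞) (fun p : C3 => p.1) := contDiff_fst
    have hp2 : ContDiff ℝ ((⊤ : ℕ∞) : WithTop ℕ∞) (fun p : C3 => p.2.1) := by fun_prop
    have hp3 : ContDiff ℝ ((⊤ : ℕ∞) : WithTop ℕ∞) (fun p : C3 => p.2.2) := by fun_prop
    have hs3 : ContDiff ℝ ((⊤ : ℕ∞) : WithTop ℕ∞) (fun p : C3 => star p.2.2) := h2.comp hp3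
    have e1 : ∀ u : C3, ContDiff ℝ ((⊤ : ℕ∞) : WithTop ℕ∞)
        (fun p : C3 => 2 * p.1 * u.1 * star p.2.2 + p.1 ^ 2 * star u.2.2) := by
      intro u; fun_prop
    have e2 : ∀ u : C3, ContDiff ℝ ((⊤ : ℕ∞) : WithTop ℕ∞)
        (fun p : C3 => (u.1 * p.2.1 + p.1 * u.2.1) * star p.2.2 + p.1 * p.2.1 * star u.2.2) := by
      intro u; fun_prop
    have e3 : ∀ u : C3, ContDiff ℝ ((⊤ : ℕ∞) : WithTop ℕ∞)
        (fun p : C3 => 2 * p.2.1 * u.2.1 * star p.2.2 + p.2.1 ^ 2 * star u.2.2) := by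
      intro u; fun_prop
    have e0 : ∀ u : C3, ContDiff ℝ ((⊤ : ℕ∞) : WithTop ℕ∞)
        (fun p : C3 => 2 * (p.2.2 * star u.2.2).re) := by
      intro u
      exact contDiff_const.mul (h1.comp (hp3.mul contDiff_const))
    refine contDiff_const.add (contDiff_const.mul (((e0 u).mul (e0 v)).add ?_))
    exact h1.comp ((((e1 u).mul (h2.comp (e1 v))).add ((e2 u).mul (h2.comp (e2 v)))).add
      ((e3 u).mul (h2.comp (e3 v))))
  · intro p u v
    unfold gM d0 d1 d2 d3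
    simp only [Complex.add_re, Complex.mul_re, Complex.star_def, Complex.conj_re, Complex.conj_im]
    ring
  · intro p u u' v
    unfold gM d0 d1 d2 d3
    simp only [Complex.add_re, Complex.mul_re, Complex.add_im, Complex.mul_im, Complex.star_def,
      Complex.conj_re, Complex.conj_im, Prod.fst_add, Prod.snd_add]
    ring
  · intro c p u v
    unfold gM d0 d1 d2 d3
    simp only [Complex.add_re, Complex.mul_re, Complex.add_im, Complex.mul_im, Complex.star_def,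
      Complex.conj_re, Complex.conj_im, Prod.smul_fst, Prod.smul_snd, Complex.real_smul,
      Complex.ofReal_re, Complex.ofReal_im]
    ring
  · intro p u hu
    rw [(spd_facts p u).1]
    have h1 : 0 < nsq u := by
      unfold nsq
      by_contra h
      have h1 := sq_nonneg ‖u.1‖
      have h2 := sq_nonneg ‖u.2.1‖
      have h3 := sq_nonneg ‖u.2.2‖
      have e1 : ‖u.1‖ ^ 2 = 0 := by linarith
      have e2 : ‖u.2.1‖ ^ 2 = 0 := by linarith
      have e3 : ‖u.2.2‖ ^ 2 = 0 := by linarith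
      apply hu
      simp only [ne_eq, OfNat.ofNat_ne_zero, not_false_eq_true, pow_eq_zero_iff, norm_eq_zero]
        at e1 e2 e3
      ext <;> simp [e1, e2, e3]
    positivity

theorem main5' : ∃ g, IsMetric g ∧ ∃ X : HH Loop5 4,
    0 < crit (lenG g) (mult 2 X) ∧ crit (lenG g) (mult 2 X) < crit (lenG g) X := by
  obtain ⟨X, h1, h2, h3⟩ := main5
  refine ⟨gM, gM_metric, X, ?_, ?_⟩
  · have h4 : 0 < crit len5 (mult 2 X) := by linarith
    exact h4
  · have h4 : crit len5 (mult 2 X) < crit len5 X := by linarith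
    exact h4

end Pool.Agent.Helper534.LS
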