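import Pool.Agent.Helper534.L5.Defs5
import Pool.Agent.Helper534.L5.P_H2_exists

open MeasureTheory

namespace Pool.Agent.Helper534.LS



theorem Db_exists : ∃ D, IsDb D := by
  obtain ⟨H, hH⟩ := H2_exists
  refine ⟨H.comp ⟨fun p => (p.1, p), by fun_prop⟩, ?_⟩
  intro p t
  have h := hH (p.1, p) t
  have h' : at5 ((H.comp ⟨fun p : Circle × S3 => (p.1, p), by fun_prop⟩) p) t =
    if (t : ℝ) ≤ 1 / 2 then fX p.1 p.2 (2 * t) else fX p.1 p.2 (2 * t - 1) := h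
  rw [h']
  by_cases ht : (t : ℝ) ≤ 1 / 2
  · rw [if_pos ht, if_pos ht]
  · rw [if_neg ht, if_neg ht]

end Pool.Agent.Helper534.LS
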