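import Pool.Agent.Helper534.L5.Defs5
import Pool.Agent.Helper534.L5.P_pt5_cont
import Pool.Agent.Helper534.L5.P_var_bound

open MeasureTheory

namespace Pool.Agent.Helper534.LS



theorem o_cov_cont (a : ℝ) :
    Continuous fun q : ↥(sub5 a) × unitInterval => ‖(at5 q.1.1 q.2).2.2‖ := by
  have h : Continuous fun q : ↥(sub5 a) × unitInterval => pt5 q.1.1.1.1 q.1.1.1.2 q.2 := by
    refine pt5_cont.comp (Y := (C3 × L2C) × unitInterval)
      (f := fun q : ↥(sub5 a) × unitInterval => ((q.1.1.1.1, q.1.1.1.2), q.2)) ?_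
    fun_prop
  exact (continuous_snd.comp (continuous_snd.comp h)).norm

theorem o_cov_open {X : Type} [TopologicalSpace X] {P : X × unitInterval → Prop}
    (hP : IsOpen {q | P q}) : IsOpen {x | ∀ t, P (x, t)} := by
  have h1 : IsClosed {q : X × unitInterval | ¬ P q} := hP.isClosed_compl
  have h2 := isClosedMap_fst_of_compactSpace (X := X) (Y := unitInterval) _ h1
  have h3 : {x | ∀ t, P (x, t)} = (Prod.fst '' {q : X × unitInterval | ¬ P q})ᶜ := by
    ext x
    constructor
    · intro h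
      rintro ⟨⟨x', t⟩, hq, hx⟩
      have hx' : x' = x := hx
      subst hx'
      exact hq (h t)
    · intro h t
      by_contra hcon
      exact h ⟨(x, t), hcon, rfl⟩
  rw [h3]
  exact h2.isOpen_compl

theorem o_cov (a : ℝ) (ha : a < 4 * Real.pi + 1) :
    IsOpen (O1 a) ∧ IsOpen (O2 a) ∧ ∀ x, x ∈ O1 a ∨ x ∈ O2 a := by
  refine ⟨?_, ?_, ?_⟩
  · exact o_cov_open (P := fun q : ↥(sub5 a) × unitInterval => ‖(at5 q.1.1 q.2).2.2‖ < 1 / 2)
      (isOpen_lt (o_cov_cont a) continuous_const)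
  · exact o_cov_open (P := fun q : ↥(sub5 a) × unitInterval => 1 / 4 < ‖(at5 q.1.1 q.2).2.2‖)
      (isOpen_lt continuous_const (o_cov_cont a))
  · intro x
    by_cases h : ∀ t, ‖(at5 x.1 t).2.2‖ < 1 / 2
    · exact Or.inl h
    · right
      push Not at h
      obtain ⟨s, hs⟩ := h
      intro t
      have hlen : len5 x.1 ≤ a := x.2
      have hb := (abs_le.1 (var_bound x.1 s t).1).1
      have hpi := Real.pi_lt_d2
      have hn : 0 ≤ ‖(at5 x.1 t).2.2‖ := norm_nonneg _
      have h1 : 1 / 4 ≤ ‖(at5 x.1 s).2.2‖ ^ 2 := by nlinarith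
      by_contra hcon
      push Not at hcon
      have h2 : ‖(at5 x.1 t).2.2‖ ^ 2 ≤ 1 / 16 := by nlinarith
      linarith

end Pool.Agent.Helper534.LS
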